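import Pool.Agent.MP_552068_nt.Spec

/-! Reflection of binomial coefficients. -/

set_option autoImplicit false

namespace Pool.Agent.MP_552068_nt

open Finset

theorem bin : S_BIN := by
  intro R _ p h H hp m N i hN hi
  induction i with
  | zero => simp
  | succ i ih =>
    obtain ⟨d, rfl⟩ : ∃ d, N = i + 1 + d := ⟨N - (i + 1), by omega⟩
    have ih' := ih (by omega)
    have e1 := Nat.choose_mul_succ_eq (m + i) m
    have e2 := Nat.choose_succ_right_eq (i + 1 + d) i
    have e3 := H.2 d (by omega)
    rw [show m + i + 1 - m = i + 1 by omega] at e1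
    rw [show i + 1 + d - i = d + 1 by omega] at e2 ih'
    rw [show i + 1 + d - (i + 1) = d by omega, ← add_assoc]
    have f1 := congrArg (Nat.cast : ℕ → R) e1
    have f2 := congrArg (Nat.cast : ℕ → R) e2
    have f3 := congrArg (Nat.cast : ℕ → R) hN
    have u := H.unit (i := i + 1) (by omega) (by omega)
    push_cast at f1 f2 f3 u
    refine u.mul_right_cancel ?_
    rw [← f1, ih']
    linear_combination (-1) ^ i * (1 - p * (h (i + 1 + d) - h d)) * f2 +
      (-1) ^ i * ((i + 1 + d).choose i : R) * ((1 - p * (h (i + 1 + d) - h (d + 1))) * f3 -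
        (h (i + 1 + d) - h (d + 1)) * hp - p * e3)

end Pool.Agent.MP_552068_nt
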