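import Pool.Agent.MP_552068_nt.Spec

/-! Project BL: every block is divisible by the square of the prime. -/

set_option autoImplicit false

namespace Pool.Agent.MP_552068_nt

open Finset

namespace BLKx

theorem M_zero {k j : ℕ} (h : k < 2 * j) : M k j = 0 := by
  unfold M
  rw [Nat.choose_eq_zero_of_lt (n := k - j) (by omega), mul_zero]

theorem sq_zero {R : Type} [CommRing R] {p m : ℕ} (hp : (p : R) ^ 2 = 0) (h : p ∣ m) :
    (m : R) ^ 2 = 0 := by
  obtain ⟨k, rfl⟩ := h
  rw [Nat.cast_mul, mul_pow, hp, zero_mul]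

theorem row (h1 : S_CAR) (h2 : S_LUC) (h4 : S_ROW) {R : Type} [CommRing R] {p n : ℕ} {h : ℕ → R}
    {κ : R} (hp : p.Prime) (H : Harm p h) (h0 : (p : R) ^ 2 = 0) (hn : 2 * n + 1 = p)
    (b c t u : ℕ) (e : t + u = n)
    (hκ : (-16) ^ t * ((-1) ^ u * cb R u) * (1 + p * (h u - h (2 * u))) = κ * cb R t) :
    ∑ r ∈ range p, (-1) ^ r * (-16) ^ t * (M (p * (b + 2 * c) + r) (p * c + t) : R) ^ 2 =
      (M (p * (b + 2 * c)) (p * c) : R) ^ 2 * κ *
        (df p h c t + 2 * p * c * h n * df p h 0 t) := by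
  have e1 : range p = range (2 * t + (2 * u + 1)) := by congr 1; omega
  rw [e1, sum_range_add, sum_eq_zero (s := range (2 * t)) fun r hr => by
    have := mem_range.1 hr
    rw [sq_zero h0 (h1 p _ c r t hp (by omega) (by omega) this), mul_zero], zero_add]
  have a := h4 R p n h κ ((b : R) + 2 * c) c H h0 hn t u e hκ
  have e2 : df p h 0 t = cb R t ^ 3 := by simp [df]
  rw [e2, mul_assoc, ← a, mul_sum]
  refine sum_congr rfl fun i hi => ?_
  have := mem_range.1 hi
  rw [h2 R p h H h0 b c t i (by omega), pow_add, pow_mul, neg_one_sq, one_pow, one_mul]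
  linear_combination (-1) ^ i * (-16) ^ t * (M (p * (b + 2 * c)) (p * c) : R) ^ 2 *
    (M (2 * t + i) t : R) ^ 2 * ((b + 2 * c) * h (2 * t + i) - 2 * c * h t - b * h i) ^ 2 * h0

end BLKx

theorem blk (h1 : S_CAR) (h2 : S_LUC) (h3 : S_RAT) (h4 : S_ROW) : S_BLK := by
  intro p n h hp hn H hd A c
  by_cases hA : A < 2 * c
  · have : I p A c = 0 := sum_eq_zero fun r hr => sum_eq_zero fun t _ => by
      have := mem_range.1 hr
      have : p * (A + 1) ≤ p * (2 * c) := Nat.mul_le_mul_left p hA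
      rw [BLKx.M_zero (by nlinarith)]
      simp
    rw [this]
    exact dvd_zero _
  obtain ⟨b, rfl⟩ : ∃ b, A = b + 2 * c := ⟨A - 2 * c, by omega⟩
  have h0 : (p : ZMod (p ^ 2)) ^ 2 = 0 := by
    rw [← Nat.cast_pow, ZMod.natCast_self]
  obtain ⟨κ, hκ⟩ := h3 _ p n h H h0 hn
  rw [← Nat.cast_pow, ← ZMod.intCast_zmod_eq_zero_iff_dvd]
  unfold I
  push_cast
  have e1 : range p = range (n + 1 + n) := by congr 1; omega
  rw [sum_comm]
  conv_lhs => rw [e1]
  rw [sum_range_add, ← e1, sum_eq_zero (s := range n) fun i hi => sum_eq_zero fun r hr => by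
    have := mem_range.1 hr
    have := mem_range.1 hi
    rw [BLKx.sq_zero h0 (h1 p _ c r _ hp (by omega) (by omega) (by omega)), mul_zero],
    add_zero]
  rw [sum_congr rfl fun t ht => BLKx.row h1 h2 h4 hp H h0 hn b c t (n - t)
    (by have := mem_range.1 ht; omega) (hκ t _ (by have := mem_range.1 ht; omega)),
    ← mul_sum, sum_add_distrib, ← mul_sum, hd, hd]
  simp

end Pool.Agent.MP_552068_nt
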