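import Pool.Agent.MP_552068_nt.Spec

/-! Project BL, row CAR: a carry makes the trinomial coefficient divisible by `p`. -/

set_option autoImplicit false

namespace Pool.Agent.MP_552068_nt

open Finset

namespace CARx

theorem car1 {p A c r t : ℕ} (hp : p.Prime) (ht : t < p) (h : r < t) :
    p ∣ (p * A + r).choose (p * c + t) := by
  have := Fact.mk hp
  have h1 := Choose.choose_modEq_choose_mod_mul_choose_div_nat (n := p * A + r) (k := p * c + t)
    (p := p)
  rw [Nat.mul_add_mod, Nat.mul_add_mod, Nat.mod_eq_of_lt ht, Nat.mod_eq_of_lt (h.trans ht),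
    Nat.choose_eq_zero_of_lt h, zero_mul] at h1
  exact Nat.modEq_zero_iff_dvd.1 h1

end CARx

open CARx in
theorem car : S_CAR := by
  intro p A c r t hp hr ht h
  unfold M
  rcases lt_or_ge r t with h1 | h1
  · exact (car1 hp ht h1).mul_right _
  rcases lt_or_ge A c with h2 | h2
  · have h3 : p * (A + 1) ≤ p * c := Nat.mul_le_mul_left p h2
    rw [mul_add_one] at h3
    rw [Nat.choose_eq_zero_of_lt (show p * A + r < p * c + t by omega), zero_mul]
    exact dvd_zero p
  · obtain ⟨B, rfl⟩ := Nat.exists_eq_add_of_le h2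
    rw [show p * (c + B) + r - (p * c + t) = p * B + (r - t) by rw [mul_add]; omega]
    exact (car1 hp ht (by omega)).mul_left _

end Pool.Agent.MP_552068_nt
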