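import Pool.Agent.MP_552068_nt.Spec

/-! Project BL, row LUC: trinomial coefficients modulo the square of a prime. -/

set_option autoImplicit false

namespace Pool.Agent.MP_552068_nt

open Finset

namespace LUCx

theorem mfac (j i : ℕ) :
    M (2 * j + i) j * (j.factorial * j.factorial * i.factorial) = (2 * j + i).factorial := by
  have h1 := Nat.add_choose_mul_factorial_mul_factorial i j
  have h2 := Nat.add_choose_mul_factorial_mul_factorial (i + j) j
  rw [M, show 2 * j + i - j = i + j by omega, show 2 * j + i = i + j + j by ring, ← h2, ← h1]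
  ring

theorem nat (B C t i : ℕ) :
    M (2 * C + B + (2 * t + i)) (C + t) * ((C + 1).ascFactorial t * (C + 1).ascFactorial t *
      (B + 1).ascFactorial i) = M (2 * C + B) C * (2 * C + B + 1).ascFactorial (2 * t + i) := by
  have h1 := mfac (C + t) (B + i)
  rw [show 2 * (C + t) + (B + i) = 2 * C + B + (2 * t + i) by ring,
    ← Nat.factorial_mul_ascFactorial (2 * C + B), ← mfac C B, ← Nat.factorial_mul_ascFactorial C,
    ← Nat.factorial_mul_ascFactorial B] at h1
  refine Nat.eq_of_mul_eq_mul_left
    (Nat.mul_pos (Nat.mul_pos C.factorial_pos C.factorial_pos) B.factorial_pos) ?_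
  linear_combination h1

variable {R : Type} [CommRing R] {p : ℕ} {h : ℕ → R}

theorem asc (H : Harm p h) (hp : (p : R) ^ 2 = 0) (x m : ℕ) (hm : m < p) :
    (((p * x + 1).ascFactorial m : ℕ) : R) = m.factorial * (1 + p * (x * h m)) := by
  induction m with
  | zero => simp [H.1]
  | succ m ih =>
    rw [Nat.ascFactorial_succ, Nat.factorial_succ]
    push_cast
    rw [ih (by omega)]
    linear_combination (m.factorial * x ^ 2 * h m) * hp - (m.factorial * p * x) * H.2 m hm

theorem ufac (H : Harm p h) (m : ℕ) (hm : m < p) : IsUnit (m.factorial : R) := by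
  induction m with
  | zero => simp
  | succ m ih =>
    rw [Nat.factorial_succ, Nat.cast_mul]
    exact (H.unit m.succ_pos hm).mul (ih (by omega))

theorem fin {p a b g x y : R} (hp : p ^ 2 = 0)
    (e : x * ((1 + p * a) * (1 + p * a) * (1 + p * b)) = y * (1 + p * g)) :
    x = y * (1 + p * (g - 2 * a - b)) := by
  linear_combination (1 - p * (2 * a + b)) * e - (x * ((a ^ 2 + 2 * a * b + p * a ^ 2 * b) *
    (1 - p * (2 * a + b)) - (2 * a + b) ^ 2) + y * g * (2 * a + b)) * hp

end LUCx

open LUCx in
theorem luc : S_LUC := by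
  intro R _ p h H hp b c t i hr
  have h1 := congrArg (Nat.cast : ℕ → R) (nat (p * b) (p * c) t i)
  rw [show 2 * (p * c) + p * b = p * (b + 2 * c) by ring] at h1
  simp only [Nat.cast_mul] at h1
  rw [asc H hp c t (by omega), asc H hp b i (by omega), asc H hp _ _ hr, ← mfac t i] at h1
  have u := ((ufac H t (by omega)).mul (ufac H t (by omega))).mul (ufac H i (by omega))
  have h2 := fin (a := c * h t) (b := b * h i) (g := (b + 2 * c) * h (2 * t + i))
    (x := M (p * (b + 2 * c) + (2 * t + i)) (p * c + t))
    (y := M (p * (b + 2 * c)) (p * c) * M (2 * t + i) t) hp (u.mul_left_cancel (by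
      push_cast at h1
      linear_combination h1))
  rw [h2]
  ring

end Pool.Agent.MP_552068_nt
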