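import Pool.Agent.MP_552068_nt.Spec2
import Pool.Agent.MP_552068_nt.LUC

/-! Project B3, row CAR3: the terms with a carry, modulo the cube. -/

set_option autoImplicit false

namespace Pool.Agent.MP_552068_nt

open Finset

namespace CAR3x

theorem nat (B C r s t : ℕ) (e : r + (s + 1) = 2 * t) :
    M (2 * C + B + r) (C + t) * ((C + 1).ascFactorial t) ^ 2 =
      M (2 * C + B) C * (2 * C + B + 1).ascFactorial r * B.descFactorial (s + 1) := by
  rcases lt_or_ge B (s + 1) with l | l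
  · rw [Nat.descFactorial_of_lt l, M,
      Nat.choose_eq_zero_of_lt (show 2 * C + B + r - (C + t) < C + t by omega)]
    simp
  · have h1 := LUCx.mfac (C + t) (B - (s + 1))
    rw [show 2 * (C + t) + (B - (s + 1)) = 2 * C + B + r by omega,
      ← Nat.factorial_mul_ascFactorial (2 * C + B), ← LUCx.mfac C B,
      ← Nat.factorial_mul_ascFactorial C, ← Nat.factorial_mul_descFactorial l] at h1
    refine Nat.eq_of_mul_eq_mul_left
      (Nat.mul_pos (Nat.mul_pos C.factorial_pos C.factorial_pos) (B - (s + 1)).factorial_pos) ?_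
    linear_combination h1

variable {R : Type} [CommRing R]

theorem asc (p x m : ℕ) : ∃ y : R, (((p * x + 1).ascFactorial m : ℕ) : R) = m.factorial + p * y := by
  induction m with
  | zero => exact ⟨0, by simp⟩
  | succ m ih =>
    obtain ⟨y, e⟩ := ih
    refine ⟨x * m.factorial + (p * x + 1 + m) * y, ?_⟩
    rw [Nat.ascFactorial_succ, Nat.factorial_succ]
    push_cast
    rw [e]
    ring

theorem dsucc (N k : ℕ) :
    ((N.descFactorial (k + 1) : ℕ) : R) = ((N : R) - k) * (N.descFactorial k : ℕ) := by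
  rcases lt_or_ge N k with l | l
  · rw [Nat.descFactorial_succ, Nat.descFactorial_of_lt l]
    simp
  · rw [Nat.descFactorial_succ, Nat.cast_mul, Nat.cast_sub l]

theorem desc (p b s : ℕ) : ∃ f : R, (((p * b).descFactorial (s + 1) : ℕ) : R) =
    p * b * ((-1) ^ s * s.factorial + p * f) := by
  induction s with
  | zero => exact ⟨0, by simp⟩
  | succ s ih =>
    obtain ⟨f, e⟩ := ih
    refine ⟨b * ((-1) ^ s * s.factorial) + (p * b - (s + 1)) * f, ?_⟩
    rw [dsucc, e, Nat.factorial_succ]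
    push_cast
    ring

theorem fin {p x y b T v a Q e σ f : R} (hp : p ^ 3 = 0) (hv : T * v = 1)
    (E : x * (T + p * a) ^ 2 = y * (Q + p * e) * (p * b * (σ + p * f))) :
    x ^ 2 = y ^ 2 * (p ^ 2 * b ^ 2 * ((Q * σ) ^ 2 * v ^ 4)) := by
  have n : IsNilpotent (p * a) := ⟨3, by rw [mul_pow, hp, zero_mul]⟩
  have u : IsUnit (T + p * a) :=
    n.isUnit_add_left_of_commute (IsUnit.of_mul_eq_one v hv) (Commute.all _ _)
  have h1 : (T + p * a) ^ 4 * x ^ 2 = y ^ 2 * p ^ 2 * b ^ 2 * ((Q + p * e) * (σ + p * f)) ^ 2 := by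
    linear_combination (x * (T + p * a) ^ 2 + y * (Q + p * e) * (p * b * (σ + p * f))) * E
  have h2 : p ^ 2 * ((Q + p * e) * (σ + p * f)) ^ 2 = p ^ 2 * (Q * σ) ^ 2 := by
    linear_combination ((Q * f + e * σ + p * e * f) *
      (2 * Q * σ + p * (Q * f + e * σ + p * e * f))) * hp
  have h3 : p ^ 2 * (T + p * a) ^ 4 = p ^ 2 * T ^ 4 := by
    linear_combination (4 * T ^ 3 * a + 6 * T ^ 2 * p * a ^ 2 + 4 * T * p ^ 2 * a ^ 3 +
      p ^ 3 * a ^ 4) * hp
  have h4 : T ^ 4 * v ^ 4 = 1 := by rw [← mul_pow, hv, one_pow]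
  refine (u.pow 4).mul_left_cancel ?_
  linear_combination h1 + y ^ 2 * b ^ 2 * h2 - y ^ 2 * b ^ 2 * (Q * σ) ^ 2 * v ^ 4 * h3 -
    y ^ 2 * b ^ 2 * p ^ 2 * (Q * σ) ^ 2 * h4

end CAR3x

theorem car3 : S_CAR3 := by
  intro R _ p h H hp r t _ ht l
  obtain ⟨s, e⟩ : ∃ s, r + (s + 1) = 2 * t := ⟨2 * t - r - 1, by omega⟩
  obtain ⟨v, hv⟩ := (LUCx.ufac H t ht).exists_right_inv
  refine ⟨((r.factorial : R) * ((-1) ^ s * s.factorial)) ^ 2 * v ^ 4, fun b c => ?_⟩
  have h1 := congrArg (Nat.cast : ℕ → R) (CAR3x.nat (p * b) (p * c) r s t e)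
  rw [show 2 * (p * c) + p * b = p * (b + 2 * c) by ring] at h1
  simp only [Nat.cast_mul, Nat.cast_pow] at h1
  obtain ⟨a, e1⟩ := CAR3x.asc (R := R) p c t
  obtain ⟨y, e2⟩ := CAR3x.asc (R := R) p (b + 2 * c) r
  obtain ⟨f, e3⟩ := CAR3x.desc (R := R) p b s
  rw [e1, e2, e3] at h1
  exact CAR3x.fin hp hv h1

end Pool.Agent.MP_552068_nt
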