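import Pool.Agent.MP_552068_nt.Spec

/-! The Clausen formula in characteristic `p`. -/

set_option autoImplicit false

namespace Pool.Agent.MP_552068_nt

open Finset

namespace CLAx

open Polynomial

variable {K : Type} [Field K]

/-- `Y (1 - Y)` -/
noncomputable def s : K[X] := X * (1 - X)

/-- the derivation -/
noncomputable def de : K[X] →ₗ[K] K[X] := (LinearMap.mulLeft K s).comp derivative

theorem de_ap (w : K[X]) : de w = s * derivative w := rfl

/-- the operator of order three -/
noncomputable def L : K[X] →ₗ[K] K[X] :=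
  (LinearMap.mulLeft K 2).comp (de.comp (de.comp de)) - (LinearMap.mulLeft K (2 * s)).comp de -
    LinearMap.mulLeft K (s * (1 - 2 * X))

theorem L_ap (w : K[X]) : L w = 2 * de (de (de w)) - 2 * s * de w - s * (1 - 2 * X) * w := rfl

theorem de_mul (a b : K[X]) : de (a * b) = a * de b + b * de a := by
  simp only [de_ap, derivative_mul]
  ring

theorem de_nat (t : ℕ) : de (t : K[X]) = 0 := by simp [de_ap]

theorem de_s : de (s : K[X]) = s * (1 - 2 * X) := by
  simp only [de_ap, s, derivative_mul, derivative_X, derivative_sub, derivative_one]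
  ring

theorem de_u : de (1 - 2 * X : K[X]) = -2 * s := by
  simp only [de_ap, derivative_mul, derivative_X, derivative_sub, derivative_one, derivative_ofNat]
  ring

theorem de_pow (t : ℕ) : de (s ^ t : K[X]) = (t : K[X]) * ((1 - 2 * X) * s ^ t) := by
  induction t with
  | zero => simp [de_ap]
  | succ t ih =>
    rw [pow_succ, de_mul, de_s, ih]
    push_cast
    ring

theorem L_pow (t : ℕ) : L (s ^ t : K[X]) =
    (1 - 2 * X) * (2 * (t : K[X]) ^ 3 * s ^ t - (2 * (t : K[X]) + 1) ^ 3 * s ^ (t + 1)) := by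
  have h2 : de (de (s ^ t : K[X])) = ((t * t : ℕ) : K[X]) * s ^ t -
      ((4 * t * t + 2 * t : ℕ) : K[X]) * s ^ (t + 1) := by
    rw [de_pow, de_mul, de_nat, de_mul, de_pow, de_u]
    push_cast
    simp only [s, pow_succ _ t]
    ring
  rw [L_ap, h2, map_sub, de_mul, de_mul, de_nat, de_nat, de_pow, de_pow]
  push_cast
  ring

theorem L_sq {f : K[X]} (h2 : (2 : K[X]) ≠ 0) (h : 4 * de (de f) = s * f) : L (f ^ 2) = 0 := by
  have d4 : de (4 : K[X]) = 0 := de_nat 4
  have h' := congrArg de h
  rw [de_mul, d4, de_mul, de_s] at h'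
  refine mul_left_cancel₀ h2 ?_
  rw [L_ap, sq]
  simp only [de_mul, map_add]
  linear_combination (6 * de f) * h + (2 * f) * h'

theorem co_th (w : K[X]) (t : ℕ) : (X * derivative w).coeff t = t * w.coeff t := by
  cases t with
  | zero => simp
  | succ t =>
    rw [coeff_X_mul, coeff_derivative]
    push_cast
    ring

theorem co_de (w : K[X]) (t : ℕ) :
    (de w).coeff (t + 1) = (t + 1) * w.coeff (t + 1) - t * w.coeff t := by
  have : de w = X * derivative w - X * (X * derivative w) := by
    rw [de_ap, s]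
    ring
  rw [this, coeff_sub, co_th, coeff_X_mul, co_th]
  push_cast
  ring

theorem low {w : K[X]} {k : ℕ} (h : ∀ j < k + 1, w.coeff j = 0) :
    (∀ j < k + 1, (de w).coeff j = 0) ∧ (de w).coeff (k + 1) = (k + 1) * w.coeff (k + 1) := by
  refine ⟨fun j hj => ?_, by rw [co_de, h k (by omega), mul_zero, sub_zero]⟩
  cases j with
  | zero => simp [de_ap, s]
  | succ j => rw [co_de, h _ hj, h j (by omega), mul_zero, mul_zero, sub_zero]

theorem low' {w : K[X]} {k : ℕ} (h : ∀ j < k, w.coeff j = 0) (q : K[X]) :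
    (s * q * w).coeff k = 0 := by
  obtain ⟨v, rfl⟩ := X_pow_dvd_iff.2 h
  exact X_pow_dvd_iff.1 (Dvd.intro (a := X ^ (k + 1)) ((1 - X) * q * v) (by rw [s]; ring)) k
    (by omega)

theorem uniq {p : ℕ} [CharP K p] (h2 : (2 : K) ≠ 0) {w : K[X]} (h0 : w.coeff 0 = 0)
    (hL : L w = 0) (hd : w.natDegree < p) : w = 0 := by
  have key : ∀ k, k < p → ∀ j < k + 1, w.coeff j = 0 := by
    intro k
    induction k with
    | zero => exact fun _ j hj => by rw [show j = 0 by omega, h0]
    | succ k ih =>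
      intro hk j hj
      have a0 := ih (by omega)
      rcases Nat.lt_succ_iff_lt_or_eq.1 hj with c | rfl
      · exact a0 j c
      obtain ⟨a1, b1⟩ := low a0
      obtain ⟨a2, b2⟩ := low a1
      have b3 := (low a2).2
      have e := congrArg (coeff · (k + 1)) hL
      have n0 : ((k + 1 : ℕ) : K) ≠ 0 := fun z =>
        absurd (Nat.le_of_dvd (by omega) ((CharP.cast_eq_zero_iff K p _).1 z)) (by omega)
      simp only [L_ap, coeff_sub, mul_comm 2 s, low' a0, low' a1, coeff_ofNat_mul, b3, b2, b1,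
        sub_zero, coeff_zero] at e
      push_cast at n0
      simpa [h2, n0] using e
  ext j
  rcases lt_or_ge j p with c | c
  · exact key j c j (by omega)
  · exact coeff_eq_zero_of_natDegree_lt (by omega)

end CLAx

open Polynomial CLAx in
theorem cla : S_CLA := by
  intro K _ p n _ hp hn x y hxy
  have p0 : 2 * (n : K) + 1 = 0 := by exact_mod_cast hn ▸ CharP.cast_eq_zero K p
  have h2 : (2 : K) ≠ 0 := fun z => by simp [z] at p0
  obtain ⟨v, hv⟩ : ∃ v : K, 16 * v = 1 := ⟨16⁻¹, mul_inv_cancel₀ (by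
    rw [show (16 : K) = 2 ^ 4 by norm_num]
    exact pow_ne_zero 4 h2)⟩
  let f : K[X] := ∑ t ∈ range (n + 1), monomial t ((n.choose t : K) ^ 2)
  let G : K[X] := ∑ t ∈ range (n + 1), (cb K t ^ 3 * v ^ t) • s ^ t
  have fc : ∀ t, f.coeff t = (n.choose t : K) ^ 2 := fun t => by
    simp only [f, finsetSum_coeff, coeff_monomial, sum_ite_eq', mem_range]
    split_ifs with c
    · rfl
    · rw [Nat.choose_eq_zero_of_lt (by omega), Nat.cast_zero, zero_pow two_ne_zero]
  have ch : ∀ t : ℕ, (n.choose (t + 1) : K) * (t + 1) = n.choose t * (n - t) := fun t => by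
    rcases le_or_gt t n with c | c
    · rw [← Nat.cast_sub c]
      exact_mod_cast congrArg (Nat.cast : ℕ → K) (Nat.choose_succ_right_eq n t)
    · simp [Nat.choose_eq_zero_of_lt c, Nat.choose_eq_zero_of_lt (Nat.lt_succ_of_lt c)]
  have f1 : 4 * derivative (de f) = f := by
    ext t
    rw [coeff_ofNat_mul, coeff_derivative, co_de, fc, fc]
    linear_combination 4 * ((n.choose (t + 1) : K) * (t + 1) + n.choose t * (n - t)) * ch t +
      (n.choose t : K) ^ 2 * (2 * n - 4 * t - 1) * p0
  have Lf : L (f ^ 2) = 0 := L_sq (fun z => h2 (by simpa using congrArg (coeff · 0) z)) (by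
    rw [de_ap (de f), mul_left_comm, f1])
  have rc : ∀ t : ℕ, (2 * t + 1) ^ 3 * C (cb K t ^ 3 * v ^ t) =
      2 * ((t + 1 : ℕ) : K[X]) ^ 3 * C (cb K (t + 1) ^ 3 * v ^ (t + 1)) := fun t => by
    have e : ((t : K) + 1) * cb K (t + 1) = 2 * (2 * t + 1) * cb K t := by
      have := congrArg (Nat.cast : ℕ → K) (Nat.succ_mul_centralBinom_succ t)
      push_cast at this
      exact this
    have e' : (2 * (t : K) + 1) ^ 3 * (cb K t ^ 3 * v ^ t) =
        2 * ((t + 1 : ℕ) : K) ^ 3 * (cb K (t + 1) ^ 3 * v ^ (t + 1)) := by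
      have := congrArg (· ^ 3) e
      push_cast
      linear_combination (-2 * v ^ (t + 1)) * this - (2 * t + 1) ^ 3 * cb K t ^ 3 * v ^ t * hv
    have := congrArg C e'
    simp only [map_mul, map_pow, map_add, map_natCast, map_one, C_ofNat] at this ⊢
    exact this
  have LG : L G = 0 := by
    have e : ∀ t ∈ range (n + 1), L ((cb K t ^ 3 * v ^ t) • s ^ t) =
        (1 - 2 * X) * (2 * (t : K[X]) ^ 3 * C (cb K t ^ 3 * v ^ t) * s ^ t) - (1 - 2 * X) *
          (2 * ((t + 1 : ℕ) : K[X]) ^ 3 * C (cb K (t + 1) ^ 3 * v ^ (t + 1)) * s ^ (t + 1)) :=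
      fun t _ => by
        rw [map_smul, L_pow, ← rc, smul_eq_C_mul]
        ring
    have p1 : 2 * (n : K[X]) + 1 = 0 := by simpa [C_ofNat] using congrArg C p0
    rw [map_sum, sum_congr rfl e, sum_range_sub' (fun t : ℕ =>
      (1 - 2 * X) * (2 * (t : K[X]) ^ 3 * C (cb K t ^ 3 * v ^ t) * s ^ t)), ← rc, p1]
    simp
  have ev : ∀ z : K, (G - f ^ 2).eval z = ∑ t ∈ range (n + 1), cb K t ^ 3 * (v * (z * (1 - z))) ^ t -
      (∑ t ∈ range (n + 1), (n.choose t : K) ^ 2 * z ^ t) ^ 2 := fun z => by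
    simp only [G, f, eval_sub, eval_pow, eval_finsetSum, eval_smul, eval_monomial, s, eval_mul,
      eval_X, eval_one, smul_eq_mul, mul_pow v, mul_assoc]
  have W : G - f ^ 2 = 0 := by
    refine uniq (p := p) h2 ?_ (by rw [map_sub, LG, Lf, sub_zero]) ?_
    · rw [coeff_zero_eq_eval_zero, ev, sum_range_succ', sum_range_succ']
      simp [cb]
    · have d1 : f.natDegree ≤ n := natDegree_le_iff_coeff_eq_zero.2 fun t c => by
        rw [fc, Nat.choose_eq_zero_of_lt c, Nat.cast_zero, zero_pow two_ne_zero]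
      have d2 : (s : K[X]).natDegree ≤ 2 := by
        rw [s]
        compute_degree
      have d3 : G.natDegree ≤ 2 * n := natDegree_sum_le_of_forall_le _ _ fun t ht =>
        (natDegree_smul_le _ _).trans (natDegree_pow_le.trans (by
          have := mem_range.1 ht
          nlinarith))
      have d4 : (f ^ 2).natDegree ≤ 2 * n := natDegree_pow_le.trans (by omega)
      have := natDegree_sub_le G (f ^ 2)
      omega
  have := ev y
  rw [W, eval_zero, ← hxy, ← mul_assoc, mul_comm v, hv, one_mul] at this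
  exact (sub_eq_zero.1 this.symm)

end Pool.Agent.MP_552068_nt
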