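import Pool.Agent.MP_552068_nt.Spec

/-! Project BL: the last step. -/

set_option autoImplicit false

namespace Pool.Agent.MP_552068_nt

open Finset

theorem harm_exists {p : ℕ} (hp : p.Prime) : ∃ h : ℕ → ZMod (p ^ 2), Harm p h := by
  refine ⟨fun i => ∑ k ∈ range i, ((k + 1 : ℕ) : ZMod (p ^ 2))⁻¹, by simp, fun i hi => ?_⟩
  have hc : (i + 1).Coprime (p ^ 2) :=
    Nat.Coprime.pow_right 2 (Nat.coprime_of_lt_prime (Nat.succ_ne_zero i) hi hp).symm
  have := ZMod.coe_mul_inv_eq_one (i + 1) hc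
  simp only [sum_range_succ, add_sub_cancel_left]
  push_cast at this ⊢
  exact this

theorem last (h1 : S_SPL) (h2 : S_BLK) (h3 : S_QFG) (h4 : S_SS) (p n : ℕ) (hp : p.Prime)
    (h7 : p % 7 = 3 ∨ p % 7 = 5 ∨ p % 7 = 6) : (p : ℤ) ^ 2 ∣ S (p * n) := by
  obtain ⟨m, hm⟩ : ∃ m, 2 * m + 1 = p := by
    obtain ⟨m, hm⟩ := hp.odd_of_ne_two (by omega)
    exact ⟨m, hm.symm⟩
  obtain ⟨h, H⟩ := harm_exists hp
  refine h1 p n hp.pos (h2 p m h hp hm H ?_)
  by_cases h3' : p = 3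
  · subst h3'
    obtain rfl : m = 1 := by omega
    intro e
    have h9 : (9 : ZMod (3 ^ 2)) = 0 := by decide
    simp only [sum_range_succ, range_zero, sum_empty, df, cb]
    norm_num [Nat.choose]
    linear_combination (1 + 16 * e * (h 2 - h 1)) * h9
  · exact h3 p m h hp hm h3' (by omega) H (h4 p m hp hm h7)

end Pool.Agent.MP_552068_nt
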