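import Pool.Agent.MP_552068_nt.Spec2

/-! Project B3: the last step. -/

set_option autoImplicit false

namespace Pool.Agent.MP_552068_nt

open Finset

namespace Fin2x

theorem harm_ex {p : ℕ} (hp : p.Prime) (k : ℕ) : ∃ h : ℕ → ZMod (p ^ k), Harm p h := by
  refine ⟨fun i => ∑ j ∈ range i, ((j + 1 : ℕ) : ZMod (p ^ k))⁻¹, by simp, fun i hi => ?_⟩
  have hc : (i + 1).Coprime (p ^ k) :=
    Nat.Coprime.pow_right k (Nat.coprime_of_lt_prime (Nat.succ_ne_zero i) hi hp).symm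
  have := ZMod.coe_mul_inv_eq_one (i + 1) hc
  simp only [sum_range_succ, add_sub_cancel_left]
  push_cast at this ⊢
  exact this

theorem harm_map {R T : Type} [CommRing R] [CommRing T] (f : R →+* T) {p : ℕ} {h : ℕ → R}
    (H : Harm p h) : Harm p fun i => f (h i) := by
  refine ⟨by simp [H.1], fun i hi => ?_⟩
  have := congrArg f (H.2 i hi)
  simpa using this

theorem W_map {R T : Type} [CommRing R] [CommRing T] (f : R →+* T) (n : ℕ) (h : ℕ → R) :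
    f (W n h) = W n fun i => f (h i) := by
  simp only [W, Wr, g2, map_sum, map_mul, map_pow, map_add, map_sub, map_neg, map_one, map_natCast,
    map_ofNat]

theorem blocks (h2 : S_BLK) (h3 : S_QFG) (h4 : S_SS) (p m : ℕ) (hp : p.Prime) (hm : 2 * m + 1 = p)
    (h7 : p % 7 = 3 ∨ p % 7 = 5 ∨ p % 7 = 6) : ∀ A c, (p : ℤ) ^ 2 ∣ I p A c := by
  obtain ⟨h, H⟩ := harm_ex hp 2
  refine h2 p m h hp hm H ?_
  by_cases h3' : p = 3
  · subst h3'
    obtain rfl : m = 1 := by omega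
    intro e
    have h9 : (9 : ZMod (3 ^ 2)) = 0 := by decide
    simp only [sum_range_succ, range_zero, sum_empty, df, cb]
    norm_num [Nat.choose]
    linear_combination (1 + 16 * e * (h 2 - h 1)) * h9
  · exact h3 p m h hp hm h3' (by omega) H (h4 p m hp hm h7)

theorem S_one : S 1 = 1 := by decide

theorem S_nine : S 9 = -849046527 := by
  simp only [S, sum_range_succ, range_zero, sum_empty]
  norm_num [Nat.choose]

theorem ne63 {p : ℕ} (hp : p.Prime) (n3 : p ≠ 3) (n7 : p ≠ 7) : (63 : ZMod p) ≠ 0 := fun h4 => by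
  have h5 : p ∣ 3 * (3 * 7) := (ZMod.natCast_eq_zero_iff 63 p).1 (by exact_mod_cast h4)
  have e3 : ¬ p ∣ 3 := fun h6 => n3 ((Nat.prime_dvd_prime_iff_eq hp Nat.prime_three).1 h6)
  rcases (Nat.Prime.dvd_mul hp).1 h5 with h6 | h6
  · exact e3 h6
  · rcases (Nat.Prime.dvd_mul hp).1 h6 with h7 | h7
    · exact e3 h7
    · exact n7 ((Nat.prime_dvd_prime_iff_eq hp Nat.prime_seven).1 h7)

end Fin2x

open Fin2x in
theorem last2 (h2 : S_BLK) (h3 : S_QFG) (h4 : S_SS) (a1 : S_PHI) (a2 : S_LOW) (a3 : S_TOP)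
    (a4 : S_TK0) (a5 : S_ROW2) (a6 : S_OMG) (a7 : S_HF) (p n : ℕ) (hp : p.Prime)
    (h7 : p % 7 = 3 ∨ p % 7 = 5 ∨ p % 7 = 6) :
    (p : ℤ) ^ 3 ∣ S (p ^ 2 * n) - p ^ 2 * S n := by
  have p2 : p ≠ 2 := by omega
  obtain ⟨m, hm⟩ : ∃ m, 2 * m + 1 = p := by
    obtain ⟨m, hm⟩ := hp.odd_of_ne_two p2
    exact ⟨m, hm.symm⟩
  obtain ⟨k, K⟩ := harm_ex hp 3
  obtain ⟨z0, z1, z2, q3, q4, q5, hW, hI⟩ := a1 _ p m k K
    (by rw [← Nat.cast_pow, ZMod.natCast_self]) hm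
  obtain ⟨Q0, Q1, Q2, Q3, Q4, Q5, e4, e5, hQ⟩ := a2 p z0 z1 z2 q3 q4 q5 hp p2 hI
    (blocks h2 h3 h4 p m hp hm h7)
  have top := fun N => a3 p N Q0 Q1 Q2 Q3 Q4 Q5 hp p2 hQ
  have key : (p : ℤ) ∣ (∑ r ∈ range p, ∑ t ∈ range p,
      (-1) ^ r * (-16) ^ t * (M r t : ℤ) ^ 2 * qd Q0 Q1 Q2 Q3 Q4 Q5 r t) - 1 := by
    by_cases p3 : p = 3
    · subst p3
      have t1 := top 1
      rw [show 3 * (3 * 1) = 9 from rfl, S_one, S_nine] at t1
      generalize (∑ r ∈ range 3, ∑ t ∈ range 3,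
        (-1) ^ r * (-16) ^ t * (M r t : ℤ) ^ 2 * qd Q0 Q1 Q2 Q3 Q4 Q5 r t) = X at t1 ⊢
      push_cast at t1 ⊢
      omega
    let f : ZMod (p ^ 3) →+* ZMod p := ZMod.castHom (dvd_pow_self p three_ne_zero) (ZMod p)
    have H := harm_map f K
    have p0 : (p : ZMod p) = 0 := ZMod.natCast_self p
    obtain ⟨κ, k2, c2, hκ⟩ := a4 p m _ hp H hm
    have g0 : mo m 0 (fun t => cb (ZMod p) t ^ 3) 0 = 0 := by simpa [mo] using h4 p m hp hm h7
    obtain ⟨g1, gG, gH⟩ := a7 p m _ hp H hm (ne63 hp p3 (by omega)) c2 g0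
    have om := a6 _ p m _ κ Q0 Q1 Q2 Q3 Q4 Q5 H p0 hm hκ g0 g1
    have e45 : (Q4 : ZMod p) + Q5 = W m fun i => f (k i) := by
      rw [← W_map, ← hW, ← e4, ← e5, map_add, map_intCast, map_intCast]
    have eW : (W m fun i => f (k i)) =
        κ * (∑ t ∈ range (m + 1), cb (ZMod p) t ^ 3 * hh (fun i => f (k i)) t +
          2 * f (k m) * ∑ t ∈ range (m + 1), cb (ZMod p) t ^ 3 * (6 * (f (k (2 * t)) - f (k t))) +
          (2 * f (k m) ^ 2 + 2 * g2 (fun i => f (k i)) (2 * m) + g2 (fun i => f (k i)) m) *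
            mo m 0 (fun t => cb (ZMod p) t ^ 3) 0) := by
      simp only [W, mo, mul_sum, ← sum_add_distrib]
      refine sum_congr rfl fun t ht => ?_
      have ht' : t + (m - t) = m := by have := mem_range.1 ht; omega
      rw [a5 _ p m _ H p0 hm t (m - t) ht']
      linear_combination (cb (ZMod p) t ^ 2 * (hh (fun i => f (k i)) t +
        12 * f (k m) * (f (k (2 * t)) - f (k t)) + (2 * f (k m) ^ 2 +
          2 * g2 (fun i => f (k i)) (2 * m) + g2 (fun i => f (k i)) m))) * hκ t (m - t) ht'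
    rw [← ZMod.intCast_zmod_eq_zero_iff_dvd]
    simp only [qd] at om ⊢
    push_cast
    rw [om, e45, eW, g0]
    linear_combination k2 + κ ^ 2 * gH + 2 * κ ^ 2 * f (k m) * gG
  obtain ⟨y, hy⟩ := key
  have t := top n
  rw [sub_eq_iff_eq_add.1 hy, ← mul_assoc, ← pow_two] at t
  obtain ⟨x, hx⟩ := t
  exact ⟨x + S n * y, by linear_combination hx⟩

end Pool.Agent.MP_552068_nt
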