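import Pool.Agent.MP_552068_nt.Spec2

/-! Row HF: the first and second order terms of the deformed sum. -/

set_option autoImplicit false

namespace Pool.Agent.MP_552068_nt

open Finset

namespace HFx

variable {R R' : Type} [CommRing R] [CommRing R']

theorem cb_map (φ : R →+* R') (t : ℕ) : cb R' t = φ (cb R t) := by
  simp only [cb, map_natCast]

theorem harm_map (φ : R →+* R') {p : ℕ} {h : ℕ → R} (H : Harm p h) : Harm p fun i => φ (h i) := by
  refine ⟨by simp only [H.1, map_zero], fun i hi => ?_⟩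
  have e := congrArg φ (H.2 i hi)
  simpa only [map_mul, map_add, map_sub, map_one, map_natCast] using e

theorem hh_map (φ : R →+* R') (h : ℕ → R) (t : ℕ) : hh (fun i => φ (h i)) t = φ (hh h t) := by
  simp only [hh, g2, map_add, map_sub, map_mul, map_pow, map_sum, map_ofNat]

theorem mo_map (φ : R →+* R') (n j : ℕ) :
    mo n 0 (fun t => cb R' t ^ 3) j = φ (mo n 0 (fun t => cb R t ^ 3) j) := by
  simp only [mo, map_sum, map_mul, map_pow, map_add, map_zero, map_natCast, cb_map φ]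

theorem df2_zero (h : ℕ → R) (t : ℕ) : df2 h 0 t = cb R t ^ 3 := by
  simp only [df2]
  ring

theorem recur (h1 : S_REC2) {p n : ℕ} {h : ℕ → R} (H : Harm p h) (hn : 2 * n + 1 = p) :
    ∀ t < n, ((t : R) + 1) ^ 3 * cb R (t + 1) ^ 3 = 8 * (2 * t + 1) ^ 3 * cb R t ^ 3 := by
  intro t ht
  have e := h1 R p h 0 H (by simp) t (by omega)
  simpa only [df2_zero, add_zero, mul_zero] using e

theorem mo_df2 (n : ℕ) (h : ℕ → R) (ε : R) :
    mo n ε (df2 h ε) 0 = mo n 0 (fun t => cb R t ^ 3) 0 +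
      ε * (∑ t ∈ range (n + 1), cb R t ^ 3 * (6 * (h (2 * t) - h t))) +
      ε ^ 2 * ∑ t ∈ range (n + 1), cb R t ^ 3 * hh h t := by
  simp only [mo, pow_zero, one_mul, mul_sum, ← sum_add_distrib]
  refine sum_congr rfl fun t _ => ?_
  simp only [df2]
  ring

theorem indep {K : Type} [Field K] (a b : K)
    (e : AdjoinRoot.of (Polynomial.X ^ 3 : Polynomial K) a * AdjoinRoot.root _ +
      AdjoinRoot.of (Polynomial.X ^ 3 : Polynomial K) b * AdjoinRoot.root _ ^ 2 = 0) :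
    a = 0 ∧ b = 0 := by
  have e1 : AdjoinRoot.mk (Polynomial.X ^ 3 : Polynomial K)
      (Polynomial.C a * Polynomial.X + Polynomial.C b * Polynomial.X ^ 2) = 0 := by
    rw [map_add, map_mul, map_mul, map_pow, AdjoinRoot.mk_C, AdjoinRoot.mk_C, AdjoinRoot.mk_X]
    exact e
  rw [AdjoinRoot.mk_eq_zero, Polynomial.X_pow_dvd_iff] at e1
  have c1 := e1 1 (by norm_num)
  have c2 := e1 2 (by norm_num)
  simp [Polynomial.coeff_X, Polynomial.coeff_X_pow] at c1 c2
  exact ⟨c1, c2⟩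

end HFx

open HFx in
theorem hf (h1 : S_REC2) (h2 : S_INV2) : S_HF := by
  intro p n h hp H hn h63 hc F0
  have := Fact.mk hp
  have hp0 : ((p : ℕ) : ZMod p) = 0 := ZMod.natCast_self p
  have r0 := recur h1 H hn
  have e0 := h2 (ZMod p) p n h (fun t => cb (ZMod p) t ^ 3) (fun t => cb (ZMod p) t ^ 3) 0 H hp0
    (by simp) hn r0 (by simpa only [add_zero, mul_zero] using r0)
  rw [F0] at e0
  have F1 : mo n 0 (fun t => cb (ZMod p) t ^ 3) 1 = 0 := by
    have e : (63 : ZMod p) * mo n 0 (fun t => cb (ZMod p) t ^ 3) 1 ^ 2 = 0 := by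
      linear_combination -e0
    exact pow_eq_zero_iff (two_ne_zero) |>.1 ((mul_eq_zero.1 e).resolve_left h63)
  refine ⟨F1, ?_⟩
  set f : Polynomial (ZMod p) := Polynomial.X ^ 3 with hf
  set φ := AdjoinRoot.of f with hφ
  set ε := AdjoinRoot.root f with hε
  have e3 : ε ^ 3 = 0 := by
    rw [hε, ← AdjoinRoot.mk_X, ← map_pow]
    exact AdjoinRoot.mk_self
  have H' := harm_map φ H
  have hp' : ((p : ℕ) : AdjoinRoot f) = 0 := by rw [← map_natCast φ, hp0, map_zero]
  have e := h2 (AdjoinRoot f) p n (fun i => φ (h i)) (fun t => cb (AdjoinRoot f) t ^ 3)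
    (df2 (fun i => φ (h i)) ε) ε H' hp' e3 hn (recur h1 H' hn)
    (fun t ht => h1 _ p _ ε H' e3 t (by omega))
  rw [mo_df2, mo_map φ n 0, mo_map φ n 1, mo_map φ n 2, F0, F1, map_zero] at e
  have c0 : cb (AdjoinRoot f) 0 = 1 := by simp [cb]
  have cn : cb (AdjoinRoot f) n ^ 2 = 1 := by rw [cb_map φ, ← map_pow, hc, map_one]
  have s1 : ∑ t ∈ range (n + 1), cb (AdjoinRoot f) t ^ 3 * (6 * (φ (h (2 * t)) - φ (h t))) =
      φ (∑ t ∈ range (n + 1), cb (ZMod p) t ^ 3 * (6 * (h (2 * t) - h t))) := by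
    simp only [map_sum, map_mul, map_pow, map_sub, map_ofNat, cb_map φ]
  have s2 : ∑ t ∈ range (n + 1), cb (AdjoinRoot f) t ^ 3 * hh (fun i => φ (h i)) t =
      φ (∑ t ∈ range (n + 1), cb (ZMod p) t ^ 3 * hh h t) := by
    simp only [map_sum, map_mul, map_pow, hh_map, cb_map φ]
  rw [s1, s2] at e
  simp only [df2, c0] at e
  generalize (∑ t ∈ range (n + 1), cb (ZMod p) t ^ 3 * (6 * (h (2 * t) - h t))) = G at e ⊢
  generalize (∑ t ∈ range (n + 1), cb (ZMod p) t ^ 3 * hh h t) = Q at e ⊢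
  generalize mo n 0 (fun t => cb (ZMod p) t ^ 3) 2 = F at e ⊢
  generalize cb (AdjoinRoot f) n = c at e cn
  generalize φ (h (2 * n)) - φ (h n) = u at e
  generalize φ (h (2 * 0)) - φ (h 0) = u0 at e
  generalize hh (fun i => φ (h i)) n = w at e
  generalize hh (fun i => φ (h i)) 0 = w0 at e
  obtain ⟨a1, a2⟩ := indep (63 * (G * F)) (63 * (Q * F - 1)) (by
    rw [← hf, ← hφ, ← hε]
    simp only [map_mul, map_sub, map_one, map_ofNat]
    linear_combination e + (64 * c ^ 6 * (6 * u + ε * w) - (6 * u0 + ε * w0)) * e3 +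
      64 * ε ^ 2 * (c ^ 4 + c ^ 2 + 1) * cn)
  exact ⟨(mul_eq_zero.1 a1).resolve_left h63,
    sub_eq_zero.1 ((mul_eq_zero.1 a2).resolve_left h63)⟩

end Pool.Agent.MP_552068_nt
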