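import Pool.Agent.MP_552068_nt.Spec

/-! Two alternating sums of squares of binomial coefficients. -/

set_option autoImplicit false

namespace Pool.Agent.MP_552068_nt

open Finset

namespace HIDx

variable {R : Type} [CommRing R] {p : ℕ} {h : ℕ → R}

/-- the coefficients of the logarithm -/
def lg (h : ℕ → R) : ℕ → R
  | 0 => 0
  | m + 1 => (-1) ^ m * (h (m + 1) - h m)

theorem lg_succ (H : Harm p h) {m : ℕ} (hm : m + 1 < p) :
    ((m : R) + 1) * lg h (m + 1) = (-1) ^ m := by
  show ((m : R) + 1) * ((-1) ^ m * (h (m + 1) - h m)) = _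
  rw [mul_left_comm, H.2 m hm, mul_one]

theorem lg_two (H : Harm p h) {m : ℕ} (hm : 2 * m < p) :
    2 * lg h (2 * m) = (-1) ^ m * lg h m := by
  rcases m with _ | k
  · simp [lg]
  have h1 := lg_succ H (m := 2 * k + 1) (by omega)
  have h2 := lg_succ H (m := k) (by omega)
  have h3 : ((-1 : R) ^ k) ^ 2 = 1 := by rw [← pow_mul, mul_comm, pow_mul, neg_one_sq, one_pow]
  refine (H.unit (i := k + 1) (by omega) (by omega)).mul_left_cancel ?_
  rw [pow_succ, pow_mul, neg_one_sq, one_pow] at h1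
  rw [show 2 * (k + 1) = 2 * k + 1 + 1 by ring, pow_succ]
  push_cast at h1 ⊢
  linear_combination h1 + (-1) ^ k * h2 + h3

theorem conv (H : Harm p h) {b : ℕ} (hb : b < p) : ∀ l ≤ b,
    ∑ q ∈ antidiagonal l, (b.choose q.1 : R) * lg h q.2 = b.choose l * (h b - h (b - l))
  | 0, _ => by simp [lg]
  | l + 1, hl => by
    have ih := conv H hb l (by omega)
    have hc : ∀ j ≤ l, ((j : R) + 1) * b.choose (j + 1) = b.choose j * ((b : R) - j) := by
      intro j hj
      have := congrArg (Nat.cast (R := R)) (Nat.choose_succ_right_eq b j)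
      rw [Nat.cast_mul, Nat.cast_mul, Nat.cast_sub (by omega), Nat.cast_succ] at this
      rw [mul_comm, this]
    have h1 : ((l : R) + 1) * ∑ q ∈ antidiagonal (l + 1), (b.choose q.1 : R) * lg h q.2 =
        ∑ q ∈ antidiagonal (l + 1), (q.1 : R) * b.choose q.1 * lg h q.2 +
          ∑ q ∈ antidiagonal (l + 1), (b.choose q.1 : R) * (q.2 * lg h q.2) := by
      rw [Finset.mul_sum, ← Finset.sum_add_distrib]
      refine Finset.sum_congr rfl fun q hq => ?_
      have a1 : (q.1 : R) + q.2 = l + 1 := by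
        rw [← Nat.cast_add, Finset.HasAntidiagonal.mem_antidiagonal.1 hq, Nat.cast_succ]
      rw [← a1]
      ring
    have h2 : ∑ q ∈ antidiagonal l, (b.choose q.1 : R) * (q.2 * lg h q.2 + (-1) ^ q.2) =
        b.choose l := by
      rw [Finset.sum_eq_single (l, 0)]
      · simp
      · rintro ⟨j, m⟩ hq hne
        have a1 : j + m = l := Finset.HasAntidiagonal.mem_antidiagonal.1 hq
        rcases m with _ | m
        · exact absurd (by rw [← a1, add_zero]) hne
        · show (b.choose j : R) * (((m + 1 : ℕ) : R) * lg h (m + 1) + (-1) ^ (m + 1)) = 0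
          rw [Nat.cast_succ, lg_succ H (by omega), pow_succ]
          ring
      · simp
    have h3 : ((l : R) + 1) * ∑ q ∈ antidiagonal (l + 1), (b.choose q.1 : R) * lg h q.2 =
        ((b : R) - l) * ∑ q ∈ antidiagonal l, (b.choose q.1 : R) * lg h q.2 + b.choose l := by
      rw [h1, Finset.Nat.sum_antidiagonal_succ, Finset.Nat.sum_antidiagonal_succ', ← h2,
        Finset.mul_sum]
      simp only [Nat.cast_zero, zero_mul, mul_zero, zero_add, Nat.cast_succ]
      rw [← Finset.sum_add_distrib, ← Finset.sum_add_distrib]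
      refine Finset.sum_congr rfl fun q hq => ?_
      have a1 : q.1 + q.2 = l := Finset.HasAntidiagonal.mem_antidiagonal.1 hq
      have a2 : (l : R) = q.1 + q.2 := by rw [← a1, Nat.cast_add]
      rw [hc q.1 (by omega), lg_succ H (by omega), a2]
      ring
    have h4 := H.2 (b - (l + 1)) (by omega)
    rw [show b - (l + 1) + 1 = b - l by omega, Nat.cast_sub hl, Nat.cast_succ] at h4
    refine (H.unit (i := l + 1) (by omega) (by omega)).mul_left_cancel ?_
    rw [Nat.cast_succ, h3, ih, ← mul_assoc ((l : R) + 1), hc l le_rfl]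
    linear_combination (-(b.choose l : R)) * h4

theorem sum_ev (f : ℕ → R) (hf : ∀ j, f (2 * j + 1) = 0) (u : ℕ) :
    ∑ i ∈ range (2 * u + 1), f i = ∑ j ∈ range (u + 1), f (2 * j) := by
  induction u with
  | zero => simp
  | succ u ih =>
    rw [show 2 * (u + 1) + 1 = 2 * u + 1 + 1 + 1 by ring, sum_range_succ, sum_range_succ, ih, hf,
      add_zero, sum_range_succ _ (u + 1)]
    rfl

open Polynomial in
theorem coeff_neg (N k : ℕ) : ((1 - X : R[X]) ^ N).coeff k = (-1) ^ k * (N.choose k : R) := by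
  have h1 : (1 - X : R[X]) ^ N = ((1 + X : R[X]) ^ N).comp (C (-1) * X) := by
    simp [sub_eq_add_neg]
  rw [h1, comp_C_mul_X_coeff, coeff_one_add_X_pow, mul_comm]

open Polynomial in
theorem prod_eq (N : ℕ) : (1 - X : R[X]) ^ N * (1 + X) ^ N = expand R 2 ((1 - X) ^ N) := by
  rw [← mul_pow, map_pow, map_sub, map_one, expand_X]
  refine congrArg (· ^ N) ?_
  ring

end HIDx

open HIDx in
theorem hid : S_HID := by
  intro R _ p h H u hu
  have hE : ∀ j, ((1 - Polynomial.X : Polynomial R) ^ (2 * u) * (1 + Polynomial.X) ^ (2 * u)).coeff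
      (2 * j) = (-1) ^ j * ((2 * u).choose j : R) := fun j => by
    rw [prod_eq, Polynomial.coeff_expand_mul' two_pos, coeff_neg]
  have hO : ∀ j, ((1 - Polynomial.X : Polynomial R) ^ (2 * u) * (1 + Polynomial.X) ^ (2 * u)).coeff
      (2 * j + 1) = 0 := fun j => by
    rw [prod_eq, Polynomial.coeff_expand two_pos, if_neg (by omega)]
  have h1 : ∑ i ∈ range (2 * u + 1), (-1) ^ i * ((2 * u).choose i : R) ^ 2 =
      (-1) ^ u * cb R u := by
    refine Eq.trans ?_ (hE u)
    rw [Polynomial.coeff_mul, Finset.Nat.sum_antidiagonal_eq_sum_range_succ_mk]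
    refine Finset.sum_congr rfl fun i hi => ?_
    rw [coeff_neg, Polynomial.coeff_one_add_X_pow,
      Nat.choose_symm (Nat.lt_succ_iff.1 (mem_range.1 hi))]
    ring
  refine ⟨h1, ?_⟩
  have h2 := congrArg (PowerSeries.coeff (2 * u)) (mul_assoc
    (((1 - Polynomial.X : Polynomial R) ^ (2 * u) : Polynomial R) : PowerSeries R)
    (((1 + Polynomial.X : Polynomial R) ^ (2 * u) : Polynomial R) : PowerSeries R)
    (PowerSeries.mk (lg h)))
  rw [← Polynomial.coe_mul, PowerSeries.coeff_mul, PowerSeries.coeff_mul,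
    Finset.Nat.sum_antidiagonal_eq_sum_range_succ_mk,
    Finset.Nat.sum_antidiagonal_eq_sum_range_succ_mk] at h2
  simp only [Polynomial.coeff_coe, PowerSeries.coeff_mul, PowerSeries.coeff_mk, coeff_neg,
    Polynomial.coeff_one_add_X_pow, Nat.succ_eq_add_one] at h2
  rw [sum_ev _ fun j => by rw [hO, zero_mul]] at h2
  have h3 := conv H hu u (by omega)
  rw [Finset.Nat.sum_antidiagonal_eq_sum_range_succ_mk, show 2 * u - u = u by omega] at h3
  have h4 : 2 * ∑ j ∈ range (u + 1), ((1 - Polynomial.X : Polynomial R) ^ (2 * u) *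
      (1 + Polynomial.X) ^ (2 * u)).coeff (2 * j) * lg h (2 * u - 2 * j) =
      (-1) ^ u * (cb R u * (h (2 * u) - h u)) := by
    refine Eq.trans ?_ (congrArg _ h3)
    rw [Finset.mul_sum, Finset.mul_sum]
    refine Finset.sum_congr rfl fun j hj => ?_
    have a1 : j ≤ u := Nat.lt_succ_iff.1 (mem_range.1 hj)
    have a2 : (-1 : R) ^ u = (-1) ^ j * (-1) ^ (u - j) := by rw [← pow_add, Nat.add_sub_cancel' a1]
    rw [hE, ← Nat.mul_sub, mul_left_comm, lg_two H (by omega), a2]
    ring
  have h5 : ∑ i ∈ range (2 * u + 1), (-1) ^ i * ((2 * u).choose i : R) *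
      ∑ q ∈ antidiagonal (2 * u - i), ((2 * u).choose q.1 : R) * lg h q.2 =
      h (2 * u) * ∑ i ∈ range (2 * u + 1), (-1) ^ i * ((2 * u).choose i : R) ^ 2 -
        ∑ i ∈ range (2 * u + 1), (-1) ^ i * ((2 * u).choose i : R) ^ 2 * h i := by
    rw [Finset.mul_sum, ← Finset.sum_sub_distrib]
    refine Finset.sum_congr rfl fun i hi => ?_
    have a1 : i ≤ 2 * u := Nat.lt_succ_iff.1 (mem_range.1 hi)
    rw [conv H hu _ (Nat.sub_le _ _), Nat.choose_symm a1, Nat.sub_sub_self a1]
    ring
  rw [h2, h5, h1] at h4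
  linear_combination -h4

end Pool.Agent.MP_552068_nt
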