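import Pool.Agent.MP_552068_nt.Spec2
import Pool.Agent.MP_552068_nt.LUC

/-! Row HID2: the second order alternating sum of squares of binomial coefficients. -/

set_option autoImplicit false

namespace Pool.Agent.MP_552068_nt

open Finset

namespace HID2x

section Gen

variable {T : Type} [CommRing T] {p : ℕ} {h : ℕ → T} {x y : T}

theorem ds_succ (a : T) (i : ℕ) : ds a (i + 1) = ds a i * (a - i) := prod_range_succ _ _

theorem ds_eps (H : Harm p h) (hx : x ^ 2 = 0) {N : ℕ} (hN : N < p) : ∀ i ≤ N,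
    ds (N + x) i = (i.factorial : T) * (N.choose i : T) * (1 + x * (h N - h (N - i)))
  | 0, _ => by simp [ds]
  | i + 1, hi => by
    have ih := ds_eps H hx hN i (by omega)
    have h4 := H.2 (N - (i + 1)) (by omega)
    rw [show N - (i + 1) + 1 = N - i by omega, Nat.cast_sub hi, Nat.cast_succ] at h4
    have hc := congrArg (Nat.cast (R := T)) (Nat.choose_succ_right_eq N i)
    rw [Nat.cast_mul, Nat.cast_mul, Nat.cast_sub (by omega), Nat.cast_succ] at hc
    rw [ds_succ, ih, Nat.factorial_succ, Nat.cast_mul, Nat.cast_succ]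
    linear_combination (-(i.factorial : T) * (1 + x * (h N - h (N - (i + 1))))) * hc -
      (i.factorial : T) * (N.choose i : T) * x * h4 +
      (i.factorial : T) * (N.choose i : T) * (h N - h (N - i)) * hx

theorem U_eq (H : Harm p h) (hx : x ^ 2 = 0) (hy : y ^ 2 = 0) {N : ℕ} (hN : N < p) :
    U x y N = (N.factorial : T) * ∑ i ∈ range (N + 1), (-1) ^ i * (N.choose i : T) ^ 2 *
      ((1 + x * (h N - h (N - i))) * (1 + y * (h N - h i))) := by
  rw [U, mul_sum]
  refine sum_congr rfl fun i hi => ?_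
  have a1 : i ≤ N := Nat.lt_succ_iff.1 (mem_range.1 hi)
  have hc := congrArg (Nat.cast (R := T)) (Nat.choose_mul_factorial_mul_factorial a1)
  rw [Nat.cast_mul, Nat.cast_mul] at hc
  rw [ds_eps H hx hN i a1, ds_eps H hy hN (N - i) (Nat.sub_le _ _), Nat.choose_symm a1,
    Nat.sub_sub_self a1, ← hc]
  ring

theorem key (hx : x ^ 2 = 0) (hy : y ^ 2 = 0) (α β w G : T) :
    (1 + β * (x + y)) * (2 + α * (x + y)) * (8 + 4 * (x + y) * (w + α - β) +
      x * y * (2 * (w + α - β) ^ 2 + (G + 2 * α ^ 2 + 6 * β ^ 2))) =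
    (1 + α * x) * (1 + α * y) * (2 + β * (x + y)) *
      (8 + 4 * (x + y) * w + x * y * (2 * w ^ 2 + G)) := by
  grind

theorem g2_succ (h : ℕ → T) (m : ℕ) : g2 h (m + 1) = g2 h m + (h (m + 1) - h m) ^ 2 :=
  sum_range_succ _ _

theorem closed (h1 : S_JAC) (H : Harm p h) (hx : x ^ 2 = 0) (hy : y ^ 2 = 0) : ∀ u, 2 * u < p →
    8 * U x y (2 * u) = ((2 * u).factorial : T) * ((-1) ^ u * cb T u * (8 + 4 * (x + y) *
      (h (2 * u) - h u) + x * y * (2 * (h (2 * u) - h u) ^ 2 + (2 * g2 h (2 * u) + g2 h u))))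
  | 0, _ => by simp [U, ds, cb, g2]
  | u + 1, hu => by
    have ih := closed h1 H hx hy u (by omega)
    have hJ := h1 T x y (hx.trans hy.symm) (2 * u)
    have ha := H.2 (2 * u) (by omega)
    have hb := H.2 (2 * u + 1) (by omega)
    have hc := H.2 u (by omega)
    have hs : IsNilpotent (x + y) :=
      (Commute.all x y).isNilpotent_add ⟨2, hx⟩ ⟨2, hy⟩
    have u1 : IsUnit ((2 * u + 1 : ℕ) : T) := H.unit (by omega) (by omega)
    have u2 : IsUnit ((2 * u + 2 : ℕ) : T) := H.unit (by omega) (by omega)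
    have u3 : IsUnit ((2 : ℕ) : T) := H.unit (by omega) (by omega)
    have u4 : IsUnit ((u + 1 : ℕ) : T) := H.unit (by omega) (by omega)
    have v1 := hs.isUnit_add_left_of_commute u2 (Commute.all _ _)
    have v2 := hs.isUnit_add_left_of_commute (u3.mul u1) (Commute.all _ _)
    have hcb : ((u : T) + 1) * cb T (u + 1) = 2 * (2 * u + 1) * cb T u := by
      have := congrArg (Nat.cast (R := T)) (Nat.succ_mul_centralBinom_succ u)
      simpa [cb, Nat.centralBinom] using this
    obtain ⟨α, hα⟩ : ∃ α, α = h (2 * u + 1) - h (2 * u) := ⟨_, rfl⟩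
    obtain ⟨β, hβ⟩ : ∃ β, β = h (2 * u + 1 + 1) - h (2 * u + 1) := ⟨_, rfl⟩
    rw [← hα] at ha
    rw [← hβ] at hb
    push_cast at ha hb hJ u4 v1 v2
    have hd : h (u + 1) - h u = 2 * β := u4.mul_left_cancel (by linear_combination hc - hb)
    have e1 : h (2 * (u + 1)) - h (u + 1) = (h (2 * u) - h u) + α - β := by
      rw [show 2 * (u + 1) = 2 * u + 1 + 1 by ring]
      linear_combination -hα - hβ - hd
    have e2 : 2 * g2 h (2 * (u + 1)) + g2 h (u + 1) =
        (2 * g2 h (2 * u) + g2 h u) + 2 * α ^ 2 + 6 * β ^ 2 := by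
      rw [show 2 * (u + 1) = 2 * u + 1 + 1 by ring, g2_succ, g2_succ, g2_succ, ← hα, ← hβ, hd]
      ring
    have e3 : (((2 * (u + 1)).factorial : ℕ) : T) * cb T (u + 1) =
        4 * (2 * u + 1) ^ 2 * ((2 * u).factorial : T) * cb T u := by
      rw [show 2 * (u + 1) = 2 * u + 1 + 1 by ring, Nat.factorial_succ, Nat.factorial_succ]
      push_cast
      linear_combination (2 * (2 * u + 1) * ((2 * u).factorial : T)) * hcb
    have hk := key hx hy α β (h (2 * u) - h u) (2 * g2 h (2 * u) + g2 h u)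
    rw [e1, e2]
    generalize h (2 * u) - h u = w at *
    generalize 2 * g2 h (2 * u) + g2 h u = G at *
    obtain ⟨E, hE⟩ : ∃ E, E = 8 + 4 * (x + y) * w + x * y * (2 * w ^ 2 + G) := ⟨_, rfl⟩
    obtain ⟨E', hE'⟩ : ∃ E', E' = 8 + 4 * (x + y) * (w + α - β) +
      x * y * (2 * (w + α - β) ^ 2 + (G + 2 * α ^ 2 + 6 * β ^ 2)) := ⟨_, rfl⟩
    rw [← hE, ← hE'] at hk
    rw [← hE] at ih
    rw [← hE']
    have f1 : (2 * (u : T) + 2 + x + y) = (2 * u + 2) * (1 + β * (x + y)) := by
      linear_combination (-(x + y)) * hb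
    have f2 : (2 * (2 * (u : T)) + 2 + x + y) = (2 * u + 1) * (2 + α * (x + y)) := by
      linear_combination (-(x + y)) * ha
    have f3 : (2 * (u : T) + 1 + x) = (2 * u + 1) * (1 + α * x) := by
      linear_combination (-x) * ha
    have f4 : (2 * (u : T) + 1 + y) = (2 * u + 1) * (1 + α * y) := by
      linear_combination (-y) * ha
    have f5 : (2 * (2 * (u : T)) + 4 + x + y) = (2 * u + 2) * (2 + β * (x + y)) := by
      linear_combination (-(x + y)) * hb
    have f6 : (2 * (u : T) + 1) * ((2 * (u : T) + 2 + x + y) * (2 * (2 * (u : T)) + 2 + x + y)) * E' =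
        (2 * (u : T) + 1 + x) * (2 * (u : T) + 1 + y) * (2 * (2 * (u : T)) + 4 + x + y) * E := by
      rw [f1, f2, f3, f4, f5]
      linear_combination (2 * (u : T) + 1) ^ 2 * (2 * u + 2) * hk
    refine (v1.mul v2).mul_left_cancel ?_
    rw [show 2 * (u + 1) = 2 * u + 2 by ring] at e3 ⊢
    linear_combination 8 * hJ - 4 * (2 * (u : T) + 1) * (2 * (u : T) + 1 + x) *
        (2 * (u : T) + 1 + y) * (2 * (2 * (u : T)) + 4 + x + y) * ih +
      (-1) ^ u * ((2 * (u : T) + 2 + x + y) * (2 * (2 * (u : T)) + 2 + x + y)) * E' * e3 +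
      4 * (2 * (u : T) + 1) * ((2 * u).factorial : T) * (-1) ^ u * cb T u * f6

end Gen

theorem two_eps (R : Type) [CommRing R] : ∃ (T : Type) (_ : CommRing T) (j : R →+* T) (x y : T),
    x ^ 2 = 0 ∧ y ^ 2 = 0 ∧ ∀ r0 r1 r2 r3 : R,
      j r0 + x * j r1 + y * j r2 + x * y * j r3 = 0 → r3 = 0 := by
  refine ⟨DualNumber (DualNumber R), inferInstance,
    (algebraMap (DualNumber R) _).comp (algebraMap R (DualNumber R)), DualNumber.eps,
    algebraMap (DualNumber R) _ DualNumber.eps, DualNumber.eps_pow_two, ?_, ?_⟩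
  · rw [← map_pow, DualNumber.eps_pow_two, map_zero]
  · intro r0 r1 r2 r3 e
    have := congrArg (fun z : DualNumber (DualNumber R) => z.snd.snd) e
    simpa [TrivSqZeroExt.algebraMap_eq_inl] using this

end HID2x

open HID2x in
theorem hid2 (h1 : S_JAC) : S_HID2 := by
  intro R _ p h H u hu
  obtain ⟨T, _, j, x, y, hx, hy, hj⟩ := two_eps R
  have H' : Harm p fun i => j (h i) := ⟨by simp [H.1], fun i hi => by
    simpa using congrArg j (H.2 i hi)⟩
  have h2 := closed h1 H' hx hy u hu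
  rw [U_eq H' hx hy hu, mul_left_comm] at h2
  have h3 := (LUCx.ufac H' (2 * u) hu).mul_left_cancel h2
  rw [← sub_eq_zero]
  refine hj (8 * ∑ i ∈ range (2 * u + 1), (-1) ^ i * ((2 * u).choose i : R) ^ 2 -
      (-1) ^ u * cb R u * 8)
    (8 * ∑ i ∈ range (2 * u + 1), (-1) ^ i * ((2 * u).choose i : R) ^ 2 *
      (h (2 * u) - h (2 * u - i)) - (-1) ^ u * cb R u * (4 * (h (2 * u) - h u)))
    (8 * ∑ i ∈ range (2 * u + 1), (-1) ^ i * ((2 * u).choose i : R) ^ 2 *
      (h (2 * u) - h i) - (-1) ^ u * cb R u * (4 * (h (2 * u) - h u))) _ ?_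
  have hg : ∀ m, j (g2 h m) = g2 (fun i => j (h i)) m := fun m => by simp [g2]
  have hc : j (cb R u) = cb T u := by simp [cb]
  simp only [map_sub, map_mul, map_add, map_sum, map_pow, map_neg, map_one, map_natCast, map_ofNat,
    hg, hc]
  have h4 : ∑ i ∈ range (2 * u + 1), (-1) ^ i * ((2 * u).choose i : T) ^ 2 *
      ((1 + x * (j (h (2 * u)) - j (h (2 * u - i)))) * (1 + y * (j (h (2 * u)) - j (h i)))) =
      ∑ i ∈ range (2 * u + 1), (-1) ^ i * ((2 * u).choose i : T) ^ 2 +
      x * ∑ i ∈ range (2 * u + 1), (-1) ^ i * ((2 * u).choose i : T) ^ 2 *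
        (j (h (2 * u)) - j (h (2 * u - i))) +
      y * ∑ i ∈ range (2 * u + 1), (-1) ^ i * ((2 * u).choose i : T) ^ 2 *
        (j (h (2 * u)) - j (h i)) +
      x * y * ∑ i ∈ range (2 * u + 1), (-1) ^ i * ((2 * u).choose i : T) ^ 2 *
        ((j (h (2 * u)) - j (h i)) * (j (h (2 * u)) - j (h (2 * u - i)))) := by
    simp only [mul_sum, ← sum_add_distrib]
    exact sum_congr rfl fun i _ => by ring
  rw [h4] at h3
  linear_combination h3

end Pool.Agent.MP_552068_nt
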