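import Pool.Agent.MP_552068_nt.Spec

/-! The invariant quadratic form on the moments. -/

set_option autoImplicit false

namespace Pool.Agent.MP_552068_nt

open Finset

namespace INVx

variable {R : Type} [CommRing R]

/-- first family of terms -/
def A (ε : R) (c d : ℕ → R) (x : ℕ × ℕ) : R :=
  c x.1 * d x.2 * ((x.1 : R) ^ 2 - x.1 * (x.2 + ε) + (x.2 + ε) ^ 2)

/-- second family of terms -/
def B (ε : R) (c d : ℕ → R) (x : ℕ × ℕ) : R :=
  c x.1 * d x.2 * ((2 * (x.1 : R) + 1) ^ 2 - (2 * x.1 + 1) * (2 * x.2 + 1 + 2 * ε) +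
    (2 * x.2 + 1 + 2 * ε) ^ 2)

theorem step (ε : R) (hε : ε ^ 2 = 0) (c d : ℕ → R)
    (hc : ∀ t : ℕ, ((t : R) + 1) ^ 3 * c (t + 1) = 8 * (2 * t + 1) ^ 3 * c t)
    (hd : ∀ t : ℕ, ((t : R) + 1 + ε) ^ 3 * d (t + 1) = 8 * (2 * t + 1 + 2 * ε) ^ 3 * d t) (k : ℕ) :
    ((k : R) + 1 + ε) * ∑ x ∈ antidiagonal (k + 1), A ε c d x =
      ((k : R) + 1 + ε) * (16 * ∑ x ∈ antidiagonal k, B ε c d x) := by
  have h1 : ((k : R) + 1 + ε) * ∑ x ∈ antidiagonal (k + 1), A ε c d x =
      ∑ x ∈ antidiagonal (k + 1), ((x.1 : R) ^ 3 * c x.1) * d x.2 +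
        ∑ x ∈ antidiagonal (k + 1), c x.1 * (((x.2 : R) + ε) ^ 3 * d x.2) := by
    rw [mul_sum, ← sum_add_distrib]
    refine sum_congr rfl fun x hx => ?_
    have e : ((k : R) + 1) = x.1 + x.2 := by
      rw [← Nat.cast_add, mem_antidiagonal.1 hx, Nat.cast_succ]
    rw [e, A]; ring
  have h3 : ε ^ 3 = 0 := by rw [pow_succ, hε, zero_mul]
  rw [h1, Nat.sum_antidiagonal_succ (f := fun x => ((x.1 : R) ^ 3 * c x.1) * d x.2),
    Nat.sum_antidiagonal_succ' (f := fun x => c x.1 * (((x.2 : R) + ε) ^ 3 * d x.2))]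
  simp only [Nat.cast_zero, zero_add, h3, Nat.cast_succ, hc, hd, zero_mul, mul_zero,
    zero_pow three_ne_zero]
  rw [mul_sum, mul_sum, ← sum_add_distrib]
  refine sum_congr rfl fun x hx => ?_
  have e : (k : R) = x.1 + x.2 := by rw [← Nat.cast_add, mem_antidiagonal.1 hx]
  rw [e, B]; ring

theorem box (n : ℕ) (f : ℕ × ℕ → R) (h : ∀ x : ℕ × ℕ, n < x.1 ∨ n < x.2 → f x = 0) :
    ∑ k ∈ range (2 * n + 1), ∑ x ∈ antidiagonal k, f x =
      ∑ s ∈ range (n + 1), ∑ t ∈ range (n + 1), f (s, t) := by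
  rw [← sum_product' (f := fun s t => f (s, t)),
    ← sum_fiberwise_of_maps_to (s := range (n + 1) ×ˢ range (n + 1)) (t := range (2 * n + 1))
      (g := fun x => x.1 + x.2) (fun x hx => by
        simp only [mem_product, mem_range] at hx ⊢
        omega)]
  refine sum_congr rfl fun k _ => (sum_subset (fun x hx => ?_) fun x hx hx' => h x ?_).symm
  · exact mem_antidiagonal.2 (mem_filter.1 hx).2
  · have hk := mem_antidiagonal.1 hx
    simp only [mem_filter, mem_product, mem_range] at hx'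
    omega

/-- extension by zero -/
def ex (n : ℕ) (c : ℕ → R) (t : ℕ) : R := if t ≤ n then c t else 0

theorem ex_rec (n : ℕ) (c u v : ℕ → R) (h : ∀ t < n, u t * c (t + 1) = v t * c t) (h0 : v n = 0)
    (t : ℕ) : u t * ex n c (t + 1) = v t * ex n c t := by
  unfold ex
  rcases lt_trichotomy t n with a | a | a
  · rw [if_pos (by omega), if_pos a.le, h t a]
  · rw [if_neg (by omega), a, h0, zero_mul, mul_zero]
  · rw [if_neg (by omega), if_neg (by omega), mul_zero, mul_zero]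

theorem ex_out (n : ℕ) (c d : ℕ → R) (x : ℕ × ℕ) (h : n < x.1 ∨ n < x.2) :
    ex n c x.1 * ex n d x.2 = 0 := by
  unfold ex
  rcases h with h | h
  · rw [if_neg (not_le.2 h), zero_mul]
  · rw [if_neg (not_le.2 h), mul_zero]

end INVx

open INVx in
theorem inv : S_INV := by
  intro R _ p n h c d e H hp hn hc hd
  have hn' : 2 * (n : R) + 1 = p := by rw [← hn]; push_cast; ring
  have hε : ((p : R) * e) ^ 2 = 0 := by rw [mul_pow, hp, zero_mul]
  have hc' := ex_rec n c (fun t => ((t : R) + 1) ^ 3) (fun t => 8 * (2 * t + 1) ^ 3) hc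
    (by simp only [hn']; linear_combination (8 * p) * hp)
  have hd' := ex_rec n d (fun t => ((t : R) + 1 + p * e) ^ 3)
    (fun t => 8 * (2 * t + 1 + 2 * (p * e)) ^ 3) hd
    (by simp only [hn']; linear_combination (8 * p * (1 + 2 * e) ^ 3) * hp)
  have hA : ∀ x : ℕ × ℕ, n < x.1 ∨ n < x.2 → A (p * e) (ex n c) (ex n d) x = 0 := fun x hx => by
    rw [A, ex_out n c d x hx, zero_mul]
  have hB : ∀ x : ℕ × ℕ, n < x.1 ∨ n < x.2 → B (p * e) (ex n c) (ex n d) x = 0 := fun x hx => by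
    rw [B, ex_out n c d x hx, zero_mul]
  have key : ∀ k ∈ range (2 * n), ∑ x ∈ antidiagonal (k + 1), A (p * e) (ex n c) (ex n d) x =
      16 * ∑ x ∈ antidiagonal k, B (p * e) (ex n c) (ex n d) x := fun k hk => by
    have u : IsUnit ((k + 1 : ℕ) : R) := H.unit (by omega) (by have := mem_range.1 hk; omega)
    have u2 : IsUnit (((k : R) + 1 + p * e) * ((k : R) + 1 - p * e)) := by
      have : ((k : R) + 1 + p * e) * ((k : R) + 1 - p * e) = ((k + 1 : ℕ) : R) ^ 2 := by
        push_cast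
        linear_combination -hε
      rw [this]
      exact u.pow 2
    exact (isUnit_of_mul_isUnit_left u2).mul_left_cancel (step _ hε _ _ hc' hd' k)
  have a0 : ∑ x ∈ antidiagonal 0, A (p * e) (ex n c) (ex n d) x = 0 := by
    rw [Nat.antidiagonal_zero, sum_singleton, A]
    simp only [Nat.cast_zero]
    linear_combination (ex n c 0 * ex n d 0) * hε
  have b0 : ∑ x ∈ antidiagonal (2 * n), B (p * e) (ex n c) (ex n d) x = 0 := by
    refine sum_eq_zero fun x hx => ?_
    have hx' := mem_antidiagonal.1 hx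
    by_cases o : n < x.1 ∨ n < x.2
    · exact hB x o
    have e1 : x.1 = n := by omega
    have e2 : x.2 = n := by omega
    rw [B, e1, e2, hn']
    linear_combination (ex n c n * ex n d n * (1 - (1 + 2 * e) + (1 + 2 * e) ^ 2)) * hp
  have tot : ∑ k ∈ range (2 * n + 1), ∑ x ∈ antidiagonal k, A (p * e) (ex n c) (ex n d) x =
      16 * ∑ k ∈ range (2 * n + 1), ∑ x ∈ antidiagonal k, B (p * e) (ex n c) (ex n d) x := by
    rw [sum_range_succ', sum_range_succ, a0, b0, add_zero, add_zero, sum_congr rfl key, mul_sum]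
  rw [box n _ hA, box n _ hB, eq_comm, ← sub_eq_zero, mul_sum, ← sum_sub_distrib] at tot
  refine Eq.trans ?_ tot
  simp only [mo]
  rw [mul_comm (∑ t ∈ range (n + 1), ((t : R) + p * e) ^ 0 * d t),
    mul_comm (∑ t ∈ range (n + 1), ((t : R) + p * e) ^ 0 * d t), mul_assoc (16 : R)]
  simp only [sum_mul_sum]
  simp only [mul_sum, ← sum_sub_distrib, ← sum_add_distrib]
  refine sum_congr rfl fun s hs => sum_congr rfl fun t ht => ?_
  simp only [A, B, ex, if_pos (Nat.lt_succ_iff.1 (mem_range.1 hs)),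
    if_pos (Nat.lt_succ_iff.1 (mem_range.1 ht))]
  ring

end Pool.Agent.MP_552068_nt
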