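import Pool.Agent.MP_552068_nt.Spec2
import Pool.Agent.MP_552068_nt.INV

/-! The invariant quadratic form on the moments, to second order in the deformation. -/

set_option autoImplicit false

namespace Pool.Agent.MP_552068_nt

open Finset

namespace INV2x

open INVx

variable {R : Type} [CommRing R]

theorem step (ε : R) (h3 : ε ^ 3 = 0) (c d : ℕ → R)
    (hc : ∀ t : ℕ, ((t : R) + 1) ^ 3 * c (t + 1) = 8 * (2 * t + 1) ^ 3 * c t)
    (hd : ∀ t : ℕ, ((t : R) + 1 + ε) ^ 3 * d (t + 1) = 8 * (2 * t + 1 + 2 * ε) ^ 3 * d t) (k : ℕ) :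
    ((k : R) + 1 + ε) * ∑ x ∈ antidiagonal (k + 1), A ε c d x =
      ((k : R) + 1 + ε) * (16 * ∑ x ∈ antidiagonal k, B ε c d x) := by
  have h1 : ((k : R) + 1 + ε) * ∑ x ∈ antidiagonal (k + 1), A ε c d x =
      ∑ x ∈ antidiagonal (k + 1), ((x.1 : R) ^ 3 * c x.1) * d x.2 +
        ∑ x ∈ antidiagonal (k + 1), c x.1 * (((x.2 : R) + ε) ^ 3 * d x.2) := by
    rw [mul_sum, ← sum_add_distrib]
    refine sum_congr rfl fun x hx => ?_
    have e : ((k : R) + 1) = x.1 + x.2 := by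
      rw [← Nat.cast_add, mem_antidiagonal.1 hx, Nat.cast_succ]
    rw [e, A]; ring
  rw [h1, Nat.sum_antidiagonal_succ (f := fun x => ((x.1 : R) ^ 3 * c x.1) * d x.2),
    Nat.sum_antidiagonal_succ' (f := fun x => c x.1 * (((x.2 : R) + ε) ^ 3 * d x.2))]
  simp only [Nat.cast_zero, zero_add, h3, Nat.cast_succ, hc, hd, zero_mul, mul_zero,
    zero_pow three_ne_zero]
  rw [mul_sum, mul_sum, ← sum_add_distrib]
  refine sum_congr rfl fun x hx => ?_
  have e : (k : R) = x.1 + x.2 := by rw [← Nat.cast_add, mem_antidiagonal.1 hx]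
  rw [e, B]; ring

end INV2x

open INVx in
theorem inv2 : S_INV2 := by
  intro R _ p n h c d ε H hp hε hn hc hd
  have hn' : 2 * (n : R) + 1 = 0 := by rw [← hp, ← hn]; push_cast; ring
  have hc' := ex_rec n c (fun t => ((t : R) + 1) ^ 3) (fun t => 8 * (2 * t + 1) ^ 3) hc
    (by simp only [hn']; ring)
  have hd' := ex_rec n d (fun t => ((t : R) + 1 + ε) ^ 3)
    (fun t => 8 * (2 * t + 1 + 2 * ε) ^ 3) hd
    (by simp only [hn']; linear_combination 64 * hε)
  have hA : ∀ x : ℕ × ℕ, n < x.1 ∨ n < x.2 → A ε (ex n c) (ex n d) x = 0 := fun x hx => by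
    rw [A, ex_out n c d x hx, zero_mul]
  have hB : ∀ x : ℕ × ℕ, n < x.1 ∨ n < x.2 → B ε (ex n c) (ex n d) x = 0 := fun x hx => by
    rw [B, ex_out n c d x hx, zero_mul]
  have key : ∀ k ∈ range (2 * n), ∑ x ∈ antidiagonal (k + 1), A ε (ex n c) (ex n d) x =
      16 * ∑ x ∈ antidiagonal k, B ε (ex n c) (ex n d) x := fun k hk => by
    have u : IsUnit ((k + 1 : ℕ) : R) := H.unit (by omega) (by have := mem_range.1 hk; omega)
    have u2 : IsUnit (((k : R) + 1 + ε) * (((k : R) + 1) ^ 2 - ((k : R) + 1) * ε + ε ^ 2)) := by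
      have : ((k : R) + 1 + ε) * (((k : R) + 1) ^ 2 - ((k : R) + 1) * ε + ε ^ 2) =
          ((k + 1 : ℕ) : R) ^ 3 := by
        push_cast
        linear_combination hε
      rw [this]
      exact u.pow 3
    exact (isUnit_of_mul_isUnit_left u2).mul_left_cancel (INV2x.step _ hε _ _ hc' hd' k)
  have a0 : ∑ x ∈ antidiagonal 0, A ε (ex n c) (ex n d) x = ε ^ 2 * (c 0 * d 0) := by
    rw [Nat.antidiagonal_zero, sum_singleton, A]
    simp only [Nat.cast_zero, ex, if_pos (Nat.zero_le n)]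
    ring
  have b0 : ∑ x ∈ antidiagonal (2 * n), B ε (ex n c) (ex n d) x = 4 * ε ^ 2 * (c n * d n) := by
    rw [sum_eq_single_of_mem (n, n) (mem_antidiagonal.2 (two_mul n).symm) fun x hx ne => ?_]
    · rw [B]
      simp only [hn', ex, if_pos (le_refl n)]
      ring
    · have hx' := mem_antidiagonal.1 hx
      refine hB x ?_
      by_contra o
      exact ne (Prod.ext (by simp only; omega) (by simp only; omega))
  have tot : 16 * ∑ k ∈ range (2 * n + 1), ∑ x ∈ antidiagonal k, B ε (ex n c) (ex n d) x -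
      ∑ k ∈ range (2 * n + 1), ∑ x ∈ antidiagonal k, A ε (ex n c) (ex n d) x =
      ε ^ 2 * (64 * c n * d n - c 0 * d 0) := by
    rw [sum_range_succ' (fun k => ∑ x ∈ antidiagonal k, A ε (ex n c) (ex n d) x),
      sum_range_succ (fun k => ∑ x ∈ antidiagonal k, B ε (ex n c) (ex n d) x), a0, b0,
      sum_congr rfl key, ← mul_sum]
    ring
  rw [box n _ hA, box n _ hB, mul_sum, ← sum_sub_distrib] at tot
  refine Eq.trans ?_ tot
  simp only [mo]
  rw [mul_comm (∑ t ∈ range (n + 1), ((t : R) + ε) ^ 0 * d t),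
    mul_comm (∑ t ∈ range (n + 1), ((t : R) + ε) ^ 0 * d t), mul_assoc (16 : R)]
  simp only [sum_mul_sum]
  simp only [mul_sum, ← sum_sub_distrib, ← sum_add_distrib]
  refine sum_congr rfl fun s hs => sum_congr rfl fun t ht => ?_
  simp only [A, B, ex, if_pos (Nat.lt_succ_iff.1 (mem_range.1 hs)),
    if_pos (Nat.lt_succ_iff.1 (mem_range.1 ht))]
  ring

end Pool.Agent.MP_552068_nt
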