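import Pool.Agent.MP_552068_nt.Spec2

/-! Row JAC: the three-term recurrence at the centre. -/

set_option autoImplicit false

namespace Pool.Agent.MP_552068_nt

open Finset

namespace JACx

variable {R : Type} [CommRing R]

/-- coefficients of the product of two binomial series -/
def B (a b : R) (n : ℕ) : R :=
  ∑ i ∈ range (n + 1), (n.choose i : R) * ((-1) ^ i * ds a i * ds b (n - i))

theorem ds_succ (a : R) (i : ℕ) : ds a (i + 1) = a * ds (a - 1) i := by
  unfold ds
  rw [prod_range_succ', Nat.cast_zero, sub_zero, mul_comm]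
  congr 1
  exact prod_congr rfl fun k _ => by push_cast; ring

theorem B_zero (a b : R) : B a b 0 = 1 := by simp [B, ds]

theorem BD (a b : R) (n : ℕ) : B a b (n + 1) = b * B a (b - 1) n - a * B (a - 1) b n := by
  unfold B
  rw [sum_choose_succ_mul (fun i j => (-1) ^ i * ds a i * ds b j) n, mul_sum, mul_sum,
    ← sum_add_distrib, ← sum_sub_distrib]
  refine sum_congr rfl fun i hi => ?_
  have h : n + 1 - i = n - i + 1 := by have := mem_range.1 hi; omega
  rw [h, ds_succ, ds_succ]
  ring

theorem BL (n : ℕ) : ∀ a b : R, B (a + 1) b (n + 1) = B a b (n + 1) - (n + 1) * B a b n := by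
  induction n with
  | zero => intro a b; simp only [BD, B_zero]; push_cast; ring
  | succ n ih =>
    intro a b
    have h1 := BD (a + 1) b (n + 1)
    have h2 := ih a (b - 1)
    have h3 := BD a b (n + 1)
    have h4 := ih (a - 1) b
    have h5 := BD a b n
    rw [add_sub_cancel_right] at h1
    rw [sub_add_cancel] at h4
    push_cast
    linear_combination h1 + b * h2 - h3 - a * h4 + (n + 1) * h5

theorem BR (n : ℕ) : ∀ a b : R, B a (b + 1) (n + 1) = B a b (n + 1) + (n + 1) * B a b n := by
  induction n with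
  | zero => intro a b; simp only [BD, B_zero]; push_cast; ring
  | succ n ih =>
    intro a b
    have h1 := BD a (b + 1) (n + 1)
    have h2 := ih (a - 1) b
    have h3 := BD a b (n + 1)
    have h4 := ih a (b - 1)
    have h5 := BD a b n
    rw [add_sub_cancel_right] at h1
    rw [sub_add_cancel] at h4
    push_cast
    linear_combination h1 - a * h2 - h3 + b * h4 - (n + 1) * h5

theorem BS (a b : R) (k : ℕ) :
    B (a + 1) (b + 1) (k + 2) = B a b (k + 2) - (k + 2) * (k + 1) * B a b k := by
  have h1 := BL (k + 1) a (b + 1)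
  have h2 := BR (k + 1) a b
  have h3 := BR k a b
  push_cast at h1 h2
  linear_combination h1 + h2 - (k + 2) * h3

theorem ode (a b : R) (n : ℕ) :
    B a b (n + 2) = (b - a) * B a b (n + 1) + (n + 1) * (n - a - b) * B a b n := by
  cases n with
  | zero => simp only [BD, B_zero]; push_cast; ring
  | succ k =>
    have h1 := BD a b (k + 2)
    have h2 := BD a b k
    have h3 := BR (k + 1) a (b - 1)
    have h4 := BR k a (b - 1)
    have h5 := BL (k + 1) (a - 1) b
    have h6 := BL k (a - 1) b
    rw [sub_add_cancel] at h3 h4 h5 h6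
    push_cast at h3 h5 ⊢
    linear_combination h1 - (k + 2) * (k + 1) * h2 - b * h3 + b * (k + 2) * h4 + a * h5 +
      a * (k + 2) * h6

theorem U_eq (x y : R) (n : ℕ) : U x y n = B (n + x) (n + y) n :=
  sum_congr rfl fun i _ => by ring

end JACx

open JACx in
theorem jac : S_JAC := by
  intro R _ x y h n
  rw [U_eq, U_eq]
  rcases n with _ | _ | m
  · simp only [BD, B_zero]
    push_cast
    linear_combination (-(3 + x + y) * (y - x)) * h
  · simp only [BD, B_zero]
    push_cast
    linear_combination (-(5 + x + y) *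
      ((2 + y) * (1 + y) - 2 * (2 + x) * (2 + y) + (2 + x) * (1 + x))) * h
  · have e1 : (((m + 1 + 1 + 2 : ℕ) : R) + x) = ((m + 1 + 1 : ℕ) : R) + x + 1 + 1 := by
      push_cast; ring
    have e2 : (((m + 1 + 1 + 2 : ℕ) : R) + y) = ((m + 1 + 1 : ℕ) : R) + y + 1 + 1 := by
      push_cast; ring
    rw [e1, e2, BS, BS, BS, ode _ _ (m + 1 + 1), ode _ _ (m + 1)]
    have e := ode (((m + 1 + 1 : ℕ) : R) + x) (((m + 1 + 1 : ℕ) : R) + y) m
    generalize B (((m + 1 + 1 : ℕ) : R) + x) (((m + 1 + 1 : ℕ) : R) + y) (m + 2) = b2 at e ⊢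
    generalize B (((m + 1 + 1 : ℕ) : R) + x) (((m + 1 + 1 : ℕ) : R) + y) (m + 1) = b1 at e ⊢
    generalize B (((m + 1 + 1 : ℕ) : R) + x) (((m + 1 + 1 : ℕ) : R) + y) m = b0 at e ⊢
    push_cast at e ⊢
    linear_combination ((2 * m + 6 + x + y) * (m + 4) * (m + 3) * (m + 2)) * e -
      ((2 * m + 7 + x + y) * ((y - x) * b2 - (m + 2) * (2 * m + 6 + x + y) * b1)) * h

end Pool.Agent.MP_552068_nt
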