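import Pool.Agent.MP_552068_nt.Spec

/-! Project BL, row LAN: the quadratic transformation of the Legendre type sum. -/

set_option autoImplicit false

namespace Pool.Agent.MP_552068_nt

open Finset

namespace LANx

open Polynomial

theorem exact {K : Type} [CommRing K] (n : ℕ) (z : K) :
    ∑ t ∈ range (n + 1), (n.choose t : K) ^ 2 * (z ^ 2) ^ t =
      ∑ t ∈ range (n + 1), (n.choose t : K) * ((2 * t).choose t : K) * (-z) ^ t *
        ((1 + z) ^ 2) ^ (n - t) := by
  have e : ((1 + X : K[X]) ^ n).comp (C z * X) * (X + C z) ^ n =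
      (C z * (X + C (-1)) ^ 2 + C ((1 + z) ^ 2) * X) ^ n := by
    rw [pow_comp, add_comp, one_comp, X_comp, ← mul_pow]
    congr 1
    simp only [map_neg, map_one, map_pow, map_add]
    ring
  have f := congrArg (fun P : K[X] => P.coeff n) e
  rw [coeff_mul, Finset.Nat.sum_antidiagonal_eq_sum_range_succ_mk, add_pow (C z * (X + C (-1)) ^ 2),
    finsetSum_coeff] at f
  refine Eq.trans (sum_congr rfl fun t ht => ?_) (f.trans (sum_congr rfl fun t ht => ?_))
  · have l : t ≤ n := Nat.lt_succ_iff.1 (mem_range.1 ht)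
    rw [comp_C_mul_X_coeff, coeff_one_add_X_pow, coeff_X_add_C_pow, Nat.sub_sub_self l,
      Nat.choose_symm l]
    ring
  · have l : t ≤ n := Nat.lt_succ_iff.1 (mem_range.1 ht)
    have g : (C z * (X + C (-1)) ^ 2) ^ t * (C ((1 + z) ^ 2) * X) ^ (n - t) * (n.choose t : K[X]) =
        C (z ^ t * ((1 + z) ^ 2) ^ (n - t) * n.choose t) * ((X + C (-1)) ^ (2 * t) * X ^ (n - t)) := by
      simp only [map_mul, map_pow, map_natCast, mul_pow, pow_mul]
      ring
    have k := coeff_mul_X_pow ((X + C (-1) : K[X]) ^ (2 * t)) (n - t) t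
    rw [Nat.add_sub_cancel' l] at k
    rw [g, coeff_C_mul, k, coeff_X_add_C_pow, show 2 * t - t = t by omega, neg_pow z]
    ring

theorem cen {K : Type} [Field K] (p n : ℕ) [CharP K p] (h : 2 * n + 1 = p) (t : ℕ) (ht : t ≤ n) :
    ((2 * t).choose t : K) = (-4) ^ t * (n.choose t : K) := by
  induction t with
  | zero => simp
  | succ t ih =>
    have a : ((t + 1 : ℕ) : K) ≠ 0 := fun b =>
      absurd (Nat.le_of_dvd (by omega) ((CharP.cast_eq_zero_iff K p _).1 b)) (by omega)
    have b := congrArg (Nat.cast : ℕ → K) (Nat.succ_mul_centralBinom_succ t)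
    have c := congrArg (Nat.cast : ℕ → K) (Nat.choose_succ_right_eq n t)
    have d : (2 * n + 1 : K) = 0 := by
      have := CharP.cast_eq_zero K p
      rw [← h] at this
      exact_mod_cast this
    have i := ih (by omega)
    rw [Nat.centralBinom_eq_two_mul_choose, Nat.centralBinom_eq_two_mul_choose] at b
    push_cast [Nat.cast_sub (show t ≤ n by omega)] at a b c
    refine mul_left_cancel₀ a ?_
    rw [b, i, pow_succ]
    linear_combination (4 * (-4) ^ t) * c + (2 * (-4) ^ t * (n.choose t : K)) * d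

end LANx

theorem lan : S_LAN := by
  intro K _ p n _ _ h z w e
  rw [LANx.exact, mul_sum]
  refine sum_congr rfl fun t ht => ?_
  have l : t ≤ n := Nat.lt_succ_iff.1 (mem_range.1 ht)
  have a : (1 + z) ^ (2 * n) = ((1 + z) ^ 2) ^ (n - t) * ((1 + z) ^ 2) ^ t := by
    rw [← pow_add, Nat.sub_add_cancel l, pow_mul]
  have b : ((1 + z) ^ 2) ^ t * w ^ t = (-4) ^ t * (-z) ^ t := by
    rw [← mul_pow, ← mul_pow, e]
    congr 1
    ring
  rw [LANx.cen p n h t l, a]
  linear_combination (-((n.choose t : K) ^ 2 * ((1 + z) ^ 2) ^ (n - t))) * b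

end Pool.Agent.MP_552068_nt
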