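import Pool.Agent.MP_552068_nt.Spec2
import Pool.Agent.MP_552068_nt.BLK

/-! Project B3: the low order coefficients of a block are divisible by the square of the prime. -/

set_option autoImplicit false

namespace Pool.Agent.MP_552068_nt

open Finset

namespace LOWx

theorem M_r0 (k : ℕ) : M k 0 = 1 := by simp [M]

theorem lift (h1 : S_LUM) {R : Type} [CommRing R] {p : ℕ} (hp : p.Prime) (A c : ℕ) :
    ∃ k : R, (M (p * A) (p * c) : R) = M A c + p * k := by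
  have a := h1 p A c 0 0 hp hp.pos hp.pos
  rw [add_zero, add_zero, M_r0, mul_one] at a
  obtain ⟨k, hk⟩ := (Nat.modEq_iff_dvd.1 a.symm)
  refine ⟨(k : R), ?_⟩
  have := congrArg (Int.cast : ℤ → R) hk
  push_cast at this
  linear_combination this

theorem unit (h1 : S_LUM) {p : ℕ} (hp : p.Prime) (h2 : p ≠ 2) :
    IsUnit (M (p * 2) (p * 1) : ZMod (p ^ 3)) := by
  have a := h1 p 2 1 0 0 hp hp.pos hp.pos
  have e : M 2 1 = 2 := by simp [M]
  rw [add_zero, add_zero, M_r0, e, mul_one 2] at a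
  rw [ZMod.isUnit_iff_coprime]
  refine Nat.Coprime.pow_right 3 ?_
  have c2 : Nat.Coprime 2 p := (Nat.coprime_primes Nat.prime_two hp).2 h2.symm
  unfold Nat.Coprime at c2 ⊢
  rw [a.gcd_eq, c2]

theorem I_zero {p A c : ℕ} (hA : A < 2 * c) : I p A c = 0 :=
  sum_eq_zero fun r hr => sum_eq_zero fun t _ => by
    have := mem_range.1 hr
    have : p * (A + 1) ≤ p * (2 * c) := Nat.mul_le_mul_left p hA
    rw [BLKx.M_zero (by nlinarith)]
    simp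

end LOWx

theorem low (h1 : S_LUM) : S_LOW := by
  intro p z0 z1 z2 q3 q4 q5 hp h2 H hd
  have h0 : (p : ZMod (p ^ 3)) ^ 3 = 0 := by
    rw [← Nat.cast_pow, ZMod.natCast_self]
  have hk : ∀ A c, ∃ k : ZMod (p ^ 3), ((I p A c : ℤ) : ZMod (p ^ 3)) = (p : ZMod (p ^ 3)) ^ 2 * k := by
    intro A c
    obtain ⟨k, hk⟩ := hd A c
    exact ⟨(k : ZMod (p ^ 3)), by rw [hk]; push_cast; rfl⟩
  obtain ⟨a0, e0⟩ : ∃ a : ZMod (p ^ 3), z0 = (p : ZMod (p ^ 3)) ^ 2 * a := by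
    obtain ⟨k, e⟩ := hk (0 + 2 * 0) 0
    have a := H 0 0
    rw [e, Nat.mul_zero p, LOWx.M_r0] at a
    refine ⟨k, ?_⟩
    simp only [qd] at a
    push_cast at a
    linear_combination -a
  obtain ⟨a1, e1⟩ : ∃ a : ZMod (p ^ 3), z1 = (p : ZMod (p ^ 3)) ^ 2 * a := by
    obtain ⟨k, e⟩ := hk (1 + 2 * 0) 0
    have a := H 1 0
    rw [e, Nat.mul_zero p, LOWx.M_r0] at a
    refine ⟨k - a0 - q3, ?_⟩
    simp only [qd] at a
    push_cast at a
    linear_combination -a - e0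
  obtain ⟨a2, e2⟩ : ∃ a : ZMod (p ^ 3), z2 = (p : ZMod (p ^ 3)) ^ 2 * a := by
    obtain ⟨k, e⟩ := hk (0 + 2 * 1) 1
    have a := H 0 1
    obtain ⟨v, hv⟩ := (LOWx.unit h1 hp h2).exists_left_inv
    have e3 : 0 + 2 * 1 = 2 := rfl
    rw [e, e3] at a
    refine ⟨v ^ 2 * k - a0 - 2 * a1 - 4 * q3 - 2 * q4 - q5, ?_⟩
    simp only [qd] at a
    generalize (M (p * 2) (p * 1) : ZMod (p ^ 3)) = m at a hv
    push_cast at a
    linear_combination -v ^ 2 * a - e0 - 2 * e1 -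
      (v * m + 1) * (z0 + 2 * z1 + z2 + (p : ZMod (p ^ 3)) ^ 2 * (4 * q3 + 2 * q4 + q5)) * hv
  obtain ⟨Q0, rfl⟩ := ZMod.intCast_surjective a0
  obtain ⟨Q1, rfl⟩ := ZMod.intCast_surjective a1
  obtain ⟨Q2, rfl⟩ := ZMod.intCast_surjective a2
  obtain ⟨Q3, rfl⟩ := ZMod.intCast_surjective q3
  obtain ⟨Q4, rfl⟩ := ZMod.intCast_surjective q4
  obtain ⟨Q5, rfl⟩ := ZMod.intCast_surjective q5
  refine ⟨Q0, Q1, Q2, Q3, Q4, Q5, rfl, rfl, fun A c => ?_⟩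
  by_cases hA : A < 2 * c
  · rw [LOWx.I_zero hA, BLKx.M_zero hA]
    simp
  obtain ⟨b, rfl⟩ : ∃ b, A = b + 2 * c := ⟨A - 2 * c, by omega⟩
  obtain ⟨k, hk⟩ := LOWx.lift h1 (R := ZMod (p ^ 3)) hp (b + 2 * c) c
  rw [← Nat.cast_pow p 3, ← ZMod.intCast_zmod_eq_zero_iff_dvd, Int.cast_sub, H b c, hk, e0, e1, e2]
  simp only [qd]
  generalize M (b + 2 * c) c = m
  push_cast
  linear_combination (2 * (m : ZMod (p ^ 3)) * k + p * k ^ 2) *
    ((Q0 : ZMod (p ^ 3)) + Q1 * (b + 2 * c) + Q2 * c + Q3 * (b + 2 * c) ^ 2 +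
      Q4 * (b + 2 * c) * c + Q5 * c ^ 2) * h0

end Pool.Agent.MP_552068_nt
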