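import Pool.Agent.MP_552068_nt.Spec2
import Pool.Agent.MP_552068_nt.LUC

/-! Project B3, row LUC3: squares of trinomial coefficients modulo the cube of a prime. -/

set_option autoImplicit false

namespace Pool.Agent.MP_552068_nt

open Finset

namespace LUC3x

variable {R : Type} [CommRing R]

/-- truncated exponential -/
def E (p a G : R) : R := 1 + 2 * p * a + p ^ 2 * (2 * a ^ 2 - G)

theorem E_mul {p : R} (hp : p ^ 3 = 0) (a G b F : R) :
    E p a G * E p b F = E p (a + b) (G + F) := by
  unfold E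
  linear_combination (2 * a * (2 * b ^ 2 - F) + 2 * b * (2 * a ^ 2 - G) +
    p * (2 * a ^ 2 - G) * (2 * b ^ 2 - F)) * hp

theorem E_zero (p : R) : E p 0 0 = 1 := by simp [E]

variable {p : ℕ} {h : ℕ → R}

theorem asc2 (H : Harm p h) (hp : (p : R) ^ 3 = 0) (x m : ℕ) (hm : m < p) :
    (((p * x + 1).ascFactorial m : ℕ) : R) ^ 2 =
      (m.factorial : R) ^ 2 * E (p : R) (x * h m) (x ^ 2 * g2 h m) := by
  induction m with
  | zero => simp [H.1, g2, E]
  | succ m ih =>
    have hv := H.2 m hm
    have e1 : ((p : R) * x + 1 + m) = (m + 1) * (1 + p * (x * (h (m + 1) - h m))) := by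
      linear_combination (-(p * x : R)) * hv
    have e2 : (1 + (p : R) * (x * (h (m + 1) - h m))) ^ 2 =
        E (p : R) (x * (h (m + 1) - h m)) (x ^ 2 * (h (m + 1) - h m) ^ 2) := by
      unfold E
      ring
    have e3 : E (p : R) (x * h (m + 1)) (x ^ 2 * g2 h (m + 1)) =
        E (p : R) (x * h m) (x ^ 2 * g2 h m) *
          E (p : R) (x * (h (m + 1) - h m)) (x ^ 2 * (h (m + 1) - h m) ^ 2) := by
      rw [E_mul hp, g2, sum_range_succ, ← g2]
      congr 1 <;> ring
    rw [Nat.ascFactorial_succ, Nat.factorial_succ]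
    push_cast
    rw [mul_pow, ih (by omega), e1, mul_pow, e2, e3]
    ring

theorem fin {q a A b B g G x y : R} (hp : q ^ 3 = 0)
    (e : x * (E q a A * E q a A * E q b B) = y * E q g G) :
    x = y * E q (g - 2 * a - b) (G - 2 * A - B) := by
  have e1 : E q a A * E q a A * E q b B * E q (-(2 * a + b)) (-(2 * A + B)) = 1 := by
    rw [E_mul hp, E_mul hp, E_mul hp, ← E_zero q]
    congr 1 <;> ring
  have e2 : E q g G * E q (-(2 * a + b)) (-(2 * A + B)) = E q (g - 2 * a - b) (G - 2 * A - B) := by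
    rw [E_mul hp]
    congr 1 <;> ring
  rw [← e2]
  linear_combination (E q (-(2 * a + b)) (-(2 * A + B))) * e - x * e1

end LUC3x

open LUC3x in
theorem luc3 : S_LUC3 := by
  intro R _ p h H hp b c t i hr
  have h1 := congrArg (fun z : ℕ => (z : R) ^ 2) (LUCx.nat (p * b) (p * c) t i)
  rw [show 2 * (p * c) + p * b = p * (b + 2 * c) by ring] at h1
  simp only [Nat.cast_mul, mul_pow] at h1
  rw [asc2 H hp c t (by omega), asc2 H hp b i (by omega), asc2 H hp _ _ hr,
    ← LUCx.mfac t i] at h1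
  have u := (((LUCx.ufac H t (by omega)).mul (LUCx.ufac H t (by omega))).mul
    (LUCx.ufac H i (by omega))).pow 2
  have h2 := fin (q := (p : R)) (a := c * h t) (A := c ^ 2 * g2 h t) (b := b * h i)
    (B := b ^ 2 * g2 h i) (g := (b + 2 * c) * h (2 * t + i))
    (G := (b + 2 * c) ^ 2 * g2 h (2 * t + i))
    (x := (M (p * (b + 2 * c) + (2 * t + i)) (p * c + t) : R) ^ 2)
    (y := (M (p * (b + 2 * c)) (p * c) : R) ^ 2 * (M (2 * t + i) t : R) ^ 2) hp
    (u.mul_left_cancel (by
      push_cast at h1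
      linear_combination h1))
  rw [h2]
  unfold E
  ring

end Pool.Agent.MP_552068_nt
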