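import Pool.Agent.MP_552068_nt.Spec2

/-! Project B3, row LUM: the theorem of Lucas for the trinomial coefficient. -/

namespace Pool.Agent.MP_552068_nt

open Finset

namespace LUMx

theorem luc {p A c r t : ℕ} (hp : p.Prime) (hr : r < p) (ht : t < p) :
    (p * A + r).choose (p * c + t) ≡ r.choose t * A.choose c [MOD p] := by
  have := Fact.mk hp
  have h1 := Choose.choose_modEq_choose_mod_mul_choose_div_nat (n := p * A + r) (k := p * c + t)
    (p := p)
  rwa [Nat.mul_add_mod, Nat.mul_add_mod, Nat.mod_eq_of_lt ht, Nat.mod_eq_of_lt hr,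
    Nat.mul_add_div hp.pos, Nat.mul_add_div hp.pos, Nat.div_eq_of_lt hr, Nat.div_eq_of_lt ht,
    add_zero, add_zero] at h1

end LUMx

theorem lum (h1 : S_CAR) : S_LUM := by
  intro p A c r t hp hr ht
  rcases lt_or_ge r (2 * t) with h | h
  · have e : M r t = 0 := by
      unfold M
      rcases Nat.eq_zero_or_pos t with rfl | h0
      · omega
      rw [Nat.choose_eq_zero_of_lt (n := r - t) (by omega), mul_zero]
    rw [e, mul_zero]
    exact Nat.modEq_zero_iff_dvd.2 (h1 p A c r t hp hr ht h)
  unfold M
  rcases lt_or_ge A c with h2 | h2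
  · have h3 : p * (A + 1) ≤ p * c := Nat.mul_le_mul_left p h2
    rw [mul_add_one] at h3
    rw [Nat.choose_eq_zero_of_lt (show p * A + r < p * c + t by omega),
      Nat.choose_eq_zero_of_lt h2, zero_mul, zero_mul, zero_mul]
  · obtain ⟨B, rfl⟩ := Nat.exists_eq_add_of_le h2
    rw [show p * (c + B) + r - (p * c + t) = p * B + (r - t) by rw [mul_add]; omega,
      Nat.add_sub_cancel_left]
    have a := (LUMx.luc (A := c + B) (c := c) hp hr ht).mul
      (LUMx.luc (A := B) (c := c) (r := r - t) hp (by omega) ht)
    rwa [show r.choose t * (c + B).choose c * ((r - t).choose t * B.choose c) =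
      (c + B).choose c * B.choose c * (r.choose t * (r - t).choose t) by ring] at a

end Pool.Agent.MP_552068_nt
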