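import Pool.Agent.MP_552068_nt.Spec

/-! Project BL, row ROW: one row of a block modulo the square of `p`. -/

set_option autoImplicit false

namespace Pool.Agent.MP_552068_nt

open Finset

namespace ROWx

theorem M_eq (t i : ℕ) : M (2 * t + i) t = (2 * t + i).choose (2 * t) * (2 * t).choose t := by
  unfold M
  rw [Nat.choose_mul (show t ≤ 2 * t by omega), show 2 * t - t = t by omega]

theorem refl_sum {R : Type} [CommRing R] (h : ℕ → R) (u : ℕ) :
    ∑ i ∈ range (2 * u + 1), (-1) ^ i * ((2 * u).choose i : R) ^ 2 * h (2 * u - i) =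
      ∑ i ∈ range (2 * u + 1), (-1) ^ i * ((2 * u).choose i : R) ^ 2 * h i := by
  rw [← sum_range_reflect]
  refine sum_congr rfl fun i hi => ?_
  have hi' : i ≤ 2 * u := by have := mem_range.1 hi; omega
  rw [show 2 * u + 1 - 1 - i = 2 * u - i by omega, show 2 * u - (2 * u - i) = i by omega,
    Nat.choose_symm hi']
  have e : ((-1 : R)) ^ (2 * u - i) = (-1) ^ i := by
    have e1 : ((-1 : R)) ^ (2 * u - i) * (-1) ^ i = 1 := by
      rw [← pow_add, show 2 * u - i + i = 2 * u by omega, pow_mul]; simp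
    have e2 : ((-1 : R)) ^ i * (-1) ^ i = 1 := by
      rw [← pow_add, ← two_mul, pow_mul]; simp
    linear_combination (-1) ^ i * e1 - (-1) ^ (2 * u - i) * e2
  rw [e]

end ROWx

theorem row (h1 : S_HID) (h2 : S_BIN) (h3 : S_REF) : S_ROW := by
  intro R _ p n h κ x y H hp hn t u htu hk
  obtain ⟨hT, hB⟩ := h1 R p h H u (by omega)
  obtain ⟨r1, r2⟩ := h3 R p n h H hp hn
  have hN : (p : R) * h (2 * u) = p * h (2 * t) := r1 _ _ (by omega)
  have hu := r2 t u htu
  have term : ∀ i ∈ range (2 * u + 1),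
      (-1) ^ i * (-16) ^ t * (M (2 * t + i) t : R) ^ 2 *
        (1 + 2 * p * (x * (h (2 * t + i) - h i) + 2 * y * (h i - h t))) =
      (-16) ^ t * cb R t ^ 2 * (1 - 2 * p * h (2 * u) - 4 * p * y * h t) *
          ((-1) ^ i * ((2 * u).choose i : R) ^ 2) +
        (-16) ^ t * cb R t ^ 2 * (2 * p + 2 * p * x) *
          ((-1) ^ i * ((2 * u).choose i : R) ^ 2 * h (2 * u - i)) +
        (-16) ^ t * cb R t ^ 2 * (4 * p * y - 2 * p * x) *
          ((-1) ^ i * ((2 * u).choose i : R) ^ 2 * h i) := by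
    intro i hi
    have hi' : i ≤ 2 * u := by have := mem_range.1 hi; omega
    have b := h2 R p h H hp (2 * t) (2 * u) i (by omega) hi'
    have r : (p : R) * h (2 * t + i) = p * h (2 * u - i) := r1 _ _ (by omega)
    have e2 : ((-1 : R)) ^ i * (-1) ^ i = 1 := by
      rw [← pow_add, ← two_mul, pow_mul]; simp
    have b2 : (((2 * t + i).choose (2 * t) : ℕ) : R) ^ 2 =
        ((2 * u).choose i : R) ^ 2 * (1 - 2 * p * (h (2 * u) - h (2 * u - i))) := by
      rw [b]
      linear_combination (((2 * u).choose i : R) * (1 - p * (h (2 * u) - h (2 * u - i)))) ^ 2 * e2 +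
        ((2 * u).choose i : R) ^ 2 * (h (2 * u) - h (2 * u - i)) ^ 2 * hp
    rw [ROWx.M_eq, Nat.cast_mul, mul_pow, b2]
    unfold cb
    generalize (((2 * t).choose t : ℕ) : R) = c
    generalize (((2 * u).choose i : ℕ) : R) = a
    generalize ((-1 : R)) ^ i = s
    generalize ((-16 : R)) ^ t = w
    linear_combination (s * w * a ^ 2 * c ^ 2 * 2 * x) * r -
      (s * w * a ^ 2 * c ^ 2 * 4 * (h (2 * u) - h (2 * u - i)) *
        (x * (h (2 * t + i) - h i) + 2 * y * (h i - h t))) * hp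
  rw [sum_congr rfl term, sum_add_distrib, sum_add_distrib, ← mul_sum, ← mul_sum, ← mul_sum,
    ROWx.refl_sum, hT]
  unfold df
  generalize (∑ i ∈ range (2 * u + 1), (-1) ^ i * ((2 * u).choose i : R) ^ 2 * h i) = B at hB ⊢
  generalize ((-1 : R)) ^ u * cb R u = T at hB hk ⊢
  generalize ((-16 : R)) ^ t = w at hk ⊢
  generalize cb R t = c at hk ⊢
  linear_combination (w * c ^ 2 * (p + 2 * p * y)) * hB +
    (c ^ 2 * (1 + 6 * p * y * (h (2 * t) - h t) + 2 * p * y * h n)) * hk +
    (w * c ^ 2 * T * 2 * y) * hN + (w * c ^ 2 * T * 2 * y) * hu -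
    (w * c ^ 2 * T * (h u - h (2 * u)) * (6 * y * (h (2 * t) - h t) + 2 * y * h n)) * hp

end Pool.Agent.MP_552068_nt
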