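import Pool.Agent.MP_552068_nt.Spec2
import Pool.Agent.MP_552068_nt.ROW

/-! Project B3, row MOM: moments of one row modulo `p`. -/

set_option autoImplicit false

namespace Pool.Agent.MP_552068_nt

open Finset

namespace MOMx

theorem one (u : ℕ) :
    ∑ i ∈ range (2 * u + 1), (-1) ^ i * ((2 * u).choose i : ℤ) ^ 2 * (i : ℤ) =
    (u : ℤ) * ∑ i ∈ range (2 * u + 1), (-1) ^ i * ((2 * u).choose i : ℤ) ^ 2 := by
  have h := ROWx.refl_sum (fun i : ℕ => (i : ℤ)) u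
  have e : ∑ i ∈ range (2 * u + 1), (-1) ^ i * ((2 * u).choose i : ℤ) ^ 2 * ((2 * u - i : ℕ) : ℤ) =
      2 * ((u : ℤ) * ∑ i ∈ range (2 * u + 1), (-1) ^ i * ((2 * u).choose i : ℤ) ^ 2) -
        ∑ i ∈ range (2 * u + 1), (-1) ^ i * ((2 * u).choose i : ℤ) ^ 2 * (i : ℤ) := by
    rw [← mul_assoc, mul_sum, ← sum_sub_distrib]
    refine sum_congr rfl fun i hi => ?_
    rw [Nat.cast_sub (by have := mem_range.1 hi; omega)]
    push_cast
    ring
  rw [e] at h
  linarith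

theorem odd (v : ℕ) : ∑ j ∈ range (2 * v + 2), (-1) ^ j * ((2 * v + 1).choose j : ℤ) ^ 2 = 0 := by
  have h : ∑ j ∈ range (2 * v + 2), (-1) ^ j * ((2 * v + 1).choose j : ℤ) ^ 2 =
      -∑ j ∈ range (2 * v + 2), (-1) ^ j * ((2 * v + 1).choose j : ℤ) ^ 2 := by
    rw [← sum_neg_distrib, ← sum_range_reflect]
    refine sum_congr rfl fun j hj => ?_
    have hj' : j ≤ 2 * v + 1 := by have := mem_range.1 hj; omega
    rw [show 2 * v + 2 - 1 - j = 2 * v + 1 - j by omega, Nat.choose_symm hj']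
    have e1 : ((-1 : ℤ)) ^ (2 * v + 1 - j) * (-1) ^ j = -1 := by
      rw [← pow_add, show 2 * v + 1 - j + j = 2 * v + 1 by omega, pow_succ, pow_mul]; simp
    have e2 : ((-1 : ℤ)) ^ j * (-1) ^ j = 1 := by
      rw [← pow_add, ← two_mul, pow_mul]; simp
    have e : ((-1 : ℤ)) ^ (2 * v + 1 - j) = -(-1) ^ j := by
      linear_combination (-1) ^ j * e1 - (-1) ^ (2 * v + 1 - j) * e2
    rw [e]
    ring
  linarith

theorem two (u : ℕ) :
    ∑ i ∈ range (2 * u + 1), (-1) ^ i * ((2 * u).choose i : ℤ) ^ 2 * (i : ℤ) ^ 2 = 0 := by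
  rcases u with _ | v
  · simp
  · rw [sum_range_succ', show 2 * (v + 1) = 2 * v + 2 by ring]
    have e : ∀ j ∈ range (2 * v + 2), (-1) ^ (j + 1) * ((2 * v + 2).choose (j + 1) : ℤ) ^ 2 *
        ((j + 1 : ℕ) : ℤ) ^ 2 =
        -(2 * v + 2) ^ 2 * ((-1) ^ j * ((2 * v + 1).choose j : ℤ) ^ 2) := fun j _ => by
      have h : ((2 * v + 1 + 1 : ℕ) : ℤ) * ((2 * v + 1).choose j : ℤ) =
          ((2 * v + 2).choose (j + 1) : ℤ) * ((j + 1 : ℕ) : ℤ) := by
        exact_mod_cast Nat.add_one_mul_choose_eq (2 * v + 1) j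
      rw [mul_assoc, ← mul_pow, ← h, pow_succ]
      push_cast
      ring
    rw [sum_congr rfl e, ← mul_sum, odd]
    simp

end MOMx

theorem mom (h1 : S_HID) (h2 : S_BIN) : S_MOM := by
  intro R _ p n h H hp hn t u htu a0 a1 a2
  obtain ⟨hT, -⟩ := h1 R p h H u (by omega)
  have s1 := congrArg (Int.cast : ℤ → R) (MOMx.one u)
  have s2 := congrArg (Int.cast : ℤ → R) (MOMx.two u)
  push_cast at s1 s2
  have term : ∀ i ∈ range (2 * u + 1), (-1) ^ i * (M (2 * t + i) t : R) ^ 2 *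
      (a0 + a1 * (2 * t + i) + a2 * (2 * t + i) ^ 2) =
      cb R t ^ 2 * (a0 + a1 * (2 * t) + a2 * (4 * t ^ 2)) *
          ((-1) ^ i * ((2 * u).choose i : R) ^ 2) +
        cb R t ^ 2 * (a1 + a2 * (4 * t)) * ((-1) ^ i * ((2 * u).choose i : R) ^ 2 * i) +
        cb R t ^ 2 * a2 * ((-1) ^ i * ((2 * u).choose i : R) ^ 2 * (i : R) ^ 2) := by
    intro i hi
    have hi' : i ≤ 2 * u := by have := mem_range.1 hi; omega
    have b := h2 R p h H (by rw [hp]; simp) (2 * t) (2 * u) i (by omega) hi'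
    have e2 : ((-1 : R)) ^ i * (-1) ^ i = 1 := by
      rw [← pow_add, ← two_mul, pow_mul]; simp
    have b2 : (((2 * t + i).choose (2 * t) : ℕ) : R) ^ 2 = ((2 * u).choose i : R) ^ 2 := by
      rw [b, hp]
      linear_combination ((2 * u).choose i : R) ^ 2 * e2
    rw [ROWx.M_eq, Nat.cast_mul, mul_pow, b2]
    unfold cb
    ring
  rw [sum_congr rfl term, sum_add_distrib, sum_add_distrib, ← mul_sum, ← mul_sum, ← mul_sum, s1, s2,
    hT, ← htu]
  push_cast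
  ring

end Pool.Agent.MP_552068_nt
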