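import Pool.Agent.MP_552068_nt.Spec

/-! The first three moments do not all vanish. -/

namespace Pool.Agent.MP_552068_nt

open Finset Polynomial

namespace NDGx

theorem ev_sum {R : Type} [CommRing R] (n : ℕ) (c : ℕ → R) (Q : R[X]) :
    ∑ t ∈ range (n + 1), Q.eval (t : R) * c t =
      ∑ i ∈ range (Q.natDegree + 1), Q.coeff i * mo n 0 c i := by
  simp only [eval_eq_sum_range, mo, add_zero, sum_mul, mul_sum, mul_assoc]
  exact sum_comm

end NDGx

theorem ndg : S_NDG := by
  intro p n c hp hn h63 h0 hr m0 m1 m2
  have : Fact p.Prime := ⟨hp⟩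
  have z : (2 * n + 1 : ZMod p) = 0 := by
    have := ZMod.natCast_self p
    rwa [← hn, Nat.cast_succ, Nat.cast_mul, Nat.cast_two, hn] at this
  have all : ∀ j, mo n 0 c j = 0 := fun j => by
    induction j using Nat.strong_induction_on with
    | _ j ih =>
    rcases j with _ | _ | _ | j
    · exact m0
    · exact m1
    · exact m2
    have mU : ((X - C (n : ZMod p)) ^ 3 * (X + C 1) ^ j).Monic :=
      ((monic_X_sub_C _).pow 3).mul ((monic_X_add_C _).pow j)
    have dU : ((X - C (n : ZMod p)) ^ 3 * (X + C 1) ^ j).natDegree = j + 3 := by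
      rw [((monic_X_sub_C _).pow 3).natDegree_mul ((monic_X_add_C _).pow j),
        (monic_X_sub_C _).natDegree_pow, (monic_X_add_C _).natDegree_pow, natDegree_X_sub_C,
        natDegree_X_add_C]
      ring
    have e := NDGx.ev_sum n c ((X - C (n : ZMod p)) ^ 3 * (X + C 1) ^ j)
    rw [sum_range_succ _ (natDegree _), mU.coeff_natDegree, dU, one_mul,
      sum_eq_zero (s := range (j + 3)) fun i hi => by
        rw [ih i (by have := mem_range.1 hi; omega), mul_zero], zero_add, sum_range_succ] at e
    simp only [eval_mul, eval_pow, eval_sub, eval_add, eval_X, eval_C, sub_self] at e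
    have e' : mo n 0 c (j + 3) =
        64 * ∑ t ∈ range n, ((t : ZMod p) - n) ^ 3 * ((t : ZMod p) + 1) ^ j * c t := by
      rw [mo, sum_range_succ', mul_sum]
      simp only [add_zero, Nat.cast_zero, zero_pow (Nat.succ_ne_zero _), zero_mul]
      refine sum_congr rfl fun t ht => ?_
      have := hr t (mem_range.1 ht)
      rw [show (2 * t + 1 : ZMod p) = 2 * (t - n) by linear_combination z] at this
      push_cast
      linear_combination ((t : ZMod p) + 1) ^ j * this
    refine (mul_eq_zero.1 ?_).resolve_left h63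
    change 63 * mo n 0 c (j + 3) = 0
    linear_combination -e' - 64 * e
  have e := NDGx.ev_sum n c (∏ t ∈ range n, (X - C ((t + 1 : ℕ) : ZMod p)))
  rw [sum_eq_zero (s := range (natDegree _ + 1)) fun i _ => by rw [all, mul_zero],
    sum_range_succ', sum_eq_zero fun t ht => by
      rw [eval_prod, prod_eq_zero ht (by simp), zero_mul], zero_add, h0, mul_one, eval_prod,
    prod_eq_zero_iff] at e
  obtain ⟨t, ht, e⟩ := e
  rw [eval_sub, eval_X, eval_C, Nat.cast_zero, zero_sub, neg_eq_zero, ZMod.natCast_eq_zero_iff] at e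
  have := Nat.le_of_dvd t.succ_pos e
  have := mem_range.1 ht
  omega

end Pool.Agent.MP_552068_nt
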