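import Pool.Agent.MP_552068_nt.Spec2

/-! A quadratic weight against the squares of the trinomial coefficients. -/

namespace Pool.Agent.MP_552068_nt

open Finset

namespace OMGx

theorem Mz {r t : ℕ} (h : r < 2 * t) : M r t = 0 := by
  rw [M, Nat.choose_eq_zero_of_lt (show r - t < t by omega), mul_zero]

end OMGx

theorem omg (h1 : S_MOM) : S_OMG := by
  intro R _ p n h κ q0 q1 q2 q3 q4 q5 H hp hn hκ m0 m1
  have row : ∀ t ∈ range (n + 1), ∑ r ∈ range p,
      (-1) ^ r * (-16) ^ t * (M r t : R) ^ 2 * qd q0 q1 q2 q3 q4 q5 r t =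
      κ * (q0 + q1 * n) * (((t : R) + 0) ^ 0 * cb R t ^ 3) +
        κ * (q2 + q1 + q4 * n + 4 * n * q3) * (((t : R) + 0) ^ 1 * cb R t ^ 3) +
        κ * (q4 + q5) * (((t : R) + 0) ^ 2 * cb R t ^ 3) := fun t ht => by
    obtain ⟨u, hu⟩ : ∃ u, t + u = n := ⟨n - t, by have := mem_range.1 ht; omega⟩
    have a := h1 R p n h H hp hn t u hu (q0 + q2 * t + q5 * t ^ 2) (q1 + q4 * t) q3
    have b := hκ t u hu
    rw [show p = 2 * t + (2 * u + 1) by omega, sum_range_add, sum_eq_zero fun r hr => by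
      rw [OMGx.Mz (mem_range.1 hr)]; simp, zero_add]
    have c : ∑ i ∈ range (2 * u + 1), (-1) ^ (2 * t + i) * (-16) ^ t * (M (2 * t + i) t : R) ^ 2 *
        qd q0 q1 q2 q3 q4 q5 ((2 * t + i : ℕ) : R) t = (-16) ^ t * ∑ i ∈ range (2 * u + 1),
        (-1) ^ i * (M (2 * t + i) t : R) ^ 2 * (q0 + q2 * t + q5 * t ^ 2 +
          (q1 + q4 * t) * (2 * t + i) + q3 * (2 * t + i) ^ 2) := by
      rw [mul_sum]
      refine sum_congr rfl fun i _ => ?_
      rw [pow_add, pow_mul, neg_one_sq, one_pow, qd]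
      push_cast
      ring
    rw [c, a]
    linear_combination (cb R t ^ 2 * (q0 + q2 * t + q5 * t ^ 2 + (q1 + q4 * t) * (t + n) +
      q3 * (4 * t * n))) * b
  rw [sum_comm, ← sum_subset (range_subset_range.2 (show n + 1 ≤ p by omega)) fun t _ ht =>
    sum_eq_zero fun r hr => by
      rw [OMGx.Mz (by have := mem_range.1 hr; have := mem_range.not.1 ht; omega)]; simp,
    sum_congr rfl row, sum_add_distrib, sum_add_distrib, ← mul_sum, ← mul_sum, ← mul_sum]
  simp only [mo] at m0 m1 ⊢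
  rw [m0, m1]
  ring

end Pool.Agent.MP_552068_nt
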