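import Pool.Agent.MP_552068_nt.Spec2

/-! Project B3: a block is a quadratic polynomial in its indices modulo the cube. -/

set_option autoImplicit false

namespace Pool.Agent.MP_552068_nt

open Finset

namespace PHIx

variable {R : Type} [CommRing R]

/-- the contribution of one cell to the second order term -/
def T (h : ℕ → R) (r t : ℕ) : R :=
  if r < 2 * t then 0 else
    (M r t : R) ^ 2 * (8 * (h (r - 2 * t) - h t) * (h r - h t) + 2 * g2 h t)

theorem cell (h1 : S_LUC3) (h2 : S_CAR3) {p : ℕ} {h : ℕ → R} (H : Harm p h) (h0 : (p : R) ^ 3 = 0)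
    (r t : ℕ) : ∃ y0 y1 y2 k3 k4 k5 : R, r < p → t < p → k4 + k5 = T h r t ∧ ∀ b c : ℕ,
      (M (p * (b + 2 * c) + r) (p * c + t) : R) ^ 2 = (M (p * (b + 2 * c)) (p * c) : R) ^ 2 *
        qd y0 y1 y2 ((p : R) ^ 2 * k3) ((p : R) ^ 2 * k4) ((p : R) ^ 2 * k5) (b + 2 * c) c := by
  by_cases hp : r < p ∧ t < p
  swap
  · exact ⟨0, 0, 0, 0, 0, 0, fun a b => (hp ⟨a, b⟩).elim⟩
  by_cases hr : r < 2 * t
  · obtain ⟨w, hw⟩ := h2 R p h H h0 r t hp.1 hp.2 hr
    refine ⟨0, 0, 0, w, -4 * w, 4 * w, fun _ _ => ⟨by rw [T, if_pos hr]; ring, fun b c => ?_⟩⟩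
    rw [hw, qd]
    ring
  · obtain ⟨i, rfl⟩ : ∃ i, r = 2 * t + i := ⟨r - 2 * t, by omega⟩
    refine ⟨(M (2 * t + i) t : R) ^ 2, 2 * p * (M (2 * t + i) t : R) ^ 2 * (h (2 * t + i) - h i),
      4 * p * (M (2 * t + i) t : R) ^ 2 * (h i - h t),
      (M (2 * t + i) t : R) ^ 2 * (2 * (h (2 * t + i) - h i) ^ 2 - g2 h (2 * t + i) + g2 h i),
      (M (2 * t + i) t : R) ^ 2 * (8 * (h (2 * t + i) - h i) * (h i - h t) - 4 * g2 h i),
      (M (2 * t + i) t : R) ^ 2 * (8 * (h i - h t) ^ 2 + 2 * g2 h t + 4 * g2 h i),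
      fun _ _ => ⟨?_, fun b c => ?_⟩⟩
    · rw [T, if_neg hr, Nat.add_sub_cancel_left]
      ring
    · rw [h1 R p h H h0 b c t i hp.1, qd]
      ring

theorem top {p n : ℕ} (h : ℕ → R) (hn : 2 * n + 1 = p) :
    ∑ r ∈ range p, ∑ t ∈ range p, (-1) ^ r * (-16) ^ t * T h r t = W n h := by
  have e1 : range p = range (n + 1 + n) := by congr 1; omega
  rw [sum_comm]
  conv_lhs => rw [e1]
  rw [sum_range_add, ← e1, sum_eq_zero (s := range n) fun i hi => sum_eq_zero fun r hr => by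
    have := mem_range.1 hr
    rw [T, if_pos (by omega), mul_zero], add_zero, W]
  refine sum_congr rfl fun t ht => ?_
  have := mem_range.1 ht
  have e2 : range p = range (2 * t + (2 * (n - t) + 1)) := by congr 1; omega
  rw [e2, sum_range_add, sum_eq_zero (s := range (2 * t)) fun r hr => by
    rw [T, if_pos (mem_range.1 hr), mul_zero], zero_add, Wr, mul_sum]
  refine sum_congr rfl fun i _ => ?_
  rw [T, if_neg (by omega), Nat.add_sub_cancel_left, pow_add, pow_mul, neg_one_sq, one_pow, one_mul]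
  ring

end PHIx

theorem phi (h1 : S_LUC3) (h2 : S_CAR3) : S_PHI := by
  intro R _ p n h H h0 hn
  choose y0 y1 y2 k3 k4 k5 hk using PHIx.cell h1 h2 H h0
  let σ : (ℕ → ℕ → R) → R := fun y => ∑ r ∈ range p, ∑ t ∈ range p, (-1) ^ r * (-16) ^ t * y r t
  refine ⟨σ y0, σ y1, σ y2, σ k3, σ k4, σ k5, ?_, fun b c => ?_⟩
  · rw [← PHIx.top h hn]
    simp only [σ, ← sum_add_distrib]
    refine sum_congr rfl fun r hr => sum_congr rfl fun t ht => ?_
    rw [← (hk r t (mem_range.1 hr) (mem_range.1 ht)).1, mul_add]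
  · unfold I qd
    push_cast
    simp only [σ, sum_mul, mul_sum, ← sum_add_distrib]
    refine sum_congr rfl fun r hr => sum_congr rfl fun t ht => ?_
    rw [(hk r t (mem_range.1 hr) (mem_range.1 ht)).2 b c, qd]
    ring

end Pool.Agent.MP_552068_nt
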