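import Pool.Agent.MP_552068_nt.Spec

/-! From the vanishing modulo the prime to the vanishing modulo its square. -/

set_option autoImplicit false

namespace Pool.Agent.MP_552068_nt

open Finset

namespace QFGx

variable {p : ℕ}

/-- reduction -/
def red (p : ℕ) : ZMod (p ^ 2) →+* ZMod p := ZMod.castHom (dvd_pow_self p two_ne_zero) (ZMod p)

theorem sq0 : (p : ZMod (p ^ 2)) ^ 2 = 0 := by
  rw [← Nat.cast_pow, ZMod.natCast_self]

theorem ker (hp : p.Prime) {x : ZMod (p ^ 2)} (h : red p x = 0) : ∃ y, x = p * y := by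
  have : NeZero (p ^ 2) := ⟨pow_ne_zero _ hp.ne_zero⟩
  obtain ⟨k, rfl⟩ := ZMod.natCast_zmod_surjective x
  rw [map_natCast, ZMod.natCast_eq_zero_iff] at h
  obtain ⟨y, rfl⟩ := h
  exact ⟨y, by push_cast; rfl⟩

theorem unit (hp : p.Prime) {x : ZMod (p ^ 2)} (h : red p x ≠ 0) : IsUnit x := by
  have : Fact p.Prime := ⟨hp⟩
  obtain ⟨k, hk⟩ := ZMod.natCast_zmod_surjective (red p x)⁻¹
  obtain ⟨y, hy⟩ := ker hp (x := x * k - 1) (by
    rw [map_sub, map_mul, map_natCast, hk, map_one, mul_inv_cancel₀ h, sub_self])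
  refine IsUnit.of_mul_eq_one (k * (1 - p * y)) ?_
  linear_combination (1 - p * y) * hy - y ^ 2 * sq0 (p := p)

theorem red_mo (n : ℕ) (h : ℕ → ZMod (p ^ 2)) (e : ZMod (p ^ 2)) (j : ℕ) :
    red p (mo n ((p : ZMod (p ^ 2)) * e) (df p h e) j) = mo n 0 (fun t => cb (ZMod p) t ^ 3) j := by
  simp only [mo, df, cb, map_sum, map_mul, map_pow, map_add, map_natCast, ZMod.natCast_self,
    zero_mul, mul_zero, add_zero, map_one, mul_one]

end QFGx

open QFGx in
theorem qfg (h1 : S_REC) (h2 : S_INV) (h3 : S_NDG) : S_QFG := by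
  intro p n h hp hn n3 n7 H h0 e
  have : Fact p.Prime := ⟨hp⟩
  have h63 : (63 : ZMod p) ≠ 0 := fun h4 => by
    have h5 : p ∣ 3 * (3 * 7) := (ZMod.natCast_eq_zero_iff 63 p).1 (by exact_mod_cast h4)
    have e3 : ¬ p ∣ 3 := fun h6 => n3 ((Nat.prime_dvd_prime_iff_eq hp Nat.prime_three).1 h6)
    rcases (Nat.Prime.dvd_mul hp).1 h5 with h6 | h6
    · exact e3 h6
    · rcases (Nat.Prime.dvd_mul hp).1 h6 with h7 | h7
      · exact e3 h7
      · exact n7 ((Nat.prime_dvd_prime_iff_eq hp Nat.prime_seven).1 h7)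
  have h2' : (2 : ZMod p) ≠ 0 := fun h4 => by
    have h5 : p ∣ 2 := (ZMod.natCast_eq_zero_iff 2 p).1 (by exact_mod_cast h4)
    have := (Nat.prime_dvd_prime_iff_eq hp Nat.prime_two).1 h5
    omega
  have rc : ∀ t < n, ((t : ZMod (p ^ 2)) + 1) ^ 3 * df p h 0 (t + 1) =
      8 * (2 * t + 1) ^ 3 * df p h 0 t := fun t ht => by
    simpa using h1 _ p h 0 H sq0 t (by omega)
  have inv := fun e' => h2 _ p n h (df p h 0) (df p h e') e' H sq0 hn rc
    fun t ht => h1 _ p h e' H sq0 t (by omega)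
  have rF : ∀ j, red p (mo n 0 (df p h 0) j) = mo n 0 (fun t => cb (ZMod p) t ^ 3) j := fun j => by
    simpa using red_mo n h 0 j
  have g0 : mo n 0 (fun t => cb (ZMod p) t ^ 3) 0 = 0 := by simpa [mo] using h0
  have i0 := inv 0
  rw [mul_zero] at i0
  have g1 : mo n 0 (fun t => cb (ZMod p) t ^ 3) 1 = 0 := by
    have h4 := congrArg (red p) i0
    simp only [map_add, map_mul, map_sub, map_neg, map_ofNat, map_zero, rF, g0] at h4
    have h5 : (63 : ZMod p) * mo n 0 (fun t => cb (ZMod p) t ^ 3) 1 ^ 2 = 0 := by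
      linear_combination -h4
    exact pow_eq_zero_iff two_ne_zero |>.1 ((mul_eq_zero.1 h5).resolve_left h63)
  have g2 := h3 p n (fun t => cb (ZMod p) t ^ 3) hp hn h63 (by simp [cb]) (fun t ht => by
    have h4 := congrArg (red p) (rc t ht)
    simpa only [df, cb, map_mul, map_pow, map_add, map_natCast, map_ofNat, mul_zero, zero_mul,
      add_zero, map_one, mul_one] using h4) g0 g1
  obtain ⟨a0, ha0⟩ := ker hp ((rF 0).trans g0)
  obtain ⟨a1, ha1⟩ := ker hp ((rF 1).trans g1)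
  obtain ⟨b0, hb0⟩ := ker hp ((red_mo n h e 0).trans g0)
  obtain ⟨b1, hb1⟩ := ker hp ((red_mo n h e 1).trans g1)
  have u : IsUnit (63 * mo n 0 (df p h 0) 2) := unit hp (by
    rw [map_mul, rF, map_ofNat]
    exact mul_ne_zero h63 g2)
  have u2 : IsUnit (2 : ZMod (p ^ 2)) := unit hp (by rwa [map_ofNat])
  have f0 : mo n 0 (df p h 0) 0 = 0 := by
    refine (u.mul u2).mul_right_eq_zero.1 ?_
    rw [ha0, ha1] at i0
    rw [ha0]
    linear_combination i0 + (63 * a1 ^ 2 - 64 * a0 * a1 - 16 * a0 ^ 2) * sq0 (p := p)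
  have d0 : mo n ((p : ZMod (p ^ 2)) * e) (df p h e) 0 = 0 := by
    refine u.mul_right_eq_zero.1 ?_
    have ie := inv e
    rw [f0, ha1, hb0, hb1] at ie
    rw [hb0]
    linear_combination ie + (63 * a1 * b1 - 32 * b0 * a1) * sq0 (p := p)
  simpa [mo] using d0

end Pool.Agent.MP_552068_nt
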