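import Pool.Agent.MP_552068_nt.Spec

/-! Row RAT: the ratio of complementary central binomial coefficients. -/

set_option autoImplicit false

namespace Pool.Agent.MP_552068_nt

open Finset

namespace RATx

theorem cb_succ (R : Type) [CommRing R] (t : ℕ) :
    ((t : R) + 1) * cb R (t + 1) = 2 * (2 * t + 1) * cb R t := by
  have h := congrArg (Nat.cast : ℕ → R) (Nat.succ_mul_centralBinom_succ t)
  rw [Nat.centralBinom_eq_two_mul_choose, Nat.centralBinom_eq_two_mul_choose] at h
  simp only [Nat.cast_mul, Nat.cast_add, Nat.cast_one, Nat.cast_ofNat] at h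
  exact h

theorem key {R : Type} [CommRing R] {P t u a b c d e : R} (hP : P = 2 * t + 2 * u + 3)
    (h2 : P ^ 2 = 0) (e1 : (u + 1) * (b - a) = 1) (e2 : (2 * u + 1) * (d - c) = 1)
    (e3 : (2 * u + 1 + 1) * (e - d) = 1) :
    4 * (t + 1) * (u + 1) * (1 + P * (a - c)) = (2 * t + 1) * (2 * u + 1) * (1 + P * (b - e)) := by
  have k : (P - (2 * u + 1)) * (2 * u + 2) * (1 + P * (a - c)) =
      (P - (2 * u + 2)) * (2 * u + 1) * (1 + P * (b - e)) := by
    linear_combination ((2 * u + 2) * (a - c) - (2 * u + 1) * (b - e)) * h2 +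
      2 * P * (2 * u + 1) * e1 - P * (2 * u + 2) * e2 - P * (2 * u + 1) * e3
  linear_combination k - ((2 * u + 2) * (1 + P * (a - c)) - (2 * u + 1) * (1 + P * (b - e))) * hP

end RATx

theorem rat : S_RAT := by
  intro R _ p n h H h2 hn
  refine ⟨(-1) ^ n * cb R n * (1 + p * (h n - h (2 * n))), fun t => ?_⟩
  induction t with
  | zero =>
    intro u hu
    rw [zero_add] at hu
    subst hu
    simp [cb]
  | succ t ih =>
    intro u hu
    have i1 := ih (u + 1) (by omega)
    generalize (-1) ^ n * cb R n * (1 + p * (h n - h (2 * n))) = κ at i1 ⊢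
    have hP : (p : R) = 2 * t + 2 * u + 3 := by
      rw [show p = 2 * t + 2 * u + 3 by omega]
      push_cast
      rfl
    have e1 := H.2 u (by omega)
    have e2 := H.2 (2 * u) (by omega)
    have e3 := H.2 (2 * u + 1) (by omega)
    push_cast at e2 e3
    have k := RATx.key hP h2 e1 e2 e3
    have c1 := RATx.cb_succ R t
    have c2 := RATx.cb_succ R u
    have u1 := H.unit (i := t + 1) (by omega) (by omega)
    have u2 := H.unit (i := u + 1) (by omega) (by omega)
    push_cast at u1 u2
    refine (u1.mul u2).mul_left_cancel ?_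
    rw [show 2 * (u + 1) = 2 * u + 1 + 1 by ring, pow_succ (-1 : R) u] at i1
    rw [pow_succ (-16 : R) t]
    generalize (-16 : R) ^ t = s at i1 ⊢
    generalize (-1 : R) ^ u = v at i1 ⊢
    generalize 1 + (p : R) * (h u - h (2 * u)) = A at k ⊢
    generalize 1 + (p : R) * (h (u + 1) - h (2 * u + 1 + 1)) = B at k i1
    linear_combination (-4 * s * v * cb R u) * k + 2 * (2 * t + 1) * (u + 1) * i1 +
      2 * (2 * t + 1) * s * v * B * c2 - κ * (u + 1) * c1

end Pool.Agent.MP_552068_nt
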