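import Pool.Agent.MP_552068_nt.Spec

/-! Row REC: the recurrence of the deformed coefficients. -/

set_option autoImplicit false

namespace Pool.Agent.MP_552068_nt

open Finset

namespace RECx

theorem alg {R : Type} [CommRing R] (a b q u v w C C1 H : R) (hq : q ^ 2 = 0) (hu : a * u = 1)
    (hv : b * v = 1) (hw : 2 * a * w = 1) (hC : a * C1 = 2 * b * C) :
    (a + q) ^ 3 * (C1 ^ 3 * (1 + 6 * q * (H + v + w - u))) =
      8 * (b + 2 * q) ^ 3 * (C ^ 3 * (1 + 6 * q * H)) := by
  have e1 : (a + q) ^ 3 = a ^ 3 * (1 + 3 * u * q) := by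
    linear_combination (3 * a + q) * hq - 3 * a ^ 2 * q * hu
  have e2 : (b + 2 * q) ^ 3 = b ^ 3 * (1 + 6 * v * q) := by
    linear_combination (12 * b + 8 * q) * hq - 6 * b ^ 2 * q * hv
  have e3 : u = 2 * w := by linear_combination (-u) * hw + 2 * w * hu
  have e4 : (1 + 3 * u * q) * (1 + 6 * q * (H + v + w - u)) = (1 + 6 * v * q) * (1 + 6 * q * H) := by
    rw [e3]
    linear_combination (36 * w * (H + v - w) - 36 * v * H) * hq
  calc _ = (a * C1) ^ 3 * ((1 + 3 * u * q) * (1 + 6 * q * (H + v + w - u))) := by rw [e1]; ring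
    _ = _ := by rw [hC, e4, e2]; ring

end RECx

theorem recS : S_REC := by
  intro R _ p h e H hp t ht
  have h1 := H.2 t (by omega)
  have h2 := H.2 (2 * t) (by omega)
  have h3 := H.2 (2 * t + 1) (by omega)
  have h4 : ((t : R) + 1) * cb R (t + 1) = 2 * (2 * t + 1) * cb R t := by
    have := congrArg (Nat.cast : ℕ → R) (Nat.succ_mul_centralBinom_succ t)
    simpa [cb, Nat.centralBinom] using this
  have := RECx.alg ((t : R) + 1) (2 * t + 1) (p * e) _ (h (2 * t + 1) - h (2 * t))
    (h (2 * t + 1 + 1) - h (2 * t + 1)) _ _ (h (2 * t) - h t) (by rw [mul_pow, hp, zero_mul]) h1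
    (by push_cast at h2; exact h2) (by push_cast at h3; linear_combination h3) h4
  rw [df, df, show 2 * (t + 1) = 2 * t + 1 + 1 from rfl]
  linear_combination this

end Pool.Agent.MP_552068_nt
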