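import Pool.Agent.MP_552068_nt.Spec2

/-! Row REC2: the recurrence of the coefficients deformed to the second order. -/

set_option autoImplicit false

namespace Pool.Agent.MP_552068_nt

open Finset

namespace REC2x

theorem alg {R : Type} [CommRing R] (a b q u v w C C1 H G2 G1 : R) (hq : q ^ 3 = 0)
    (hu : a * u = 1) (hv : b * v = 1) (hw : 2 * a * w = 1) (hC : a * C1 = 2 * b * C) :
    (a + q) ^ 3 * (C1 ^ 3 * (1 + 6 * q * (H + v + w - u) + q ^ 2 *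
      (18 * (H + v + w - u) ^ 2 - 6 * (G2 + v ^ 2 + w ^ 2) + 3 * (G1 + u ^ 2)))) =
      8 * (b + 2 * q) ^ 3 *
        (C ^ 3 * (1 + 6 * q * H + q ^ 2 * (18 * H ^ 2 - 6 * G2 + 3 * G1))) := by
  have e1 : (a + q) ^ 3 = a ^ 3 * (1 + 3 * u * q + 3 * u ^ 2 * q ^ 2) := by
    linear_combination hq - (3 * a ^ 2 * q + 3 * a * q ^ 2 * (a * u + 1)) * hu
  have e2 : (b + 2 * q) ^ 3 = b ^ 3 * (1 + 6 * v * q + 12 * v ^ 2 * q ^ 2) := by
    linear_combination 8 * hq - (6 * b ^ 2 * q + 12 * b * q ^ 2 * (b * v + 1)) * hv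
  obtain rfl : u = 2 * w := by linear_combination (-u) * hw + 2 * w * hu
  obtain ⟨A, hA⟩ : ∃ A, A = 18 * (H + v + w - 2 * w) ^ 2 - 6 * (G2 + v ^ 2 + w ^ 2) +
    3 * (G1 + (2 * w) ^ 2) := ⟨_, rfl⟩
  obtain ⟨B, hB⟩ : ∃ B, B = 18 * H ^ 2 - 6 * G2 + 3 * G1 := ⟨_, rfl⟩
  rw [← hA, ← hB]
  have e4 : (1 + 3 * (2 * w) * q + 3 * (2 * w) ^ 2 * q ^ 2) *
      (1 + 6 * q * (H + v + w - 2 * w) + q ^ 2 * A) =
      (1 + 6 * v * q + 12 * v ^ 2 * q ^ 2) * (1 + 6 * q * H + q ^ 2 * B) := by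
    linear_combination (6 * w * A + 72 * w ^ 2 * (H + v - w) + 12 * w ^ 2 * A * q - 6 * v * B -
      72 * v ^ 2 * H - 12 * v ^ 2 * B * q) * hq + q ^ 2 * hA - q ^ 2 * hB
  calc _ = (a * C1) ^ 3 * ((1 + 3 * (2 * w) * q + 3 * (2 * w) ^ 2 * q ^ 2) *
        (1 + 6 * q * (H + v + w - 2 * w) + q ^ 2 * A)) := by rw [e1]; ring
    _ = _ := by rw [hC, e4, e2]; ring

end REC2x

theorem rec2 : S_REC2 := by
  intro R _ p h ε H hε t ht
  have h1 := H.2 t (by omega)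
  have h2 := H.2 (2 * t) (by omega)
  have h3 := H.2 (2 * t + 1) (by omega)
  have h4 : ((t : R) + 1) * cb R (t + 1) = 2 * (2 * t + 1) * cb R t := by
    have := congrArg (Nat.cast : ℕ → R) (Nat.succ_mul_centralBinom_succ t)
    simpa [cb, Nat.centralBinom] using this
  have := REC2x.alg ((t : R) + 1) (2 * t + 1) ε _ (h (2 * t + 1) - h (2 * t))
    (h (2 * t + 1 + 1) - h (2 * t + 1)) _ _ (h (2 * t) - h t) (g2 h (2 * t)) (g2 h t) hε h1
    (by push_cast at h2; exact h2) (by push_cast at h3; linear_combination h3) h4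
  rw [df2, df2, hh, hh, show 2 * (t + 1) = 2 * t + 1 + 1 from rfl, g2, sum_range_succ,
    sum_range_succ, ← g2, g2.eq_1 h (t + 1), sum_range_succ, ← g2]
  linear_combination this

end Pool.Agent.MP_552068_nt
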