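import Pool.Agent.MP_552068_nt.Spec

/-! Row REF: reflection of the harmonic numbers modulo the square of `p`. -/

set_option autoImplicit false

namespace Pool.Agent.MP_552068_nt

open Finset

namespace REFx

theorem mid {R : Type} [CommRing R] {p n : ℕ} {h : ℕ → R} (H : Harm p h) (h2 : (p : R) ^ 2 = 0)
    (hp : 2 * n + 1 = p) (d : ℕ) : ∀ j : ℕ, j + d = n → p * h (n + d) = p * h j := by
  induction d with
  | zero =>
    intro j hj
    rw [← hj]
    rfl
  | succ d ih =>
    intro j hj
    have e0 := ih (j + 1) (by omega)
    have e1 := H.2 (n + d) (by omega)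
    have e2 := H.2 j (by omega)
    have e3 : (((n + d : ℕ) : R) + 1) + ((j : R) + 1) = p := by
      have : (n + d + 1) + (j + 1) = p := by omega
      rw [← this]
      push_cast
      ring
    rw [← add_assoc]
    generalize ((n + d : ℕ) : R) = x at e1 e3
    generalize h (n + d + 1) = a at e1 ⊢
    generalize h (n + d) = b at e0 e1
    linear_combination e0 + (a - b) * (h (j + 1) - h j) * h2 +
      p * (a - b) * (h (j + 1) - h j) * e3 - p * (a - b) * e2 - p * (h (j + 1) - h j) * e1

theorem half {R : Type} [CommRing R] {p n : ℕ} {h : ℕ → R} (H : Harm p h) (h2 : (p : R) ^ 2 = 0)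
    (hp : 2 * n + 1 = p) (t : ℕ) :
    ∀ u : ℕ, t + u = n → p * h u = p * (h n + 2 * h (2 * t) - h t) := by
  induction t with
  | zero =>
    intro u hu
    rw [zero_add] at hu
    rw [hu, mul_zero, H.1]
    ring
  | succ t ih =>
    intro u hu
    have e0 := ih (u + 1) (by omega)
    have e1 := H.2 u (by omega)
    have e2 := H.2 (2 * t) (by omega)
    have e3 := H.2 (2 * t + 1) (by omega)
    have e4 := H.2 t (by omega)
    have e5 : (2 * (t : R) + 1) + 2 * ((u : R) + 1) = p := by
      have : (2 * t + 1) + 2 * (u + 1) = p := by omega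
      rw [← this]
      push_cast
      ring
    rw [show 2 * (t + 1) = 2 * t + 1 + 1 by ring]
    push_cast at e2 e3
    generalize h (2 * t + 1 + 1) = a at e3 ⊢
    generalize h (2 * t + 1) = b at e2 e3
    generalize h (2 * t) = c at e0 e2
    have f1 : 2 * (a - b) = h (t + 1) - h t := by
      linear_combination (h (t + 1) - h t) * e3 - 2 * (a - b) * e4
    have f2 : (p : R) * ((h (u + 1) - h u) + 2 * (b - c)) = 0 := by
      linear_combination (h (u + 1) - h u) * (b - c) * h2 +
        p * (h (u + 1) - h u) * (b - c) * e5 - p * (h (u + 1) - h u) * e2 - 2 * p * (b - c) * e1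
    linear_combination e0 - f2 - p * f1

end REFx

open REFx in
theorem ref : S_REF := by
  intro R _ p n h H h2 hp
  refine ⟨fun i j hij => ?_, half H h2 hp⟩
  rcases le_total j n with c | c
  · have e := mid H h2 hp (n - j) j (by omega)
    rwa [show n + (n - j) = i by omega] at e
  · have e := mid H h2 hp (n - i) i (by omega)
    rw [show n + (n - i) = j by omega] at e
    exact e.symm

end Pool.Agent.MP_552068_nt
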