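import Pool.Agent.MP_552068_nt.Spec2

/-! Project B3: reflection rules of the harmonic numbers modulo an odd prime. -/

set_option autoImplicit false

namespace Pool.Agent.MP_552068_nt

open Finset

namespace REF0x

variable {R : Type} [CommRing R]

theorem g2_zero (h : ℕ → R) : g2 h 0 = 0 := by
  simp [g2]

theorem g2_succ (h : ℕ → R) (m : ℕ) : g2 h (m + 1) = g2 h m + (h (m + 1) - h m) ^ 2 := by
  simp [g2, Finset.sum_range_succ]

theorem step_neg {p : ℕ} {h : ℕ → R} (H : Harm p h) (hp : (p : R) = 0) (a b : ℕ)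
    (hab : a + b + 2 = p) : h (a + 1) - h a = -(h (b + 1) - h b) := by
  have h1 := H.2 a (by omega)
  have h2 := H.2 b (by omega)
  have h3 : (a : R) + b + 2 = 0 := by
    rw [← hp, ← hab]
    push_cast
    ring
  linear_combination (-(h (a + 1) - h a)) * h2 - (h (b + 1) - h b) * h1 +
    (h (a + 1) - h a) * (h (b + 1) - h b) * h3

theorem part1 {p n : ℕ} {h : ℕ → R} (H : Harm p h) (hp : (p : R) = 0) (hn : 2 * n + 1 = p) :
    ∀ j i : ℕ, i + j + 1 = p → h i - h j = h (2 * n) - h 0 ∧ g2 h i + g2 h j = g2 h (2 * n) := by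
  intro j
  induction j with
  | zero =>
    intro i hi
    have e : i = 2 * n := by omega
    subst e
    exact ⟨rfl, by rw [g2_zero, add_zero]⟩
  | succ j ih =>
    intro i hi
    obtain ⟨e1, e2⟩ := ih (i + 1) (by omega)
    have e3 := step_neg H hp i j (by omega)
    rw [g2_succ] at e2
    rw [g2_succ]
    refine ⟨by linear_combination e1 - e3, ?_⟩
    rw [e3] at e2
    linear_combination e2

theorem part2 {p n : ℕ} {h : ℕ → R} (H : Harm p h) (hp : (p : R) = 0) (hn : 2 * n + 1 = p) :
    ∀ t u : ℕ, t + u = n →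
      h u = h n + 2 * h (2 * t) - h t ∧ g2 h u = g2 h n - 4 * g2 h (2 * t) + g2 h t := by
  intro t
  induction t with
  | zero =>
    intro u hu
    have e : u = n := by omega
    subst e
    refine ⟨?_, ?_⟩
    · rw [Nat.mul_zero, H.1]
      ring
    · rw [Nat.mul_zero, g2_zero]
      ring
  | succ t ih =>
    intro u hu
    obtain ⟨e1, e2⟩ := ih (u + 1) (by omega)
    have hv := H.2 (2 * t) (by omega)
    have hw := H.2 (2 * t + 1) (by omega)
    have ht := H.2 t (by omega)
    have hu' := H.2 u (by omega)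
    have h3 : 2 * ((u : R) + 1) + (2 * t + 1) = 0 := by
      rw [← hp, ← hn, ← hu]
      push_cast
      ring
    push_cast at hv hw
    have dt : h (t + 1) - h t = 2 * (h (2 * t + 1 + 1) - h (2 * t + 1)) := by
      linear_combination (-(h (t + 1) - h t)) * hw + 2 * (h (2 * t + 1 + 1) - h (2 * t + 1)) * ht
    have du : h (u + 1) - h u = -2 * (h (2 * t + 1) - h (2 * t)) := by
      linear_combination (-(h (u + 1) - h u)) * hv - 2 * (h (2 * t + 1) - h (2 * t)) * hu' +
        (h (u + 1) - h u) * (h (2 * t + 1) - h (2 * t)) * h3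
    have e : 2 * (t + 1) = 2 * t + 1 + 1 := by ring
    rw [e]
    refine ⟨by linear_combination e1 - du + dt, ?_⟩
    rw [g2_succ, du] at e2
    rw [g2_succ h (2 * t + 1), g2_succ h (2 * t), g2_succ h t, dt]
    linear_combination e2

end REF0x

theorem ref0 : S_REF0 := by
  intro R _ p n h H hp hn
  refine ⟨fun i j hij => ?_, REF0x.part2 H hp hn⟩
  have e1 := REF0x.part1 H hp hn j i hij
  have e2 := (REF0x.part1 H hp hn n n (by omega)).1
  exact ⟨by linear_combination e1.1 - e2, e1.2⟩

end Pool.Agent.MP_552068_nt
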