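import Pool.Agent.MP_552068_nt.Spec2
import Pool.Agent.MP_552068_nt.ROW

/-! Project B3, row ROW2: one row of the second order term. -/

set_option autoImplicit false

namespace Pool.Agent.MP_552068_nt

open Finset

theorem row2 (h1 : S_HID) (h2 : S_BIN) (h3 : S_REF0) (h4 : S_HID2) : S_ROW2 := by
  intro R _ p n h H hp hn t u htu
  obtain ⟨hT, hB⟩ := h1 R p h H u (by omega)
  have hC := h4 R p h H u (by omega)
  obtain ⟨r1, r2⟩ := h3 R p n h H hp hn
  obtain ⟨hN, gN⟩ := r1 (2 * u) (2 * t) (by omega)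
  obtain ⟨hu, gu⟩ := r2 t u htu
  have hp2 : (p : R) ^ 2 = 0 := by rw [hp]; simp
  have term : ∀ i ∈ range (2 * u + 1),
      (-1) ^ i * (M (2 * t + i) t : R) ^ 2 *
        (8 * (h i - h t) * (h (2 * t + i) - h t) + 2 * g2 h t) =
      cb R t ^ 2 * (8 * (h (2 * u) - h t) ^ 2 + 2 * g2 h t - 16 * (h (2 * u) - h t) * h (2 * u)) *
          ((-1) ^ i * ((2 * u).choose i : R) ^ 2) +
        cb R t ^ 2 * (8 * (h (2 * u) - h t)) *
          ((-1) ^ i * ((2 * u).choose i : R) ^ 2 * h (2 * u - i)) +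
        cb R t ^ 2 * (8 * (h (2 * u) - h t)) *
          ((-1) ^ i * ((2 * u).choose i : R) ^ 2 * h i) +
        cb R t ^ 2 * 8 *
          ((-1) ^ i * ((2 * u).choose i : R) ^ 2 *
            ((h (2 * u) - h i) * (h (2 * u) - h (2 * u - i)))) := by
    intro i hi
    have hi' : i ≤ 2 * u := by have := mem_range.1 hi; omega
    have b := h2 R p h H hp2 (2 * t) (2 * u) i (by omega) hi'
    have r : h (2 * t + i) = h (2 * u - i) := (r1 _ _ (by omega)).1
    have e2 : ((-1 : R)) ^ i * (-1) ^ i = 1 := by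
      rw [← pow_add, ← two_mul, pow_mul]; simp
    have b2 : (((2 * t + i).choose (2 * t) : ℕ) : R) ^ 2 = ((2 * u).choose i : R) ^ 2 := by
      rw [b, hp]
      linear_combination ((2 * u).choose i : R) ^ 2 * e2
    rw [ROWx.M_eq, Nat.cast_mul, mul_pow, b2, r]
    unfold cb
    ring
  unfold Wr
  rw [sum_congr rfl term, sum_add_distrib, sum_add_distrib, sum_add_distrib, ← mul_sum, ← mul_sum,
    ← mul_sum, ← mul_sum, ROWx.refl_sum, hT]
  unfold hh
  generalize (∑ i ∈ range (2 * u + 1), (-1) ^ i * ((2 * u).choose i : R) ^ 2 * h i) = B at hB ⊢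
  generalize (∑ i ∈ range (2 * u + 1), (-1) ^ i * ((2 * u).choose i : R) ^ 2 *
    ((h (2 * u) - h i) * (h (2 * u) - h (2 * u - i)))) = C at hC ⊢
  generalize ((-1 : R)) ^ u * cb R u = T at hB hC ⊢
  generalize cb R t = c
  have gN' : g2 h (2 * u) = g2 h (2 * n) - g2 h (2 * t) := by linear_combination gN
  rw [hN, hu] at hB
  rw [hN, hu, gu, gN'] at hC
  rw [hN]
  linear_combination (c ^ 2 * 8 * (h (2 * t) - h t)) * hB + c ^ 2 * hC

end Pool.Agent.MP_552068_nt
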