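import Pool.Agent.MP_552068_nt.Spec

/-! Splitting the alternating sum into blocks. -/

set_option autoImplicit false

namespace Pool.Agent.MP_552068_nt

open Finset

namespace SPLx

theorem blk (p n : ℕ) (f : ℕ → ℤ) :
    ∑ k ∈ range (p * n), f k = ∑ A ∈ range n, ∑ r ∈ range p, f (p * A + r) := by
  induction n with
  | zero => simp
  | succ n ih => rw [Nat.mul_succ, sum_range_add, ih, sum_range_succ]

theorem inner {k N : ℕ} (h : k < N) :
    ∑ j ∈ range (k + 1), (-16) ^ j * (k.choose j : ℤ) ^ 2 * ((k - j).choose j : ℤ) ^ 2 =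
      ∑ j ∈ range N, (-16) ^ j * (M k j : ℤ) ^ 2 := by
  rw [← sum_subset (range_subset_range.2 (Nat.succ_le_of_lt h)) fun j _ hj => by
    rw [M, Nat.choose_eq_zero_of_lt (show k < j by simpa using hj)]
    simp]
  refine sum_congr rfl fun j _ => ?_
  rw [M]
  push_cast
  ring

end SPLx

theorem spl : S_SPL := by
  intro p n _ h
  have e : S (p * n) = ∑ A ∈ range n, ∑ c ∈ range n, (-1) ^ (p * A) * (-16) ^ (p * c) * I p A c := by
    rw [S, sum_congr rfl fun k hk => by rw [SPLx.inner (mem_range.1 hk), SPLx.blk], SPLx.blk]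
    refine sum_congr rfl fun A _ => ?_
    simp only [I, mul_sum]
    rw [sum_comm]
    refine sum_congr rfl fun c _ => sum_congr rfl fun r _ => sum_congr rfl fun t _ => ?_
    ring
  rw [e]
  exact dvd_sum fun A _ => dvd_sum fun c _ => (h A c).mul_left _

end Pool.Agent.MP_552068_nt
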