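import Pool.Agent.MP_552068_nt.Spec

/-! Row SS: the truncated sum of cubed central binomial coefficients vanishes modulo an inert
prime. -/

set_option autoImplicit false

namespace Pool.Agent.MP_552068_nt

open Finset

theorem ss_jac (p : ℕ) (hodd : p % 2 = 1) (h7 : p % 7 = 3 ∨ p % 7 = 5 ∨ p % 7 = 6) :
    jacobiSym (-7) p = -1 := by
  have ho : Odd p := Nat.odd_iff.2 hodd
  have a : jacobiSym (p : ℤ) 7 = -1 := by
    rw [jacobiSym.mod_left]
    rcases h7 with h | h | h
    · rw [show (p : ℤ) % (7 : ℕ) = 3 by omega]; norm_num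
    · rw [show (p : ℤ) % (7 : ℕ) = 5 by omega]; norm_num
    · rw [show (p : ℤ) % (7 : ℕ) = 6 by omega]; norm_num
  rw [show (-7 : ℤ) = -((7 : ℕ) : ℤ) by norm_num, jacobiSym.neg _ ho]
  rcases (by omega : p % 4 = 1 ∨ p % 4 = 3) with h | h
  · rw [ZMod.χ₄_nat_one_mod_four h,
      jacobiSym.quadratic_reciprocity_one_mod_four' (by decide) h, a]
    norm_num
  · rw [ZMod.χ₄_nat_three_mod_four h,
      jacobiSym.quadratic_reciprocity_three_mod_four (by norm_num) h, a]
    norm_num

theorem ss (h1 : S_CLA) (h2 : S_LAN) : S_SS := by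
  intro p n hp hn h7
  have : Fact p.Prime := ⟨hp⟩
  have ns : ¬ IsSquare ((-7 : ℤ) : ZMod p) :=
    ZMod.nonsquare_of_jacobiSym_eq_neg_one (ss_jac p (by omega) h7)
  have n0 : ((-7 : ℤ) : ZMod p) ≠ 0 := fun h => ns (h ▸ IsSquare.zero)
  have e : ((-7 : ℤ) : ZMod p) ^ n ≠ 1 := by
    intro h
    exact ns ((ZMod.euler_criterion p n0).2 (by rwa [show p / 2 = n by omega]))
  let K := AlgebraicClosure (ZMod p)
  let f : ZMod p →+* K := algebraMap _ _
  have inj : Function.Injective f := f.injective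
  obtain ⟨z, hz⟩ : ∃ z : K, z ^ 2 + 3 * z + 4 = 0 := by
    obtain ⟨z, hz⟩ := IsAlgClosed.exists_root
      (Polynomial.C (1 : K) * Polynomial.X ^ 2 + Polynomial.C 3 * Polynomial.X + Polynomial.C 4)
      (by rw [Polynomial.degree_quadratic one_ne_zero]; decide)
    exact ⟨z, by simpa using hz⟩
  have L := h2 K p n hp hn z (z ^ 2) (by linear_combination (z * (z - 1)) * hz)
  have C := h1 K p n hp hn 1 (z ^ 2) (by linear_combination (z ^ 2 - 3 * z + 4) * hz)
  have pw : ∀ x : K, x ^ p = x ^ (2 * n) * x := fun x => by rw [← pow_succ, hn]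
  have ne : (1 + z) ^ (2 * n) ≠ 1 := by
    intro h
    have g : (1 + z) ^ p = 1 + z := by rw [pw, h, one_mul]
    have t : (2 : K) ^ p = 2 := by
      have := congrArg f (ZMod.pow_card (2 : ZMod p))
      simpa only [map_pow, map_ofNat] using this
    have d : (2 * (1 + z) + 1) ^ p = 2 * (1 + z) + 1 := by
      rw [add_pow_char, mul_pow, g, t, one_pow]
    have s : (2 * (1 + z) + 1) ^ 2 = f ((-7 : ℤ) : ZMod p) := by
      rw [map_intCast]; push_cast; linear_combination 4 * hz
    have d0 : 2 * (1 + z) + 1 ≠ 0 := by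
      intro h0
      rw [h0] at s
      exact n0 (inj (by rw [← s, map_zero]; ring))
    rw [pw, pow_mul, s] at d
    refine e (inj ?_)
    rw [map_pow, map_one]
    exact mul_right_cancel₀ d0 (by rw [d, one_mul])
  have H0 : ∑ t ∈ range (n + 1), (n.choose t : K) ^ 2 * (z ^ 2) ^ t = 0 := by
    by_contra h
    exact ne (mul_right_cancel₀ h (by rw [← L, one_mul]))
  rw [H0] at C
  refine inj ?_
  rw [map_sum, map_zero]
  simpa [cb] using C

end Pool.Agent.MP_552068_nt
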