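import Mathlib

/-! Project BL: blocks of the alternating sum modulo the square of an inert prime.
Statements of the rows. -/

set_option autoImplicit false

namespace Pool.Agent.MP_552068_nt

open Finset

/-- the trinomial coefficient `k! / (j! j! (k - 2 j)!)` -/
def M (k j : ℕ) : ℕ := k.choose j * (k - j).choose j

/-- the alternating sum -/
def S (N : ℕ) : ℤ := ∑ k ∈ range N, (-1) ^ k *
  ∑ j ∈ range (k + 1), (-16) ^ j * (k.choose j : ℤ) ^ 2 * ((k - j).choose j : ℤ) ^ 2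

/-- one block -/
def I (p A c : ℕ) : ℤ :=
  ∑ r ∈ range p, ∑ t ∈ range p, (-1) ^ r * (-16) ^ t * (M (p * A + r) (p * c + t) : ℤ) ^ 2

/-- `h` plays the role of the harmonic numbers below `p` -/
def Harm {R : Type} [CommRing R] (p : ℕ) (h : ℕ → R) : Prop :=
  h 0 = 0 ∧ ∀ i : ℕ, i + 1 < p → ((i : R) + 1) * (h (i + 1) - h i) = 1

/-- central binomial coefficient in `R` -/
def cb (R : Type) [CommRing R] (t : ℕ) : R := ((2 * t).choose t : ℕ)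

/-- the deformed coefficients -/
def df {R : Type} [CommRing R] (p : ℕ) (h : ℕ → R) (e : R) (t : ℕ) : R :=
  cb R t ^ 3 * (1 + 6 * p * e * (h (2 * t) - h t))

/-- moments -/
def mo {R : Type} [CommRing R] (n : ℕ) (ε : R) (d : ℕ → R) (j : ℕ) : R :=
  ∑ t ∈ range (n + 1), ((t : R) + ε) ^ j * d t

theorem Harm.unit {R : Type} [CommRing R] {p : ℕ} {h : ℕ → R} (H : Harm p h) {i : ℕ} (h0 : 0 < i)
    (hi : i < p) : IsUnit (i : R) := by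
  obtain ⟨k, rfl⟩ : ∃ k, i = k + 1 := ⟨i - 1, by omega⟩
  exact IsUnit.of_mul_eq_one _ (by push_cast; exact H.2 k hi)

def S_SPL : Prop := ∀ p n : ℕ, 0 < p → (∀ A c, (p : ℤ) ^ 2 ∣ I p A c) → (p : ℤ) ^ 2 ∣ S (p * n)

def S_CAR : Prop := ∀ p A c r t : ℕ, p.Prime → r < p → t < p → r < 2 * t →
  p ∣ M (p * A + r) (p * c + t)

def S_LUC : Prop := ∀ (R : Type) [CommRing R] (p : ℕ) (h : ℕ → R), Harm p h → (p : R) ^ 2 = 0 →
  ∀ b c t i : ℕ, 2 * t + i < p →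
    (M (p * (b + 2 * c) + (2 * t + i)) (p * c + t) : R) = M (p * (b + 2 * c)) (p * c) *
      M (2 * t + i) t * (1 + p * ((b + 2 * c) * h (2 * t + i) - 2 * c * h t - b * h i))

def S_HID : Prop := ∀ (R : Type) [CommRing R] (p : ℕ) (h : ℕ → R), Harm p h → ∀ u : ℕ, 2 * u < p →
  ∑ i ∈ range (2 * u + 1), (-1) ^ i * ((2 * u).choose i : R) ^ 2 = (-1) ^ u * cb R u ∧
  2 * ∑ i ∈ range (2 * u + 1), (-1) ^ i * ((2 * u).choose i : R) ^ 2 * h i =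
    (-1) ^ u * cb R u * (h (2 * u) + h u)

def S_BIN : Prop := ∀ (R : Type) [CommRing R] (p : ℕ) (h : ℕ → R), Harm p h → (p : R) ^ 2 = 0 →
  ∀ m N i : ℕ, m + N + 1 = p → i ≤ N →
    ((m + i).choose m : R) = (-1) ^ i * (N.choose i : R) * (1 - p * (h N - h (N - i)))

def S_RAT : Prop := ∀ (R : Type) [CommRing R] (p n : ℕ) (h : ℕ → R), Harm p h → (p : R) ^ 2 = 0 →
  2 * n + 1 = p → ∃ κ : R, ∀ t u : ℕ, t + u = n →
    (-16) ^ t * ((-1) ^ u * cb R u) * (1 + p * (h u - h (2 * u))) = κ * cb R t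

def S_REF : Prop := ∀ (R : Type) [CommRing R] (p n : ℕ) (h : ℕ → R), Harm p h → (p : R) ^ 2 = 0 →
  2 * n + 1 = p → (∀ i j : ℕ, i + j + 1 = p → p * h i = p * h j) ∧
    ∀ t u : ℕ, t + u = n → p * h u = p * (h n + 2 * h (2 * t) - h t)

def S_ROW : Prop := ∀ (R : Type) [CommRing R] (p n : ℕ) (h : ℕ → R) (κ x y : R), Harm p h →
  (p : R) ^ 2 = 0 → 2 * n + 1 = p → ∀ t u : ℕ, t + u = n →
    (-16) ^ t * ((-1) ^ u * cb R u) * (1 + p * (h u - h (2 * u))) = κ * cb R t →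
    ∑ i ∈ range (2 * u + 1), (-1) ^ i * (-16) ^ t * (M (2 * t + i) t : R) ^ 2 *
        (1 + 2 * p * (x * (h (2 * t + i) - h i) + 2 * y * (h i - h t))) =
      κ * (df p h y t + 2 * p * y * h n * cb R t ^ 3)

def S_REC : Prop := ∀ (R : Type) [CommRing R] (p : ℕ) (h : ℕ → R) (e : R), Harm p h →
  (p : R) ^ 2 = 0 → ∀ t : ℕ, 2 * t + 2 < p →
    ((t : R) + 1 + p * e) ^ 3 * df p h e (t + 1) = 8 * (2 * t + 1 + 2 * (p * e)) ^ 3 * df p h e t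

def S_INV : Prop := ∀ (R : Type) [CommRing R] (p n : ℕ) (h c d : ℕ → R) (e : R), Harm p h →
  (p : R) ^ 2 = 0 → 2 * n + 1 = p →
  (∀ t < n, ((t : R) + 1) ^ 3 * c (t + 1) = 8 * (2 * t + 1) ^ 3 * c t) →
  (∀ t < n, ((t : R) + 1 + p * e) ^ 3 * d (t + 1) = 8 * (2 * t + 1 + 2 * (p * e)) ^ 3 * d t) →
  -63 * (mo n 0 c 1 * mo n (p * e) d 1 - mo n 0 c 0 * mo n (p * e) d 2 -
      mo n (p * e) d 0 * mo n 0 c 2) +
    32 * (mo n 0 c 0 * mo n (p * e) d 1 + mo n (p * e) d 0 * mo n 0 c 1) +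
    16 * mo n 0 c 0 * mo n (p * e) d 0 = 0

def S_NDG : Prop := ∀ (p n : ℕ) (c : ℕ → ZMod p), p.Prime → 2 * n + 1 = p → (63 : ZMod p) ≠ 0 →
  c 0 = 1 → (∀ t < n, ((t : ZMod p) + 1) ^ 3 * c (t + 1) = 8 * (2 * t + 1) ^ 3 * c t) →
  mo n 0 c 0 = 0 → mo n 0 c 1 = 0 → mo n 0 c 2 ≠ 0

def S_QFG : Prop := ∀ (p n : ℕ) (h : ℕ → ZMod (p ^ 2)), p.Prime → 2 * n + 1 = p → p ≠ 3 → p ≠ 7 →
  Harm p h → ∑ t ∈ range (n + 1), cb (ZMod p) t ^ 3 = 0 →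
  ∀ e, ∑ t ∈ range (n + 1), df p h e t = 0

def S_CLA : Prop := ∀ (K : Type) [Field K] (p n : ℕ) [CharP K p], p.Prime → 2 * n + 1 = p →
  ∀ x y : K, 16 * x = y * (1 - y) →
    ∑ t ∈ range (n + 1), cb K t ^ 3 * x ^ t = (∑ t ∈ range (n + 1), (n.choose t : K) ^ 2 * y ^ t) ^ 2

def S_LAN : Prop := ∀ (K : Type) [Field K] (p n : ℕ) [CharP K p], p.Prime → 2 * n + 1 = p →
  ∀ z w : K, (1 + z) ^ 2 * w = 4 * z →
    ∑ t ∈ range (n + 1), (n.choose t : K) ^ 2 * (z ^ 2) ^ t =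
      (1 + z) ^ (2 * n) * ∑ t ∈ range (n + 1), (n.choose t : K) ^ 2 * w ^ t

def S_SS : Prop := ∀ p n : ℕ, p.Prime → 2 * n + 1 = p → (p % 7 = 3 ∨ p % 7 = 5 ∨ p % 7 = 6) →
  ∑ t ∈ range (n + 1), cb (ZMod p) t ^ 3 = 0

def S_BLK : Prop := ∀ (p n : ℕ) (h : ℕ → ZMod (p ^ 2)), p.Prime → 2 * n + 1 = p → Harm p h →
  (∀ e, ∑ t ∈ range (n + 1), df p h e t = 0) → ∀ A c, (p : ℤ) ^ 2 ∣ I p A c

end Pool.Agent.MP_552068_nt
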