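import Pool.Agent.MP_552068_nt.Spec

/-! Project B3: blocks of the alternating sum modulo the cube of an inert prime.
Statements of the rows. -/

set_option autoImplicit false

namespace Pool.Agent.MP_552068_nt

open Finset

/-- harmonic numbers of order two -/
def g2 {R : Type} [CommRing R] (h : ℕ → R) (m : ℕ) : R := ∑ k ∈ range m, (h (k + 1) - h k) ^ 2

/-- falling product -/
def ds {R : Type} [CommRing R] (a : R) (i : ℕ) : R := ∏ k ∈ range i, (a - k)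

/-- values of Jacobi polynomials at the centre, without denominators -/
def U {R : Type} [CommRing R] (x y : R) (n : ℕ) : R :=
  ∑ i ∈ range (n + 1), (-1) ^ i * (n.choose i : R) * ds (n + x) i * ds (n + y) (n - i)

/-- a quadratic polynomial in two variables -/
def qd {R : Type} [CommRing R] (q0 q1 q2 q3 q4 q5 x y : R) : R :=
  q0 + q1 * x + q2 * y + q3 * x ^ 2 + q4 * x * y + q5 * y ^ 2

/-- one row of the second order term -/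
def Wr {R : Type} [CommRing R] (h : ℕ → R) (t u : ℕ) : R :=
  ∑ i ∈ range (2 * u + 1), (-1) ^ i * (M (2 * t + i) t : R) ^ 2 *
    (8 * (h i - h t) * (h (2 * t + i) - h t) + 2 * g2 h t)

/-- the second order term -/
def W {R : Type} [CommRing R] (n : ℕ) (h : ℕ → R) : R :=
  ∑ t ∈ range (n + 1), (-16) ^ t * Wr h t (n - t)

/-- second coefficient of the deformation -/
def hh {R : Type} [CommRing R] (h : ℕ → R) (t : ℕ) : R :=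
  18 * (h (2 * t) - h t) ^ 2 - 6 * g2 h (2 * t) + 3 * g2 h t

/-- the deformed coefficients to the second order -/
def df2 {R : Type} [CommRing R] (h : ℕ → R) (ε : R) (t : ℕ) : R :=
  cb R t ^ 3 * (1 + 6 * ε * (h (2 * t) - h t) + ε ^ 2 * hh h t)

def S_LUC3 : Prop := ∀ (R : Type) [CommRing R] (p : ℕ) (h : ℕ → R), Harm p h → (p : R) ^ 3 = 0 →
  ∀ b c t i : ℕ, 2 * t + i < p →
    (M (p * (b + 2 * c) + (2 * t + i)) (p * c + t) : R) ^ 2 =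
      (M (p * (b + 2 * c)) (p * c) : R) ^ 2 * (M (2 * t + i) t : R) ^ 2 *
        (1 + 2 * p * ((b + 2 * c) * h (2 * t + i) - 2 * c * h t - b * h i) +
          p ^ 2 * (2 * ((b + 2 * c) * h (2 * t + i) - 2 * c * h t - b * h i) ^ 2 -
            ((b + 2 * c) ^ 2 * g2 h (2 * t + i) - 2 * c ^ 2 * g2 h t - b ^ 2 * g2 h i)))

def S_CAR3 : Prop := ∀ (R : Type) [CommRing R] (p : ℕ) (h : ℕ → R), Harm p h → (p : R) ^ 3 = 0 →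
  ∀ r t : ℕ, r < p → t < p → r < 2 * t → ∃ w : R, ∀ b c : ℕ,
    (M (p * (b + 2 * c) + r) (p * c + t) : R) ^ 2 =
      (M (p * (b + 2 * c)) (p * c) : R) ^ 2 * (p ^ 2 * b ^ 2 * w)

def S_PHI : Prop := ∀ (R : Type) [CommRing R] (p n : ℕ) (h : ℕ → R), Harm p h → (p : R) ^ 3 = 0 →
  2 * n + 1 = p → ∃ z0 z1 z2 q3 q4 q5 : R, q4 + q5 = W n h ∧ ∀ b c : ℕ,
    ((I p (b + 2 * c) c : ℤ) : R) = (M (p * (b + 2 * c)) (p * c) : R) ^ 2 *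
      qd z0 z1 z2 ((p : R) ^ 2 * q3) ((p : R) ^ 2 * q4) ((p : R) ^ 2 * q5) (b + 2 * c) c

def S_LUM : Prop := ∀ p A c r t : ℕ, p.Prime → r < p → t < p →
  M (p * A + r) (p * c + t) ≡ M A c * M r t [MOD p]

def S_LOW : Prop := ∀ (p : ℕ) (z0 z1 z2 q3 q4 q5 : ZMod (p ^ 3)), p.Prime → p ≠ 2 →
  (∀ b c : ℕ, ((I p (b + 2 * c) c : ℤ) : ZMod (p ^ 3)) =
    (M (p * (b + 2 * c)) (p * c) : ZMod (p ^ 3)) ^ 2 * qd z0 z1 z2 ((p : ZMod (p ^ 3)) ^ 2 * q3)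
      ((p : ZMod (p ^ 3)) ^ 2 * q4) ((p : ZMod (p ^ 3)) ^ 2 * q5) (b + 2 * c) c) →
  (∀ A c, (p : ℤ) ^ 2 ∣ I p A c) →
  ∃ Q0 Q1 Q2 Q3 Q4 Q5 : ℤ, (Q4 : ZMod (p ^ 3)) = q4 ∧ (Q5 : ZMod (p ^ 3)) = q5 ∧ ∀ A c : ℕ,
    (p : ℤ) ^ 3 ∣ I p A c - p ^ 2 * ((M A c : ℤ) ^ 2 * qd Q0 Q1 Q2 Q3 Q4 Q5 A c)

def S_TOP : Prop := ∀ (p n : ℕ) (Q0 Q1 Q2 Q3 Q4 Q5 : ℤ), p.Prime → p ≠ 2 →
  (∀ A c : ℕ, (p : ℤ) ^ 3 ∣ I p A c - p ^ 2 * ((M A c : ℤ) ^ 2 * qd Q0 Q1 Q2 Q3 Q4 Q5 A c)) →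
  (p : ℤ) ^ 3 ∣ S (p * (p * n)) - p ^ 2 * (S n * ∑ r ∈ range p, ∑ t ∈ range p,
    (-1) ^ r * (-16) ^ t * (M r t : ℤ) ^ 2 * qd Q0 Q1 Q2 Q3 Q4 Q5 r t)

def S_REF0 : Prop := ∀ (R : Type) [CommRing R] (p n : ℕ) (h : ℕ → R), Harm p h → (p : R) = 0 →
  2 * n + 1 = p → (∀ i j : ℕ, i + j + 1 = p → h i = h j ∧ g2 h i + g2 h j = g2 h (2 * n)) ∧
    ∀ t u : ℕ, t + u = n →
      h u = h n + 2 * h (2 * t) - h t ∧ g2 h u = g2 h n - 4 * g2 h (2 * t) + g2 h t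

def S_TK0 : Prop := ∀ (p n : ℕ) (h : ℕ → ZMod p), p.Prime → Harm p h → 2 * n + 1 = p →
  ∃ κ : ZMod p, κ ^ 2 = 1 ∧ cb (ZMod p) n ^ 2 = 1 ∧ ∀ t u : ℕ, t + u = n →
    (-16) ^ t * ((-1) ^ u * cb (ZMod p) u) = κ * cb (ZMod p) t

def S_JAC : Prop := ∀ (R : Type) [CommRing R] (x y : R), x ^ 2 = y ^ 2 → ∀ n : ℕ,
  (n + 2 + x + y) * (2 * n + 2 + x + y) * U x y (n + 2) =
    -4 * (n + 1) * (n + 1 + x) * (n + 1 + y) * (2 * n + 4 + x + y) * U x y n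

def S_HID2 : Prop := ∀ (R : Type) [CommRing R] (p : ℕ) (h : ℕ → R), Harm p h → ∀ u : ℕ, 2 * u < p →
  8 * ∑ i ∈ range (2 * u + 1),
      (-1) ^ i * ((2 * u).choose i : R) ^ 2 * ((h (2 * u) - h i) * (h (2 * u) - h (2 * u - i))) =
    (-1) ^ u * cb R u * (2 * (h (2 * u) - h u) ^ 2 + 2 * g2 h (2 * u) + g2 h u)

def S_ROW2 : Prop := ∀ (R : Type) [CommRing R] (p n : ℕ) (h : ℕ → R), Harm p h → (p : R) = 0 →
  2 * n + 1 = p → ∀ t u : ℕ, t + u = n →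
    Wr h t u = cb R t ^ 2 * ((-1) ^ u * cb R u) * (hh h t + 12 * h n * (h (2 * t) - h t) +
      (2 * h n ^ 2 + 2 * g2 h (2 * n) + g2 h n))

def S_MOM : Prop := ∀ (R : Type) [CommRing R] (p n : ℕ) (h : ℕ → R), Harm p h → (p : R) = 0 →
  2 * n + 1 = p → ∀ t u : ℕ, t + u = n → ∀ a0 a1 a2 : R,
    ∑ i ∈ range (2 * u + 1), (-1) ^ i * (M (2 * t + i) t : R) ^ 2 *
        (a0 + a1 * (2 * t + i) + a2 * (2 * t + i) ^ 2) =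
      cb R t ^ 2 * ((-1) ^ u * cb R u) * (a0 + a1 * (t + n) + a2 * (4 * t * n))

def S_OMG : Prop := ∀ (R : Type) [CommRing R] (p n : ℕ) (h : ℕ → R) (κ q0 q1 q2 q3 q4 q5 : R),
  Harm p h → (p : R) = 0 → 2 * n + 1 = p →
  (∀ t u : ℕ, t + u = n → (-16) ^ t * ((-1) ^ u * cb R u) = κ * cb R t) →
  mo n 0 (fun t => cb R t ^ 3) 0 = 0 → mo n 0 (fun t => cb R t ^ 3) 1 = 0 →
  ∑ r ∈ range p, ∑ t ∈ range p, (-1) ^ r * (-16) ^ t * (M r t : R) ^ 2 * qd q0 q1 q2 q3 q4 q5 r t =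
    κ * (q4 + q5) * mo n 0 (fun t => cb R t ^ 3) 2

def S_REC2 : Prop := ∀ (R : Type) [CommRing R] (p : ℕ) (h : ℕ → R) (ε : R), Harm p h →
  ε ^ 3 = 0 → ∀ t : ℕ, 2 * t + 2 < p →
    ((t : R) + 1 + ε) ^ 3 * df2 h ε (t + 1) = 8 * (2 * t + 1 + 2 * ε) ^ 3 * df2 h ε t

def S_INV2 : Prop := ∀ (R : Type) [CommRing R] (p n : ℕ) (h c d : ℕ → R) (ε : R), Harm p h →
  (p : R) = 0 → ε ^ 3 = 0 → 2 * n + 1 = p →
  (∀ t < n, ((t : R) + 1) ^ 3 * c (t + 1) = 8 * (2 * t + 1) ^ 3 * c t) →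
  (∀ t < n, ((t : R) + 1 + ε) ^ 3 * d (t + 1) = 8 * (2 * t + 1 + 2 * ε) ^ 3 * d t) →
  -63 * (mo n 0 c 1 * mo n ε d 1 - mo n 0 c 0 * mo n ε d 2 - mo n ε d 0 * mo n 0 c 2) +
    32 * (mo n 0 c 0 * mo n ε d 1 + mo n ε d 0 * mo n 0 c 1) +
    16 * mo n 0 c 0 * mo n ε d 0 = ε ^ 2 * (64 * c n * d n - c 0 * d 0)

def S_HF : Prop := ∀ (p n : ℕ) (h : ℕ → ZMod p), p.Prime → Harm p h → 2 * n + 1 = p →
  (63 : ZMod p) ≠ 0 → cb (ZMod p) n ^ 2 = 1 → mo n 0 (fun t => cb (ZMod p) t ^ 3) 0 = 0 →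
  mo n 0 (fun t => cb (ZMod p) t ^ 3) 1 = 0 ∧
    (∑ t ∈ range (n + 1), cb (ZMod p) t ^ 3 * (6 * (h (2 * t) - h t))) *
      mo n 0 (fun t => cb (ZMod p) t ^ 3) 2 = 0 ∧
    (∑ t ∈ range (n + 1), cb (ZMod p) t ^ 3 * hh h t) * mo n 0 (fun t => cb (ZMod p) t ^ 3) 2 = 1

end Pool.Agent.MP_552068_nt
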