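import Pool.Agent.MP_552068_nt.Spec2

/-! Row TK0: the reflection constant modulo the prime. -/

set_option autoImplicit false

namespace Pool.Agent.MP_552068_nt

open Finset

namespace TK0x

theorem pow16 {p n : ℕ} (hp : p.Prime) (hn : 2 * n + 1 = p) : (16 : ZMod p) ^ n = 1 := by
  have := Fact.mk hp
  have h2 : (2 : ZMod p) ≠ 0 := by
    intro h
    have h3 : ((2 : ℕ) : ZMod p) = 0 := by exact_mod_cast h
    rw [ZMod.natCast_eq_zero_iff] at h3
    have h4 := (Nat.prime_dvd_prime_iff_eq hp Nat.prime_two).1 h3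
    omega
  have h5 := ZMod.pow_card_sub_one_eq_one h2
  have h6 : p - 1 = 2 * n := by omega
  rw [h6] at h5
  calc (16 : ZMod p) ^ n = ((2 : ZMod p) ^ (2 * n)) ^ 2 := by
        rw [← pow_mul, show 2 * n * 2 = 4 * n by ring, pow_mul]; norm_num
    _ = 1 := by rw [h5, one_pow]

end TK0x

theorem tk0 (h1 : S_RAT) : S_TK0 := by
  intro p n h hp H hn
  have h0 : ((p : ℕ) : ZMod p) = 0 := ZMod.natCast_self p
  obtain ⟨κ, hκ⟩ := h1 (ZMod p) p n h H (by rw [h0]; ring) hn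
  have hk : ∀ t u : ℕ, t + u = n →
      (-16 : ZMod p) ^ t * ((-1) ^ u * cb (ZMod p) u) = κ * cb (ZMod p) t := by
    intro t u htu
    have h2 := hκ t u htu
    rw [h0, zero_mul, add_zero, mul_one] at h2
    exact h2
  have c0 : cb (ZMod p) 0 = 1 := by simp [cb]
  have e1 := hk 0 n (by omega)
  have e2 := hk n 0 (by omega)
  rw [c0, pow_zero, one_mul, mul_one] at e1
  rw [c0, pow_zero, mul_one, mul_one] at e2
  have e3 : (-16 : ZMod p) ^ n = (-1) ^ n := by
    rw [show (-16 : ZMod p) = -1 * 16 by ring, mul_pow, TK0x.pow16 hp hn, mul_one]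
  have e4 : ((-1 : ZMod p) ^ n) ^ 2 = 1 := by
    rw [← pow_mul, mul_comm, pow_mul]; simp
  have e5 : cb (ZMod p) n ^ 2 = 1 := by
    rw [e3, ← e1] at e2
    linear_combination (-(-1 : ZMod p) ^ n) * e2 + (1 - cb (ZMod p) n ^ 2) * e4
  refine ⟨κ, ?_, e5, hk⟩
  rw [← e1, mul_pow, e4, e5, one_mul]

end Pool.Agent.MP_552068_nt
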