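import Pool.Agent.MP_552068_nt.Spec2
import Pool.Agent.MP_552068_nt.SPL

/-! Project B3, row TOP: two levels of blocks. -/

set_option autoImplicit false

namespace Pool.Agent.MP_552068_nt

open Finset

namespace TOPx

theorem split (p n : ℕ) :
    S (p * n) = ∑ A ∈ range n, ∑ c ∈ range n, (-1) ^ (p * A) * (-16) ^ (p * c) * I p A c := by
  rw [S, sum_congr rfl fun k hk => by rw [SPLx.inner (mem_range.1 hk), SPLx.blk], SPLx.blk]
  refine sum_congr rfl fun A _ => ?_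
  simp only [I, mul_sum]
  rw [sum_comm]
  refine sum_congr rfl fun c _ => sum_congr rfl fun r _ => sum_congr rfl fun t _ => ?_
  ring

theorem flat (n : ℕ) :
    S n = ∑ A ∈ range n, ∑ c ∈ range n, (-1) ^ A * (-16) ^ c * (M A c : ℤ) ^ 2 := by
  rw [S]
  refine sum_congr rfl fun A hA => ?_
  rw [SPLx.inner (mem_range.1 hA), mul_sum]
  exact sum_congr rfl fun c _ => by ring

theorem pw {p : ℕ} [Fact p.Prime] (x : ZMod p) (A r : ℕ) :
    x ^ (p * (p * A + r)) = x ^ A * x ^ r := by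
  rw [pow_mul, ZMod.pow_card, pow_add, pow_mul, ZMod.pow_card]

theorem term (h1 : S_LUM) {p : ℕ} (hp : p.Prime) (Q0 Q1 Q2 Q3 Q4 Q5 : ℤ) (A c : ℕ) {r t : ℕ}
    (hr : r < p) (ht : t < p) :
    (p : ℤ) ∣ (-1) ^ (p * (p * A + r)) * (-16) ^ (p * (p * c + t)) *
      ((M (p * A + r) (p * c + t) : ℤ) ^ 2 *
        qd Q0 Q1 Q2 Q3 Q4 Q5 ((p * A + r : ℕ) : ℤ) ((p * c + t : ℕ) : ℤ)) -
      (-1) ^ A * (-16) ^ c * (M A c : ℤ) ^ 2 *
        ((-1) ^ r * (-16) ^ t * (M r t : ℤ) ^ 2 * qd Q0 Q1 Q2 Q3 Q4 Q5 r t) := by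
  have := Fact.mk hp
  have h2 : ((M (p * A + r) (p * c + t) : ℕ) : ZMod p) = (M A c : ZMod p) * (M r t : ZMod p) := by
    rw [← Nat.cast_mul]
    exact (ZMod.natCast_eq_natCast_iff _ _ _).2 (h1 p A c r t hp hr ht)
  rw [← ZMod.intCast_zmod_eq_zero_iff_dvd]
  simp only [qd]
  push_cast
  rw [pw, pw, h2, ZMod.natCast_self]
  ring

end TOPx

theorem top (h1 : S_LUM) : S_TOP := by
  intro p n Q0 Q1 Q2 Q3 Q4 Q5 hp _ h
  set X : ℤ := ∑ A ∈ range (p * n), ∑ c ∈ range (p * n), (-1) ^ (p * A) * (-16) ^ (p * c) *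
    ((M A c : ℤ) ^ 2 * qd Q0 Q1 Q2 Q3 Q4 Q5 A c) with hX
  set Ω : ℤ := ∑ r ∈ range p, ∑ t ∈ range p,
    (-1) ^ r * (-16) ^ t * (M r t : ℤ) ^ 2 * qd Q0 Q1 Q2 Q3 Q4 Q5 r t with hΩ
  have e1 : (p : ℤ) ^ 3 ∣ S (p * (p * n)) - p ^ 2 * X := by
    rw [TOPx.split, hX, mul_sum, ← sum_sub_distrib]
    refine dvd_sum fun A _ => ?_
    rw [mul_sum, ← sum_sub_distrib]
    refine dvd_sum fun c _ => ?_
    have h2 := (h A c).mul_left ((-1) ^ (p * A) * (-16) ^ (p * c))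
    convert h2 using 1
    ring
  have e2 : (p : ℤ) ∣ X - S n * Ω := by
    rw [TOPx.flat, hX, SPLx.blk, sum_mul, ← sum_sub_distrib]
    refine dvd_sum fun A _ => ?_
    rw [sum_congr rfl fun r _ => SPLx.blk p n _, sum_comm, sum_mul, ← sum_sub_distrib]
    refine dvd_sum fun c _ => ?_
    rw [hΩ, mul_sum, ← sum_sub_distrib]
    refine dvd_sum fun r hr => ?_
    rw [mul_sum, ← sum_sub_distrib]
    exact dvd_sum fun t ht => TOPx.term h1 hp Q0 Q1 Q2 Q3 Q4 Q5 A c (mem_range.1 hr) (mem_range.1 ht)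
  have e3 : (p : ℤ) ^ 3 ∣ p ^ 2 * (X - S n * Ω) := by
    rw [pow_succ]
    exact mul_dvd_mul_left _ e2
  have e4 : S (p * (p * n)) - p ^ 2 * (S n * Ω) =
      S (p * (p * n)) - p ^ 2 * X + p ^ 2 * (X - S n * Ω) := by ring
  rw [e4]
  exact dvd_add e1 e3

end Pool.Agent.MP_552068_nt
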